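import Pool.Agent.helper4.BAS.Tit

/-!
# BAS-Desc: the descent of a represented integer

`siz`: letter `k` from the node `a` to the child `b`, `|b| ≥ Z`: `3 b + c = 2 ^ k a`, `1 ≤ c ≤ 2`, so
`2 ^ k |a| ≤ 3 |b| + 2 ≤ 3 |b| (1 + 1/Z)`; induction from the right (see helper62's `T2/SizT.lean`, store `T2a_SizT.lean`); `|root| ≥ 1`.
`desc`: `s n = 2 ^ i (s m)`, `T^[i] (s n) = s m` (`T_two_pow`), `s m` is odd, `T (s m) = (3 s m + 1) / 2 = 4 ^ j (s b)` (`s * s = 1`),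
`T^[2 j]` of it is `s b = 3 nd x v + 2`, `T^[v.sum]` of this is `3 x + 2` (`T_word`), `|3 x + 2| = nv s x < Z`.  The number of steps is
`i + 1 + 2 j + v.sum ≤ 2 J + 1 + v.sum`.  `Typ`: `1.99 ℓ ≤ v.sum ≤ 2.01 ℓ`, `ℓ = v.length`; `siz` and `b ≤ 2 n` (`2 b ≤ 3 m + 1 ≤ 4 n`), `Z ≥ 100`:
`ℓ (1.99 log 2 - log 3 - 1/100) ≤ log (2 n)`, `1.99 log 2 - log 3 - 1/100 ≥ 0.27` (`log (4/3) ≥ 0.2876`; `0.01 log 2 ≤ 0.007`), so
`v.sum ≤ 2.01 ℓ ≤ 7.5 log (2 n)`, and `7.5 log (2 n) + 2 J + 1 ≤ 8 log n` for `n ≥ N0`.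
-/

namespace Pool.Agent.helper4.BAS

open Finset Pool.Agent.helper14.EX1

/-- One letter. -/
theorem Desc_step {s : ℤ} (hs : s = 1 ∨ s = -1) {k : ℕ} (hk : 1 ≤ k) {x : ℤ} (h : Al k x) :
    2 ^ k * nv s x ≤ 3 * nv s (Tk k x) + 2 := by
  have h1 := Tk_node hk h
  unfold nv
  rcases hs with rfl | rfl
  · split_ifs at h1 <;> linarith
  · split_ifs at h1 <;> linarith

/-- The lower bound along a word which stays above `Z`. -/
theorem Desc_aux {s : ℤ} (hs : s = 1 ∨ s = -1) {Z x : ℤ} {v : List ℕ} (hZ : 0 < Z)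
    (h1 : ∀ k ∈ v, 1 ≤ k) (ha : Ala x v) (hn : ∀ i, 1 ≤ i → i ≤ v.length → Z ≤ nv s (nd x (v.take i))) :
    (2 : ℝ) ^ v.sum * (nv s x : ℝ) ≤
      (3 : ℝ) ^ v.length * (nv s (nd x v) : ℝ) * (1 + 1 / (Z : ℝ)) ^ v.length := by
  induction v using List.reverseRecOn with
  | nil => simp [nd]
  | append_singleton u k ih =>
    rw [ala_append] at ha
    have hk : 1 ≤ k := h1 k (by simp)
    have hi := ih (fun j hj => h1 j (by simp [hj])) ha.1 (fun i hi hi' => by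
      have h2 := hn i hi (by simp; omega)
      rwa [List.take_append_of_le_length hi'] at h2)
    have hZr : (0 : ℝ) < Z := by exact_mod_cast hZ
    have hend := hn (u ++ [k]).length (by simp) le_rfl
    rw [List.take_length] at hend
    have e1 : nd x (u ++ [k]) = Tk k (nd x u) := by
      rw [nd_append]
      rfl
    rw [e1] at hend ⊢
    have hst := Desc_step hs hk ha.2.1
    obtain ⟨a, hadef⟩ : ∃ a, nv s (Tk k (nd x u)) = a := ⟨_, rfl⟩
    obtain ⟨b, hbdef⟩ : ∃ b, nv s (nd x u) = b := ⟨_, rfl⟩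
    rw [hadef] at hst hend ⊢
    rw [hbdef] at hst hi
    have hsr : (2 : ℝ) ^ k * b ≤ 3 * a + 2 := by exact_mod_cast hst
    have har2 : (Z : ℝ) ≤ a := by exact_mod_cast hend
    have hstep : (2 : ℝ) ^ k * b ≤ 3 * a * (1 + 1 / (Z : ℝ)) := by
      have h3 : (1 : ℝ) ≤ a * (1 / (Z : ℝ)) := by
        rw [mul_one_div, le_div_iff₀ hZr]
        linarith
      nlinarith
    rw [List.sum_append, List.length_append, pow_add, List.sum_singleton, List.length_singleton,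
      pow_add, pow_add, pow_one, pow_one]
    have hq : (0 : ℝ) ≤ (3 : ℝ) ^ u.length * (1 + 1 / (Z : ℝ)) ^ u.length := by positivity
    calc (2 : ℝ) ^ u.sum * 2 ^ k * (nv s x : ℝ) =
        2 ^ k * (2 ^ u.sum * (nv s x : ℝ)) := by ring
      _ ≤ 2 ^ k * ((3 : ℝ) ^ u.length * b * (1 + 1 / (Z : ℝ)) ^ u.length) :=
        mul_le_mul_of_nonneg_left hi (by positivity)
      _ = ((3 : ℝ) ^ u.length * (1 + 1 / (Z : ℝ)) ^ u.length) * (2 ^ k * b) := by ring
      _ ≤ ((3 : ℝ) ^ u.length * (1 + 1 / (Z : ℝ)) ^ u.length) * (3 * a * (1 + 1 / (Z : ℝ))) :=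
        mul_le_mul_of_nonneg_left hstep hq
      _ = (3 : ℝ) ^ u.length * 3 * a * ((1 + 1 / (Z : ℝ)) ^ u.length * (1 + 1 / (Z : ℝ))) := by ring

theorem siz {s Z x : ℤ} (hs : s = 1 ∨ s = -1) (hZ : 1 ≤ Z) {v : List ℕ} (h : FP s Z x v) :
    (2 : ℝ) ^ v.sum ≤ (3 : ℝ) ^ v.length * (nv s (nd x v) : ℝ) * (1 + 1 / (Z : ℝ)) ^ v.length := by
  obtain ⟨h0, h4, hZ', hv, h1, ha, hn⟩ := h
  refine le_trans ?_ (Desc_aux hs (by omega) h1 ha hn)
  have h3 : (1 : ℝ) ≤ nv s x := by exact_mod_cast h0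
  have h5 : (0 : ℝ) < 2 ^ v.sum := by positivity
  nlinarith

/-- The length of a typical first passage word. -/
theorem Desc_len {s Z x : ℤ} (hs : s = 1 ∨ s = -1) (hZ : 100 ≤ Z) {e : ℝ} (he1 : e ≤ 1 / 100)
    {v : List ℕ} (h : FP s Z x v) (ht : Typ e v) {n : ℕ} (hn : (nv s (nd x v) : ℝ) ≤ 2 * n)
    (hn0 : 0 < n) : (v.sum : ℝ) ≤ 15 / 2 * Real.log (2 * n) := by
  have h1 := siz hs (by omega) h
  have hZr : (100 : ℝ) ≤ Z := by exact_mod_cast hZ
  have hnr : (0 : ℝ) < n := by exact_mod_cast hn0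
  have h2 : (1 + 1 / (Z : ℝ)) ≤ Real.exp (1 / 100) := by
    have a1 : 1 / (Z : ℝ) ≤ 1 / 100 := one_div_le_one_div_of_le (by norm_num) hZr
    have a2 := Real.add_one_le_exp (1 / 100 : ℝ)
    linarith
  have h3 : (2 : ℝ) ^ v.sum ≤ (3 : ℝ) ^ v.length * (2 * n) * Real.exp (1 / 100) ^ v.length := by
    refine h1.trans ?_
    have b1 : (1 + 1 / (Z : ℝ)) ^ v.length ≤ Real.exp (1 / 100) ^ v.length :=
      pow_le_pow_left₀ (by positivity) h2 _
    have b2 : (3 : ℝ) ^ v.length * (nv s (nd x v) : ℝ) ≤ (3 : ℝ) ^ v.length * (2 * n) :=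
      mul_le_mul_of_nonneg_left hn (by positivity)
    exact mul_le_mul b2 b1 (by positivity) (by positivity)
  have h4 := Real.log_le_log (by positivity) h3
  rw [Real.log_mul (by positivity) (by positivity), Real.log_mul (by positivity) (by positivity),
    Real.log_pow, Real.log_pow, Real.log_pow, Real.log_exp] at h4
  obtain ⟨ht1, -⟩ := ht
  have hl0 : (0 : ℝ) ≤ v.length := Nat.cast_nonneg _
  have h5 : e * v.length ≤ 1 / 100 * v.length := mul_le_mul_of_nonneg_right he1 hl0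
  have h6 := abs_le.1 (ht1.trans h5)
  have l2 := Real.log_two_gt_d9
  have l2' := Real.log_two_lt_d9
  -- `log 3 = 2 log 2 - log (4 / 3)`
  have l43 : (0.2875 : ℝ) ≤ Real.log (4 / 3) := by
    have c1 : Real.exp 0.2875 ≤ 4 / 3 := by
      have := Real.exp_bound' (x := 0.2875) (by norm_num) (by norm_num) (n := 6) (by norm_num)
      refine this.trans ?_
      norm_num [Finset.sum_range_succ, Nat.factorial]
    rw [Real.le_log_iff_exp_le (by norm_num)]
    exact c1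
  have l3 : Real.log 3 = 2 * Real.log 2 - Real.log (4 / 3) := by
    rw [Real.log_div (by norm_num) (by norm_num)]
    have : (4 : ℝ) = 2 ^ 2 := by norm_num
    rw [this, Real.log_pow]
    push_cast
    ring
  set l : ℝ := (v.length : ℝ) with hl
  set A : ℝ := (v.sum : ℝ) with hA
  have g1 : (1.99 : ℝ) * l * Real.log 2 ≤ A * Real.log 2 :=
    mul_le_mul_of_nonneg_right (by linarith) (by linarith)
  have g2 : l * (1.99 * Real.log 2 - Real.log 3 - 1 / 100) ≤ Real.log (2 * n) := by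
    nlinarith
  have g3 : (0.27 : ℝ) ≤ 1.99 * Real.log 2 - Real.log 3 - 1 / 100 := by
    rw [l3]
    linarith
  have g4 : l * 0.27 ≤ Real.log (2 * n) := (mul_le_mul_of_nonneg_left g3 hl0).trans g2
  linarith

theorem desc {s : ℤ} (hs : s = 1 ∨ s = -1) {e : ℝ} (he1 : e ≤ 1 / 100) {Z : ℤ} (hZ : 100 ≤ Z)
    (J : ℕ) : ∃ N0 : ℕ, ∀ n : ℕ, N0 ≤ n → Rep s J e Z n →
      ∃ k : ℕ, (k : ℝ) ≤ 8 * Real.log n ∧ |T^[k] (s * n)| < Z := by
  -- `15/2 log (2 n) + 2 J + 1 ≤ 8 log n` for large `n`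
  have hlim : Filter.Tendsto (fun n : ℕ => Real.log n) Filter.atTop Filter.atTop :=
    Real.tendsto_log_atTop.comp tendsto_natCast_atTop_atTop
  obtain ⟨N1, hN1⟩ := Filter.eventually_atTop.1 (hlim.eventually_ge_atTop (15 * Real.log 2 + 2 * (2 * J + 1)))
  refine ⟨max N1 1, fun n hn hR => ?_⟩
  have hn1 : 1 ≤ n := (le_max_right _ _).trans hn
  have hlog := hN1 n ((le_max_left _ _).trans hn)
  obtain ⟨i, j, m, b, hij, hnm, hmo, hmb, x, v, hFP, hTyp, hb⟩ := hR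
  have hss : s * s = 1 := by rcases hs with rfl | rfl <;> norm_num
  have hm1 : 1 ≤ m := hmo.pos
  have hmn : m ≤ n := by
    rw [hnm]
    exact Nat.le_mul_of_pos_left m (by positivity)
  have hs1 : s ≤ 1 := by rcases hs with rfl | rfl <;> norm_num
  have hbn : (b : ℤ) ≤ 2 * n := by
    have h4 : (1 : ℤ) ≤ 4 ^ j := one_le_pow₀ (by norm_num)
    have hb0 : (0 : ℤ) ≤ b := Int.natCast_nonneg b
    have h5 : 1 * (b : ℤ) ≤ 4 ^ j * b := mul_le_mul_of_nonneg_right h4 hb0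
    have h6 : (m : ℤ) ≤ n := by exact_mod_cast hmn
    have h7 : (1 : ℤ) ≤ n := by exact_mod_cast hn1
    have h8 : 2 * 4 ^ j * (b : ℤ) = 2 * (4 ^ j * b) := by ring
    rw [h8] at hmb
    linarith
  -- the trajectory
  have t1 : T^[i] (s * n) = s * m := by
    have : s * (n : ℤ) = 2 ^ i * (s * m) := by
      rw [hnm]
      push_cast
      ring
    rw [this, T_two_pow]
  have t2 : T (s * m) = 2 ^ (2 * j) * (3 * nd x v + 2) := by
    have e1 : 3 * nd x v + 2 = s * b := by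
      have : nv s (nd x v) = (b : ℤ) := hb
      unfold nv at this
      rw [← this, ← mul_assoc, hss, one_mul]
    rw [e1]
    have e2 : (s * (m : ℤ)) % 2 ≠ 0 := by
      obtain ⟨r, hr⟩ := hmo
      rw [hr]
      rcases hs with rfl | rfl <;> push_cast <;> omega
    have e3 : 3 * (s * (m : ℤ)) + 1 = 2 * (2 ^ (2 * j) * (s * b)) := by
      have h8 : s * (3 * (m : ℤ) + s) = s * (2 * 4 ^ j * b) := by rw [hmb]
      have h9 : (2 : ℤ) ^ (2 * j) = 4 ^ j := by
        rw [pow_mul]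
        norm_num
      rw [h9]
      linarith
    unfold T
    rw [if_neg e2, e3]
    exact Int.mul_ediv_cancel_left _ (by norm_num)
  have t3 : T^[v.sum] (3 * nd x v + 2) = 3 * x + 2 := T_word hFP.2.2.2.2.1 hFP.2.2.2.2.2.1
  refine ⟨v.sum + (2 * j + (1 + i)), ?_, ?_⟩
  · have h1 := Desc_len hs hZ he1 hFP hTyp (n := n) (by
      rw [hb]
      exact_mod_cast hbn) (by omega)
    have hnr : (0 : ℝ) < n := by exact_mod_cast hn1
    rw [Real.log_mul (by norm_num) hnr.ne'] at h1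
    obtain ⟨A, hA⟩ : ∃ A, v.sum = A := ⟨_, rfl⟩
    rw [hA] at h1 ⊢
    push_cast
    have h2 : ((i : ℝ) + j) ≤ J := by exact_mod_cast hij
    have h3 : (0 : ℝ) ≤ i := Nat.cast_nonneg _
    have h4 : (0 : ℝ) ≤ j := Nat.cast_nonneg _
    linarith
  · rw [Function.iterate_add_apply, Function.iterate_add_apply, Function.iterate_add_apply, t1,
      Function.iterate_one, t2, T_two_pow, t3]
    have h1 : nv s x < Z := hFP.2.2.1
    have h2 : 0 < nv s x := hFP.1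
    have h3 : |3 * x + 2| = nv s x := by
      unfold nv at h2 ⊢
      rcases hs with rfl | rfl
      · rw [one_mul] at h2 ⊢
        exact abs_of_pos h2
      · rw [abs_of_neg (by linarith)]
        ring
    rw [h3]
    exact h1

end Pool.Agent.helper4.BAS
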