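import Pool.Agent.helper4.BAS.AllN
import Pool.Agent.helper4.BAS.Desc

/-!
# BAS-FinA: almost all integers come down; finitely many cycles attract almost all of the attracted integers

`down`: `allN` and `desc` for `s = 1, -1` (`Z = max`: `Rep` is used with its own `Z`, the conclusion `< Z` is monotone; `δ/8` each),
`n = 0` and `|n| < N0` are at most `2 N0 + 1` integers; `log |n| ≤ log X`.
`few`: `F` = the cycles `c` such that some `z` with `|z| < Z` is in `Basin c`: finite, because `z` is in at most one basin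
(`basin_unique`: a cycle is invariant, and two cycles with a common element are equal).  If `n ∈ Basin c`, `c ∉ F`, and `|T^[k] n| < Z`, then
`T^[k] n ∈ Basin c` (go on along the orbit; `T` maps `c` into `c`): contradiction.
-/

namespace Pool.Agent.helper4.BAS

open Finset Pool.Agent.helper14.EX1

theorem FinA_iter {c : Set ℤ} (hc : IsCycle c) {x : ℤ} (hx : x ∈ c) (i : ℕ) : T^[i] x ∈ c := by
  obtain ⟨n0, -, rfl⟩ := hc
  obtain ⟨j, hj⟩ := hx
  exact ⟨i + j, by rw [Function.iterate_add_apply, hj]⟩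

theorem FinA_orbit {c : Set ℤ} (hc : IsCycle c) {x : ℤ} (hx : x ∈ c) :
    c = {m : ℤ | ∃ i : ℕ, T^[i] x = m} := by
  obtain ⟨n0, ⟨p, hp, hpn⟩, rfl⟩ := hc
  obtain ⟨j, hj⟩ := hx
  ext m
  constructor
  · rintro ⟨i, hi⟩
    refine ⟨i + j * (p - 1), ?_⟩
    rw [← hj, ← Function.iterate_add_apply]
    have h1 : i + j * (p - 1) + j = i + p * j := by
      obtain ⟨q, rfl⟩ : ∃ q, p = q + 1 := ⟨p - 1, by omega⟩
      simp only [Nat.add_sub_cancel]
      ring
    rw [h1, Function.iterate_add_apply]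
    have h2 : T^[p * j] n0 = n0 := by
      rw [Function.iterate_mul]
      exact Function.iterate_fixed hpn j
    rw [h2, hi]
  · rintro ⟨i, hi⟩
    exact ⟨i + j, by rw [Function.iterate_add_apply, hj, hi]⟩

theorem basin_unique {c c' : Set ℤ} (hc : IsCycle c) (hc' : IsCycle c') {n : ℤ} (h : n ∈ Basin c)
    (h' : n ∈ Basin c') : c = c' := by
  obtain ⟨k, hk⟩ := h
  obtain ⟨k', hk'⟩ := h'
  have h1 : T^[k' + k] n ∈ c := by
    rw [Function.iterate_add_apply]; exact FinA_iter hc hk k'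
  have h2 : T^[k' + k] n ∈ c' := by
    rw [Nat.add_comm, Function.iterate_add_apply]; exact FinA_iter hc' hk' k
  rw [FinA_orbit hc h1, FinA_orbit hc' h2]

theorem FinA_basin_iter {c : Set ℤ} (hc : IsCycle c) {n : ℤ} (h : n ∈ Basin c) (k : ℕ) :
    T^[k] n ∈ Basin c := by
  obtain ⟨j, hj⟩ := h
  refine ⟨j, ?_⟩
  rw [← Function.iterate_add_apply, Nat.add_comm, Function.iterate_add_apply]
  exact FinA_iter hc hj k

open Classical in
/-- One sign. -/
theorem FinA_one {s : ℤ} (hs : s = 1 ∨ s = -1) {δ : ℝ} (hδ : 0 < δ) :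
    ∃ (Z : ℤ) (N0 X0 : ℕ) (P : ℕ → Prop), (∀ X : ℕ, X0 ≤ X →
      (((Icc 1 X).filter (fun n => ¬ P n)).card : ℝ) ≤ δ * X) ∧
      ∀ n : ℕ, N0 ≤ n → P n → ∃ k : ℕ, (k : ℝ) ≤ 8 * Real.log n ∧ |T^[k] (s * n)| < Z := by
  obtain ⟨Z, J, X0, hZ, hX⟩ := allN hs (e := 1 / 100) (by norm_num) le_rfl hδ 100
  obtain ⟨N0, hN⟩ := desc hs (e := 1 / 100) le_rfl hZ J
  exact ⟨Z, N0, X0, fun n => Rep s J (1 / 100) Z n, hX, hN⟩

open Classical in
theorem down {δ : ℝ} (hδ : 0 < δ) : ∃ (Z : ℤ) (X0 : ℕ), ∀ X : ℕ, X0 ≤ X →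
    (((Icc (-(X : ℤ)) X).filter (fun n => ¬ ∃ k : ℕ, (k : ℝ) ≤ 8 * Real.log X ∧ |T^[k] n| < Z)).card : ℝ) ≤
      δ * X := by
  obtain ⟨Z1, N1, X1, P1, h1, g1⟩ := FinA_one (s := 1) (Or.inl rfl) (δ := δ / 8) (by positivity)
  obtain ⟨Z2, N2, X2, P2, h2, g2⟩ := FinA_one (s := -1) (Or.inr rfl) (δ := δ / 8) (by positivity)
  set N := max N1 N2 + 1 with hN
  obtain ⟨M, hM⟩ := exists_nat_gt ((2 * N + 1 : ℝ) * (2 / δ))
  refine ⟨max Z1 Z2, max (max X1 X2) M, fun X hX => ?_⟩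
  have hX1 : X1 ≤ X := (le_max_left _ _).trans ((le_max_left _ _).trans hX)
  have hX2 : X2 ≤ X := (le_max_right _ _).trans ((le_max_left _ _).trans hX)
  have hXM : M ≤ X := (le_max_right _ _).trans hX
  set A : Finset ℤ := Icc (-(N : ℤ)) N with hA
  set B1 : Finset ℤ := ((Icc 1 X).filter (fun n => ¬ P1 n)).image (fun m : ℕ => (m : ℤ)) with hB1
  set B2 : Finset ℤ := ((Icc 1 X).filter (fun n => ¬ P2 n)).image (fun m : ℕ => -(m : ℤ)) with hB2
  have hsub : (Icc (-(X : ℤ)) X).filter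
      (fun n => ¬ ∃ k : ℕ, (k : ℝ) ≤ 8 * Real.log X ∧ |T^[k] n| < max Z1 Z2) ⊆ A ∪ (B1 ∪ B2) := by
    intro n hn
    rw [mem_filter, mem_Icc] at hn
    obtain ⟨⟨ha, hb⟩, hc⟩ := hn
    rw [mem_union, mem_union]
    by_cases hs : n ∈ A
    · exact Or.inl hs
    · refine Or.inr ?_
      rw [hA, mem_Icc] at hs
      have key : ∀ m : ℕ, 1 ≤ m → m ≤ X → ∀ k : ℕ, (k : ℝ) ≤ 8 * Real.log m → (k : ℝ) ≤ 8 * Real.log X := by
        intro m hm hmX k hk
        refine hk.trans ?_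
        have : Real.log (m : ℝ) ≤ Real.log (X : ℝ) :=
          Real.log_le_log (by exact_mod_cast hm) (by exact_mod_cast hmX)
        linarith
      rcases le_total 0 n with h0 | h0
      · left
        obtain ⟨m, rfl⟩ := Int.eq_ofNat_of_zero_le h0
        have hmN : N < m := by
          by_contra hcon
          exact hs ⟨by omega, by omega⟩
        rw [hB1, mem_image]
        refine ⟨m, ?_, rfl⟩
        rw [mem_filter, mem_Icc]
        refine ⟨⟨by omega, by omega⟩, fun hP => hc ?_⟩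
        obtain ⟨k, hk, hT⟩ := g1 m (by omega) hP
        refine ⟨k, key m (by omega) (by omega) k hk, ?_⟩
        rw [one_mul] at hT
        exact lt_of_lt_of_le hT (le_max_left _ _)
      · right
        obtain ⟨m, hm⟩ := Int.eq_ofNat_of_zero_le (show 0 ≤ -n by omega)
        obtain rfl : n = -(m : ℤ) := by omega
        have hmN : N < m := by
          by_contra hcon
          exact hs ⟨by omega, by omega⟩
        rw [hB2, mem_image]
        refine ⟨m, ?_, rfl⟩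
        rw [mem_filter, mem_Icc]
        refine ⟨⟨by omega, by omega⟩, fun hP => hc ?_⟩
        obtain ⟨k, hk, hT⟩ := g2 m (by omega) hP
        refine ⟨k, key m (by omega) (by omega) k hk, ?_⟩
        rw [neg_one_mul] at hT
        exact lt_of_lt_of_le hT (le_max_right _ _)
  have c0 : (A.card : ℝ) = 2 * N + 1 := by
    rw [hA, Int.card_Icc]
    have : (((N : ℤ) + 1 - -(N : ℤ)).toNat : ℤ) = 2 * N + 1 := by
      rw [Int.toNat_of_nonneg (by omega)]; ring
    exact_mod_cast this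
  have c1 : (B1.card : ℝ) ≤ δ / 8 * X := le_trans (by exact_mod_cast card_image_le) (h1 X hX1)
  have c2 : (B2.card : ℝ) ≤ δ / 8 * X := le_trans (by exact_mod_cast card_image_le) (h2 X hX2)
  have c3 : (2 * N + 1 : ℝ) ≤ δ / 2 * X := by
    have h4 : ((2 * N + 1 : ℝ) * (2 / δ)) ≤ X := hM.le.trans (by exact_mod_cast hXM)
    have h5 : (2 * N + 1 : ℝ) = δ / 2 * ((2 * N + 1 : ℝ) * (2 / δ)) := by
      field_simp
    rw [h5]
    exact mul_le_mul_of_nonneg_left h4 (by positivity)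
  have c4 := (card_le_card hsub).trans ((card_union_le _ _).trans (Nat.add_le_add_left (card_union_le _ _) _))
  have c5 : (((Icc (-(X : ℤ)) X).filter
      (fun n => ¬ ∃ k : ℕ, (k : ℝ) ≤ 8 * Real.log X ∧ |T^[k] n| < max Z1 Z2)).card : ℝ) ≤
      A.card + (B1.card + B2.card) := by exact_mod_cast c4
  have hXr : (0 : ℝ) ≤ δ * X := by positivity
  linarith

open Classical in
theorem few {δ : ℝ} (hδ : 0 < δ) : ∃ F : Set (Set ℤ), F.Finite ∧ (∀ c ∈ F, IsCycle c) ∧
    ∃ X0 : ℕ, ∀ X : ℕ, X0 ≤ X →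
    (((Icc (-(X : ℤ)) X).filter (fun n => ∃ c, IsCycle c ∧ c ∉ F ∧ n ∈ Basin c)).card : ℝ) ≤ δ * X := by
  obtain ⟨Z, X0, hX⟩ := down hδ
  refine ⟨⋃ z ∈ Set.Ioo (-Z) Z, {c | IsCycle c ∧ z ∈ Basin c}, ?_, ?_, X0, fun X h => ?_⟩
  · refine Set.Finite.biUnion (Set.finite_Ioo _ _) fun z _ => ?_
    refine Set.Subsingleton.finite ?_
    rintro c ⟨hc, hz⟩ c' ⟨hc', hz'⟩
    exact basin_unique hc hc' hz hz'
  · intro c hc
    rw [Set.mem_iUnion₂] at hc
    obtain ⟨z, _, hc⟩ := hc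
    exact hc.1
  · refine le_trans ?_ (hX X h)
    refine Nat.cast_le.2 (card_le_card ?_)
    intro n hn
    rw [mem_filter] at hn ⊢
    obtain ⟨hn1, c, hc, hcF, hb⟩ := hn
    refine ⟨hn1, ?_⟩
    rintro ⟨k, _, hk⟩
    apply hcF
    rw [Set.mem_iUnion₂]
    exact ⟨T^[k] n, abs_lt.1 hk, hc, FinA_basin_iter hc hb k⟩

end Pool.Agent.helper4.BAS
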