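import Pool.Agent.helper4.BAS.Defs
import Pool.Agent.helper14.EX1.Wrd

/-!
# BAS-Tit: `T` along words

`T_letter`: `Tk_node`: `3 b + c = 2 ^ k a`, `b = 3 Tk k x + 2`, `a = 3 x + 2`, `c = 1` (`k` odd), `2` (`k` even).  `k` odd: `b` is odd,
`T b = 2 ^ (k-1) a`, then `k - 1` halvings.  `k` even: `b` is even, `T b = b / 2`, `3 (b/2) + 1 = 2 ^ (k-1) a`, `b / 2` is odd,
`T (b/2) = 2 ^ (k-2) a`, then `k - 2` halvings.  `T_two_pow`: `T (2 n) = n`.  `T_word`: induction on `v`
(`Function.iterate_add_apply`: first the letters far from the root).  `T_pos`: `T n` has the sign of `n`.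
-/

namespace Pool.Agent.helper4.BAS

open Finset Pool.Agent.helper14.EX1

theorem Tit_two (n : ℤ) : T (2 * n) = n := by
  unfold T
  rw [if_pos (by omega)]
  omega

theorem Tit_odd {b m : ℤ} (h : 3 * b + 1 = 2 * m) : T b = m := by
  unfold T
  rw [if_neg (by omega)]
  omega

theorem T_two_pow (j : ℕ) (n : ℤ) : T^[j] (2 ^ j * n) = n := by
  induction j with
  | zero => simp
  | succ j ih =>
    rw [Function.iterate_succ_apply, pow_succ, mul_comm ((2 : ℤ) ^ j) 2, mul_assoc, Tit_two, ih]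

theorem T_letter {k : ℕ} {x : ℤ} (hk : 1 ≤ k) (h : Al k x) : T^[k] (3 * Tk k x + 2) = 3 * x + 2 := by
  have h1 := Tk_node hk h
  rcases Nat.even_or_odd k with he | ho
  · obtain ⟨j, hj⟩ : ∃ j, k = j + 2 := by
      obtain ⟨i, hi⟩ := he
      exact ⟨k - 2, by omega⟩
    have hc : ¬ k % 2 = 1 := by
      have := Nat.even_iff.1 he
      omega
    rw [if_neg hc] at h1
    have h2 : (2 : ℤ) ^ k = 4 * 2 ^ j := by
      rw [hj, pow_add]
      ring
    rw [h2] at h1
    obtain ⟨y, hy⟩ : ∃ y : ℤ, y = 2 ^ j * (3 * x + 2) := ⟨_, rfl⟩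
    have h3 : 3 * (3 * Tk k x + 2) = 4 * y - 2 := by
      rw [h1, hy]
      ring
    obtain ⟨b, hb⟩ : ∃ b : ℤ, 3 * Tk k x + 2 = 2 * b := ⟨(3 * Tk k x + 2) / 2, by omega⟩
    have h4 : 3 * b + 1 = 2 * y := by omega
    rw [hb, hj, Function.iterate_succ_apply, Tit_two, Function.iterate_succ_apply, Tit_odd h4, hy,
      T_two_pow]
  · obtain ⟨j, hj⟩ : ∃ j, k = j + 1 := ⟨k - 1, by omega⟩
    have hc : k % 2 = 1 := Nat.odd_iff.1 ho
    rw [if_pos hc] at h1
    have h2 : (2 : ℤ) ^ k = 2 * 2 ^ j := by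
      rw [hj, pow_add]
      ring
    rw [h2] at h1
    obtain ⟨y, hy⟩ : ∃ y : ℤ, y = 2 ^ j * (3 * x + 2) := ⟨_, rfl⟩
    have h3 : 3 * (3 * Tk k x + 2) + 1 = 2 * y := by
      rw [h1, hy]
      ring
    have h4 := Tit_odd h3
    generalize 3 * Tk k x + 2 = b at h4 ⊢
    rw [hj, Function.iterate_succ_apply, h4, hy, T_two_pow]

theorem T_word {v : List ℕ} {x : ℤ} (hv : ∀ k ∈ v, 1 ≤ k) (h : Ala x v) :
    T^[v.sum] (3 * nd x v + 2) = 3 * x + 2 := by
  induction v generalizing x with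
  | nil => simp [nd]
  | cons k v ih =>
    have h1 : Al k x := h.1
    have h2 : Ala (Tk k x) v := h.2
    rw [List.sum_cons, Function.iterate_add_apply]
    change T^[k] (T^[v.sum] (3 * nd (Tk k x) v + 2)) = 3 * x + 2
    rw [ih (fun j hj => hv j (List.mem_cons_of_mem k hj)) h2]
    exact T_letter (hv k List.mem_cons_self) h1

theorem T_pos (n : ℤ) (k : ℕ) : (0 < n → 0 < T^[k] n) ∧ (n < 0 → T^[k] n < 0) := by
  induction k with
  | zero => exact ⟨fun h => h, fun h => h⟩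
  | succ k ih =>
    rw [Function.iterate_succ_apply']
    generalize T^[k] n = y at ih ⊢
    constructor
    · intro h
      have h1 := ih.1 h
      unfold T
      split_ifs <;> omega
    · intro h
      have h1 := ih.2 h
      unfold T
      split_ifs <;> omega

end Pool.Agent.helper4.BAS
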