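import Pool.Agent.helper4.BAS.BadO

/-!
# BAS-AllN: from the nodes to all integers, both signs

Copy of helper62's `T2/AllN.lean` (store `T2a_AllN.lean`) with `3 m + s = 2 * 4 ^ j * b` and `3 ∣ s b - 2` instead of `b % 3 = 2`.
`n = 2 ^ i m`, `m` odd; `(3m+s)/2 ≥ 1`; divide by `4` as long as possible; `2 b ≡ s`, so `s b ≡ 2` modulo `3`.  `n ↦ (i, j, b)` is
injective and `b ≤ 2X / (2^i 4^j)` for `n ≤ X`.
-/

namespace Pool.Agent.helper4.BAS

open Finset Pool.Agent.helper14.EX1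

/-- The decomposition of a positive integer. -/
theorem dec {s : ℤ} (hs : s = 1 ∨ s = -1) (n : ℕ) (hn : 1 ≤ n) : ∃ i j m b : ℕ, n = 2 ^ i * m ∧ Odd m ∧
    3 * (m : ℤ) + s = 2 * 4 ^ j * b ∧ (3 : ℤ) ∣ s * b - 2 ∧ ¬ 4 ∣ b := by
  obtain ⟨i, m, hm, hn'⟩ := Nat.exists_eq_two_pow_mul_odd (n := n) (by omega)
  obtain ⟨k, hk⟩ := hm
  obtain ⟨c, hc0, hc⟩ : ∃ c : ℕ, c ≠ 0 ∧ 3 * (m : ℤ) + s = 2 * c := by
    rcases hs with rfl | rfl
    · exact ⟨3 * k + 2, by omega, by rw [hk]; push_cast; ring⟩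
    · exact ⟨3 * k + 1, by omega, by rw [hk]; push_cast; ring⟩
  obtain ⟨j, b, hb, hcb⟩ := Nat.exists_eq_pow_mul_and_not_dvd (n := c) hc0 4 (by norm_num)
  refine ⟨i, j, m, b, hn', ⟨k, hk⟩, ?_, ?_, hb⟩
  · rw [hc, hcb]
    push_cast
    ring
  · have h2 : 4 ^ j % 3 = 1 := by
      rw [Nat.pow_mod]
      simp
    have h3 : (4 ^ j * b) % 3 = b % 3 := by
      rw [Nat.mul_mod, h2, one_mul, Nat.mod_mod]
    rw [← hcb] at h3
    rcases hs with rfl | rfl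
    · have h4 : c % 3 = 2 := by omega
      omega
    · have h4 : c % 3 = 1 := by omega
      omega

/-- The size of the node. -/
theorem AllN_le {s : ℤ} (hs : s = 1 ∨ s = -1) {i q m b n X : ℕ} (hn : n = 2 ^ i * m) (_hm : 1 ≤ m)
    (hb : 3 * (m : ℤ) + s = 2 * 4 ^ q * b) (hX : n ≤ X) : b ≤ 2 * X / (2 ^ i * 4 ^ q) := by
  rw [Nat.le_div_iff_mul_le (by positivity)]
  have h1 : 4 ^ q * b ≤ 2 * m := by
    have h2 : ((2 * (4 ^ q * b) : ℕ) : ℤ) = 3 * (m : ℤ) + s := by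
      rw [hb]
      push_cast
      ring
    have h3 : s ≤ 1 := by
      rcases hs with rfl | rfl <;> norm_num
    omega
  calc b * (2 ^ i * 4 ^ q) = 2 ^ i * (4 ^ q * b) := by ring
    _ ≤ 2 ^ i * (2 * m) := Nat.mul_le_mul_left _ h1
    _ = 2 * n := by rw [hn]; ring
    _ ≤ 2 * X := by omega

/-- The integer is determined by its node. -/
theorem AllN_back {s : ℤ} {i q m b n : ℕ} (hn : n = 2 ^ i * m) (hb : 3 * (m : ℤ) + s = 2 * 4 ^ q * b) :
    2 ^ i * ((2 * 4 ^ q * (b : ℤ) - s) / 3).toNat = n := by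
  rw [← hb, hn]
  congr 1
  omega

open Classical in
/-- The integers with given `(i, j)`. -/
theorem AllN_main {s : ℤ} (hs : s = 1 ∨ s = -1) (P : ℕ → Prop) (i j X : ℕ) :
    ((Icc 1 X).filter (fun n => ∃ m b : ℕ, n = 2 ^ i * m ∧ Odd m ∧
      3 * (m : ℤ) + s = 2 * 4 ^ j * b ∧ P b)).card ≤
      ((Icc 1 (2 * X / (2 ^ i * 4 ^ j))).filter P).card := by
  refine (card_le_card ?_).trans (card_image_le
    (f := fun b : ℕ => 2 ^ i * ((2 * 4 ^ j * (b : ℤ) - s) / 3).toNat))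
  intro n hn
  rw [mem_filter, mem_Icc] at hn
  obtain ⟨⟨h1, h2⟩, m, b, h3, h4, h5, h6⟩ := hn
  rw [mem_image]
  refine ⟨b, ?_, AllN_back h3 h5⟩
  rw [mem_filter, mem_Icc]
  have hm := h4.pos
  have hb : b ≠ 0 := by
    rintro rfl
    rw [Nat.cast_zero, mul_zero] at h5
    rcases hs with rfl | rfl <;> omega
  exact ⟨⟨by omega, AllN_le hs h3 hm h5 h2⟩, h6⟩

theorem AllN_geo2 (K : ℕ) : ∑ i ∈ range K, (1 / 2 ^ i : ℝ) ≤ 2 := by
  have h := Summable.sum_le_tsum (range K) (fun i _ => by positivity) summable_geometric_two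
  rw [tsum_geometric_two] at h
  simpa using h

theorem AllN_geo4 (K : ℕ) : ∑ i ∈ range K, (1 / 4 ^ i : ℝ) ≤ 4 / 3 := by
  have h0 : Summable (fun i : ℕ => ((1 / 4 : ℝ)) ^ i) :=
    summable_geometric_of_lt_one (by norm_num) (by norm_num)
  have h := Summable.sum_le_tsum (range K) (fun i _ => by positivity) h0
  rw [tsum_geometric_of_lt_one (by norm_num) (by norm_num)] at h
  have h2 : ∑ i ∈ range K, (1 / 4 ^ i : ℝ) = ∑ i ∈ range K, ((1 / 4 : ℝ)) ^ i :=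
    sum_congr rfl fun i _ => by rw [one_div_pow]
  rw [h2]
  refine h.trans (le_of_eq ?_)
  norm_num

open Classical in
/-- The integers with many factors `4`. -/
theorem AllN_tail {s : ℤ} (hs : s = 1 ∨ s = -1) (q X : ℕ) :
    (((Icc 1 X).filter (fun n => ∃ i m b : ℕ, n = 2 ^ i * m ∧ Odd m ∧ 3 * (m : ℤ) + s = 2 * 4 ^ q * b)).card : ℝ) ≤
      4 * X / 4 ^ q := by
  have h1 : (Icc 1 X).filter (fun n => ∃ i m b : ℕ, n = 2 ^ i * m ∧ Odd m ∧ 3 * (m : ℤ) + s = 2 * 4 ^ q * b) ⊆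
      (range (X + 1)).biUnion fun i => (Icc 1 X).filter
        (fun n => ∃ m b : ℕ, n = 2 ^ i * m ∧ Odd m ∧ 3 * (m : ℤ) + s = 2 * 4 ^ q * b ∧ True) := by
    intro n hn
    rw [mem_filter, mem_Icc] at hn
    obtain ⟨⟨h1, h2⟩, i, m, b, h3, h4, h5⟩ := hn
    rw [mem_biUnion]
    refine ⟨i, ?_, ?_⟩
    · rw [mem_range]
      have h6 : i < 2 ^ i := Nat.lt_two_pow_self
      have h7 : 2 ^ i ≤ n := by
        rw [h3]
        exact Nat.le_mul_of_pos_right _ h4.pos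
      omega
    · rw [mem_filter, mem_Icc]
      exact ⟨⟨h1, h2⟩, m, b, h3, h4, h5, trivial⟩
  have h2 : (((Icc 1 X).filter
      (fun n => ∃ i m b : ℕ, n = 2 ^ i * m ∧ Odd m ∧ 3 * (m : ℤ) + s = 2 * 4 ^ q * b)).card : ℝ) ≤
      ∑ i ∈ range (X + 1), ((2 * X / (2 ^ i * 4 ^ q) : ℕ) : ℝ) := by
    rw [← Nat.cast_sum, Nat.cast_le]
    refine (card_le_card h1).trans (card_biUnion_le.trans (sum_le_sum fun i _ => ?_))
    refine (AllN_main hs (fun _ => True) i q X).trans ?_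
    rw [filter_true]
    simp
  refine h2.trans ?_
  calc ∑ i ∈ range (X + 1), ((2 * X / (2 ^ i * 4 ^ q) : ℕ) : ℝ)
      ≤ ∑ i ∈ range (X + 1), 2 * X / 4 ^ q * (1 / 2 ^ i : ℝ) := by
        refine sum_le_sum fun i _ => ?_
        refine Nat.cast_div_le.trans (le_of_eq ?_)
        push_cast
        field_simp
    _ = 2 * X / 4 ^ q * ∑ i ∈ range (X + 1), (1 / 2 ^ i : ℝ) := by rw [mul_sum]
    _ ≤ 2 * X / 4 ^ q * 2 := by
        refine mul_le_mul_of_nonneg_left (AllN_geo2 _) (by positivity)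
    _ = 4 * X / 4 ^ q := by ring

open Classical in
/-- The integers with many factors `2`. -/
theorem AllN_two (q X : ℕ) :
    (((Icc 1 X).filter (fun n => 2 ^ q ∣ n)).card : ℝ) ≤ X / 2 ^ q := by
  have h1 : ((Icc 1 X).filter (fun n => 2 ^ q ∣ n)).card ≤ X / 2 ^ q := by
    have h2 : (Icc 1 X).filter (fun n => 2 ^ q ∣ n) ⊆ (Icc 1 (X / 2 ^ q)).image (fun b => 2 ^ q * b) := by
      intro n hn
      rw [mem_filter, mem_Icc] at hn
      obtain ⟨⟨h1, h2⟩, b, hb⟩ := hn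
      rw [mem_image]
      refine ⟨b, ?_, hb.symm⟩
      rw [mem_Icc]
      constructor
      · rcases Nat.eq_zero_or_pos b with h | h
        · subst h
          omega
        · exact h
      · rw [Nat.le_div_iff_mul_le (by positivity), mul_comm]
        omega
    refine (card_le_card h2).trans (card_image_le.trans ?_)
    simp
  calc (((Icc 1 X).filter (fun n => 2 ^ q ∣ n)).card : ℝ) ≤ ((X / 2 ^ q : ℕ) : ℝ) := by exact_mod_cast h1
    _ ≤ X / 2 ^ q := by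
      refine Nat.cast_div_le.trans (le_of_eq ?_)
      push_cast
      rfl

open Classical in
theorem allN {s : ℤ} (hs : s = 1 ∨ s = -1) {e δ : ℝ} (he : 0 < e) (he1 : e ≤ 1 / 100) (hδ : 0 < δ)
    (Z1 : ℤ) : ∃ (Z : ℤ) (J X0 : ℕ), Z1 ≤ Z ∧ ∀ X : ℕ, X0 ≤ X →
      (((Icc 1 X).filter (fun n => ¬ Rep s J e Z n)).card : ℝ) ≤ δ * X := by
  obtain ⟨Z, C, hZ, hC, hB⟩ := bad_upto hs he he1 (δ := δ / 16) (by positivity) Z1
  obtain ⟨K, hK⟩ := exists_pow_lt_of_lt_one (x := δ / 8) (y := (1 / 2 : ℝ)) (by positivity) (by norm_num)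
  have hK' : (1 : ℝ) / 2 ^ K < δ / 8 := by rwa [one_div_pow] at hK
  obtain ⟨X0, hX0⟩ := exists_nat_ge ((K + 1) ^ 2 * C * (4 / δ))
  refine ⟨Z, 2 * K, X0, hZ, fun X hX => ?_⟩
  have hsub : (Icc 1 X).filter (fun n => ¬ Rep s (2 * K) e Z n) ⊆
      ((Icc 1 X).filter (fun n => 2 ^ (K + 1) ∣ n) ∪
        (Icc 1 X).filter
          (fun n => ∃ i m b : ℕ, n = 2 ^ i * m ∧ Odd m ∧ 3 * (m : ℤ) + s = 2 * 4 ^ (K + 1) * b)) ∪
      (range (K + 1)).biUnion fun i => (range (K + 1)).biUnion fun j => (Icc 1 X).filter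
        (fun n => ∃ m b : ℕ, n = 2 ^ i * m ∧ Odd m ∧ 3 * (m : ℤ) + s = 2 * 4 ^ j * b ∧
          ((3 : ℤ) ∣ s * b - 2 ∧ ¬ 4 ∣ b ∧ ¬ Rch s e Z b)) := by
    intro n hn
    rw [mem_filter, mem_Icc] at hn
    obtain ⟨⟨h1, h2⟩, h3⟩ := hn
    obtain ⟨i, j, m, b, h4, h5, h6, h7, h8⟩ := dec hs n h1
    rw [mem_union, mem_union]
    by_cases hi : K < i
    · left; left
      rw [mem_filter, mem_Icc]
      refine ⟨⟨h1, h2⟩, ?_⟩
      rw [h4]
      exact Dvd.dvd.mul_right (pow_dvd_pow 2 hi) m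
    · by_cases hj : K < j
      · left; right
        rw [mem_filter, mem_Icc]
        refine ⟨⟨h1, h2⟩, i, m, 4 ^ (j - (K + 1)) * b, h4, h5, ?_⟩
        rw [h6]
        have h9 : (4 : ℤ) ^ j = 4 ^ (K + 1) * 4 ^ (j - (K + 1)) := by
          rw [← pow_add]
          congr 1
          omega
        rw [h9]
        push_cast
        ring
      · right
        rw [mem_biUnion]
        refine ⟨i, by rw [mem_range]; omega, ?_⟩
        rw [mem_biUnion]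
        refine ⟨j, by rw [mem_range]; omega, ?_⟩
        rw [mem_filter, mem_Icc]
        refine ⟨⟨h1, h2⟩, m, b, h4, h5, h6, h7, h8, fun h9 => h3 ?_⟩
        exact ⟨i, j, m, b, by omega, h4, h5, h6, h9⟩
  have hcard : (((Icc 1 X).filter (fun n => ¬ Rep s (2 * K) e Z n)).card : ℝ) ≤
      (X / 2 ^ (K + 1) + 4 * X / 4 ^ (K + 1)) +
      ∑ i ∈ range (K + 1), ∑ j ∈ range (K + 1), (δ / 16 * (2 * X / (2 ^ i * 4 ^ j)) + C) := by
    have h1 : (((Icc 1 X).filter (fun n => ¬ Rep s (2 * K) e Z n)).card : ℝ) ≤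
        (((Icc 1 X).filter (fun n => 2 ^ (K + 1) ∣ n)).card : ℝ) +
        (((Icc 1 X).filter
          (fun n => ∃ i m b : ℕ, n = 2 ^ i * m ∧ Odd m ∧ 3 * (m : ℤ) + s = 2 * 4 ^ (K + 1) * b)).card : ℝ) +
        ∑ i ∈ range (K + 1), ∑ j ∈ range (K + 1), (((Icc 1 X).filter
          (fun n => ∃ m b : ℕ, n = 2 ^ i * m ∧ Odd m ∧ 3 * (m : ℤ) + s = 2 * 4 ^ j * b ∧
            ((3 : ℤ) ∣ s * b - 2 ∧ ¬ 4 ∣ b ∧ ¬ Rch s e Z b))).card : ℝ) := by
      exact_mod_cast (card_le_card hsub).trans ((card_union_le _ _).trans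
        (add_le_add (card_union_le _ _) (card_biUnion_le.trans
          (sum_le_sum fun i _ => card_biUnion_le))))
    refine h1.trans (add_le_add (add_le_add (AllN_two _ _) (AllN_tail hs _ _)) ?_)
    refine sum_le_sum fun i _ => sum_le_sum fun j _ => ?_
    have h2 := AllN_main hs (fun b : ℕ => (3 : ℤ) ∣ s * b - 2 ∧ ¬ 4 ∣ b ∧ ¬ Rch s e Z b) i j X
    have h3 := hB (2 * X / (2 ^ i * 4 ^ j))
    have h4 : (((2 * X / (2 ^ i * 4 ^ j) : ℕ)) : ℝ) ≤ 2 * X / (2 ^ i * 4 ^ j) := by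
      refine Nat.cast_div_le.trans (le_of_eq ?_)
      push_cast
      rfl
    have h5 : δ / 16 * ((2 * X / (2 ^ i * 4 ^ j) : ℕ) : ℝ) + C ≤
        δ / 16 * (2 * X / (2 ^ i * 4 ^ j)) + C := by
      have : 0 ≤ δ / 16 := by positivity
      nlinarith
    refine ((Nat.cast_le (α := ℝ)).2 h2).trans (le_trans (le_of_eq ?_) (h3.trans h5))
    congr!
  have hsum : ∑ i ∈ range (K + 1), ∑ j ∈ range (K + 1), (δ / 16 * (2 * X / (2 ^ i * 4 ^ j)) + C) ≤
      δ / 3 * X + (K + 1) ^ 2 * C := by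
    have h1 : ∑ i ∈ range (K + 1), ∑ j ∈ range (K + 1), (δ / 16 * (2 * X / (2 ^ i * 4 ^ j)) + C) =
        δ / 8 * X * ((∑ i ∈ range (K + 1), (1 / 2 ^ i : ℝ)) * (∑ j ∈ range (K + 1), (1 / 4 ^ j : ℝ))) +
          (K + 1) ^ 2 * C := by
      rw [sum_mul_sum, mul_sum]
      have h2 : ((K : ℝ) + 1) ^ 2 * C = ∑ i ∈ range (K + 1), ∑ j ∈ range (K + 1), C := by
        simp
        ring
      rw [h2, ← sum_add_distrib]
      refine sum_congr rfl fun i _ => ?_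
      rw [mul_sum, ← sum_add_distrib]
      refine sum_congr rfl fun j _ => ?_
      field_simp
      ring
    rw [h1]
    have h3 : (∑ i ∈ range (K + 1), (1 / 2 ^ i : ℝ)) * (∑ j ∈ range (K + 1), (1 / 4 ^ j : ℝ)) ≤
        2 * (4 / 3) :=
      mul_le_mul (AllN_geo2 _) (AllN_geo4 _) (sum_nonneg fun _ _ => by positivity) (by norm_num)
    have h4 : δ / 8 * X * ((∑ i ∈ range (K + 1), (1 / 2 ^ i : ℝ)) *
        (∑ j ∈ range (K + 1), (1 / 4 ^ j : ℝ))) ≤ δ / 8 * X * (2 * (4 / 3)) :=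
      mul_le_mul_of_nonneg_left h3 (by positivity)
    linarith
  have hX' : (K + 1) ^ 2 * C ≤ δ / 4 * X := by
    have h1 : ((K : ℝ) + 1) ^ 2 * C * (4 / δ) ≤ X := hX0.trans (by exact_mod_cast hX)
    have h2 : ((K : ℝ) + 1) ^ 2 * C = (((K : ℝ) + 1) ^ 2 * C * (4 / δ)) * (δ / 4) := by
      field_simp
    rw [h2]
    have h3 := mul_le_mul_of_nonneg_right h1 (show 0 ≤ δ / 4 by positivity)
    linarith
  have hXr : (0 : ℝ) ≤ X := Nat.cast_nonneg X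
  have ht1 : (X : ℝ) / 2 ^ (K + 1) ≤ δ / 16 * X := by
    have h1 : (X : ℝ) / 2 ^ (K + 1) = X * (1 / 2 ^ K) / 2 := by
      rw [pow_succ]
      field_simp
    rw [h1]
    nlinarith
  have ht2 : 4 * (X : ℝ) / 4 ^ (K + 1) ≤ δ / 8 * X := by
    have h1 : 4 * (X : ℝ) / 4 ^ (K + 1) = X * (1 / 4 ^ K) := by
      rw [pow_succ]
      field_simp
    have h2 : (1 : ℝ) / 4 ^ K ≤ 1 / 2 ^ K := by
      apply one_div_le_one_div_of_le (by positivity)
      exact pow_le_pow_left₀ (by norm_num) (by norm_num) K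
    rw [h1]
    nlinarith
  linarith

end Pool.Agent.helper4.BAS
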