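import Pool.Agent.helper4.BAS.Mass
import Pool.Agent.helper24.T2.MassT2

/-!
# BAS-Mass2: the mass of the first passage words (unconditional)
-/

namespace Pool.Agent.helper4.BAS

open Finset Pool.Agent.helper14.EX1

theorem mass_s {s : ℤ} (hs : s = 1 ∨ s = -1)
    {e d : ℝ} (he : 0 < e) (he1 : e ≤ 1 / 100) (hd : 0 < d) (Z1 : ℤ) :
    ∃ (Z : ℤ) (X0 : ℕ), Z1 ≤ Z ∧ ∀ X : ℕ, X0 ≤ X → ∃ P : Finset (ℤ × List ℕ),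
      (∀ p ∈ P, FP s Z p.1 p.2 ∧ Typ e p.2 ∧ (X : ℝ) ≤ (nv s (nd p.1 p.2) : ℝ) ∧
        (nv s (nd p.1 p.2) : ℝ) < 2 * X * (1 + d)) ∧
      (Real.log 2 - d) / 4 ≤ ∑ p ∈ P, 1 / (nv s (nd p.1 p.2) : ℝ) :=
  mass_of hs Pool.Agent.helper24.T2.MassT2_vis Pool.Agent.helper24.T2.MassT2_evb he he1 hd Z1

end Pool.Agent.helper4.BAS
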