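import Pool.Agent.helper4.BAS.CntM
import Pool.Agent.helper4.BAS.Mass2

/-!
# BAS-BadO: almost all nodes are ends of typical first passage words

Copy of helper62's `T2/BadO.lean` (store `T2a_BadO.lean` when it is there): `mass_s` with `d = δ/4`, `count_mass`: at most `X δ/4 + 12`
bad `b` in `[X, 2X)` for `X ≥ X0`; strong induction on `Y`: `Icc 1 Y ⊆ Icc 1 (Y/2) ∪ Ico (Y/2+1) (2 (Y/2+1))` for `Y ≥ 2 X0` (and `Y` so large that
`δ Y / 8 ≥ 13`); below, `C = ` the length.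
-/

namespace Pool.Agent.helper4.BAS

open Finset Pool.Agent.helper14.EX1

/-- Dyadic induction. -/
theorem BadO_dyadic (B : ℕ → Prop) [DecidablePred B] {δ : ℝ} (hδ : 0 < δ) (X0 : ℕ)
    (h : ∀ X : ℕ, X0 ≤ X → (((Ico X (2 * X)).filter B).card : ℝ) ≤ X * (δ / 4) + 12) :
    ∃ C : ℝ, 0 ≤ C ∧ ∀ Y : ℕ, (((Icc 1 Y).filter B).card : ℝ) ≤ δ * Y + C := by
  obtain ⟨N, hN⟩ := exists_nat_ge (13 * 8 / δ + δ)
  refine ⟨((2 * X0 + N + 2 : ℕ) : ℝ), by positivity, ?_⟩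
  intro Y
  induction Y using Nat.strong_induction_on with
  | _ Y ih =>
    by_cases hY : Y < 2 * X0 + N + 2
    · have h1 : (((Icc 1 Y).filter B).card : ℝ) ≤ Y := by
        have := card_filter_le (Icc 1 Y) B
        rw [Nat.card_Icc] at this
        have h2 : ((Icc 1 Y).filter B).card ≤ Y := by omega
        exact_mod_cast h2
      have h2 : (Y : ℝ) ≤ ((2 * X0 + N + 2 : ℕ) : ℝ) := by exact_mod_cast hY.le
      have h3 : 0 ≤ δ * Y := by positivity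
      linarith
    · have hYb : 2 * X0 + N + 2 ≤ Y := not_lt.1 hY
      have h1 := ih (Y / 2) (by omega)
      have h2 := h (Y / 2 + 1) (by omega)
      have hsub : (Icc 1 Y).filter B ⊆ (Icc 1 (Y / 2)).filter B ∪
          (Ico (Y / 2 + 1) (2 * (Y / 2 + 1))).filter B := by
        intro b hb
        rw [mem_filter, mem_Icc] at hb
        rw [mem_union, mem_filter, mem_filter, mem_Icc, mem_Ico]
        by_cases hb2 : b ≤ Y / 2
        · left
          exact ⟨⟨hb.1.1, hb2⟩, hb.2⟩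
        · right
          exact ⟨⟨by omega, by omega⟩, hb.2⟩
      have h3 : (((Icc 1 Y).filter B).card : ℝ) ≤ (((Icc 1 (Y / 2)).filter B).card : ℝ) +
          (((Ico (Y / 2 + 1) (2 * (Y / 2 + 1))).filter B).card : ℝ) := by
        exact_mod_cast (card_le_card hsub).trans (card_union_le _ _)
      have h4 : ((Y / 2 : ℕ) : ℝ) ≤ Y / 2 := Nat.cast_div_le
      have h5 : (Y : ℝ) ≥ 13 * 8 / δ + δ := by
        have : (N : ℝ) ≤ Y := by exact_mod_cast (by omega : N ≤ Y)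
        linarith
      have h6 : 13 * 8 ≤ δ * Y - δ * δ := by
        have h7 : 13 * 8 / δ ≤ Y - δ := by linarith
        rw [div_le_iff₀ hδ] at h7
        linarith
      push_cast at h2 h1 ⊢
      have h8 : δ * ((Y / 2 : ℕ) : ℝ) ≤ δ * (Y / 2) := mul_le_mul_of_nonneg_left h4 hδ.le
      have h9 : (((Y / 2 : ℕ) : ℝ) + 1) * (δ / 4) ≤ (Y / 2 + 1) * (δ / 4) :=
        mul_le_mul_of_nonneg_right (by linarith) (by positivity)
      nlinarith [sq_nonneg (δ - 1)]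

open Classical in
theorem bad_upto {s : ℤ} (hs : s = 1 ∨ s = -1) {e δ : ℝ} (he : 0 < e) (he1 : e ≤ 1 / 100) (hδ : 0 < δ)
    (Z1 : ℤ) : ∃ (Z : ℤ) (C : ℝ), Z1 ≤ Z ∧ 0 ≤ C ∧ ∀ Y : ℕ,
      (((Icc 1 Y).filter (fun b : ℕ => (3 : ℤ) ∣ s * b - 2 ∧ ¬ 4 ∣ b ∧ ¬ Rch s e Z b)).card : ℝ) ≤
        δ * Y + C := by
  obtain ⟨Z, X0, hZ, hX⟩ := mass_s hs he he1 (by positivity : 0 < δ / 4) Z1
  obtain ⟨C, hC, h⟩ := BadO_dyadic
    (fun b : ℕ => (3 : ℤ) ∣ s * b - 2 ∧ ¬ 4 ∣ b ∧ ¬ Rch s e Z b) hδ (X0 + 1) (by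
      intro X hX1
      obtain ⟨P, hP, hm⟩ := hX X (by omega)
      have := count_mass hs (by positivity) (by omega) hP hm
      convert this)
  refine ⟨Z, C, hZ, hC, fun Y => ?_⟩
  convert h Y

end Pool.Agent.helper4.BAS
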