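import Mathlib

/-!
# BAS-OSm: the sum of `1 / b` over the `b ≡ c` modulo `3`, `4 ∤ b`

Copy of helper62's `T2/OSum.lean` (store `T2a_OSum.lean`, `c = 2`): now also `c = 1` (classes `1, 7, 10` modulo `12`).
-/

namespace Pool.Agent.helper4.BAS

theorem OSm_step {b : ℝ} (hb : 12 < b) : 1 / b ≤ (Real.log b - Real.log (b - 12)) / 12 := by
  have h1 : 0 < b := by linarith
  have h2 : 0 < b - 12 := by linarith
  have h3 := Real.log_le_sub_one_of_pos (div_pos h2 h1)
  rw [Real.log_div h2.ne' h1.ne'] at h3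
  have h4 : (b - 12) / b - 1 = - (12 * (1 / b)) := by
    field_simp
    ring
  rw [h4] at h3
  linarith

theorem OSm_class {X : ℕ} (hX : 1 ≤ X) (c : ℕ) (b0 : ℕ) : X ≤ b0 → b0 % 12 = c →
    ∑ b ∈ (Finset.Ico X (b0 + 1)).filter (fun b => b % 12 = c), (1 / (b : ℝ)) ≤
      1 / X + Real.log (b0 / X) / 12 := by
  have hX0 : (0 : ℝ) < X := by exact_mod_cast hX
  induction b0 using Nat.strong_induction_on with
  | _ b0 ih =>
    intro h1 h2
    have hb : (X : ℝ) ≤ b0 := by exact_mod_cast h1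
    have hb0 : (0 : ℝ) < b0 := lt_of_lt_of_le hX0 hb
    by_cases h3 : X + 12 ≤ b0
    · have e1 : (Finset.Ico X (b0 + 1)).filter (fun b => b % 12 = c) =
          insert b0 ((Finset.Ico X (b0 - 12 + 1)).filter (fun b => b % 12 = c)) := by
        ext b
        simp only [Finset.mem_filter, Finset.mem_Ico, Finset.mem_insert]
        omega
      have e2 : b0 ∉ (Finset.Ico X (b0 - 12 + 1)).filter (fun b => b % 12 = c) := by
        simp only [Finset.mem_filter, Finset.mem_Ico]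
        omega
      rw [e1, Finset.sum_insert e2]
      have h4 := ih (b0 - 12) (by omega) (by omega) (by omega)
      have h5 : ((b0 - 12 : ℕ) : ℝ) = (b0 : ℝ) - 12 := by
        rw [Nat.cast_sub (by omega)]
        norm_num
      rw [h5] at h4
      have h6 : (X : ℝ) + 12 ≤ b0 := by exact_mod_cast h3
      have h7 := OSm_step (b := (b0 : ℝ)) (by linarith)
      rw [Real.log_div (by linarith) hX0.ne'] at h4
      rw [Real.log_div hb0.ne' hX0.ne']
      linarith
    · have e1 : (Finset.Ico X (b0 + 1)).filter (fun b => b % 12 = c) = {b0} := by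
        ext b
        simp only [Finset.mem_filter, Finset.mem_Ico, Finset.mem_singleton]
        omega
      rw [e1, Finset.sum_singleton]
      have h4 : (1 : ℝ) / b0 ≤ 1 / X := one_div_le_one_div_of_le hX0 hb
      have h5 : 0 ≤ Real.log (b0 / X) := Real.log_nonneg (by rw [le_div_iff₀ hX0]; linarith)
      linarith

theorem OSm_cl {X : ℕ} (hX : 1 ≤ X) {Y : ℝ} (hY : (X : ℝ) ≤ Y) (c : ℕ) :
    ∑ b ∈ (Finset.Ico X ⌈Y⌉₊).filter (fun b => b % 12 = c), (1 / (b : ℝ)) ≤
      1 / X + Real.log (Y / X) / 12 := by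
  have hX0 : (0 : ℝ) < X := by exact_mod_cast hX
  rcases ((Finset.Ico X ⌈Y⌉₊).filter (fun b => b % 12 = c)).eq_empty_or_nonempty with he | hne
  · rw [he, Finset.sum_empty]
    have h5 : 0 ≤ Real.log (Y / X) := Real.log_nonneg (by rw [le_div_iff₀ hX0]; linarith)
    positivity
  · obtain ⟨b0, hb0, hmax⟩ := Finset.exists_max_image _ (fun b => b) hne
    have h1 := Finset.mem_filter.1 hb0
    have h2 := Finset.mem_Ico.1 h1.1
    have e1 : (Finset.Ico X ⌈Y⌉₊).filter (fun b => b % 12 = c) =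
        (Finset.Ico X (b0 + 1)).filter (fun b => b % 12 = c) := by
      ext b
      constructor
      · intro hb
        have h3 := hmax b hb
        have h4 := Finset.mem_filter.1 hb
        have h5 := Finset.mem_Ico.1 h4.1
        exact Finset.mem_filter.2 ⟨Finset.mem_Ico.2 ⟨h5.1, Nat.lt_succ_of_le h3⟩, h4.2⟩
      · intro hb
        have h4 := Finset.mem_filter.1 hb
        have h5 := Finset.mem_Ico.1 h4.1
        exact Finset.mem_filter.2 ⟨Finset.mem_Ico.2 ⟨h5.1, by omega⟩, h4.2⟩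
    rw [e1]
    refine (OSm_class hX c b0 h2.1 h1.2).trans ?_
    have hb : (X : ℝ) ≤ b0 := by exact_mod_cast h2.1
    have hbY : (b0 : ℝ) < Y := Nat.lt_ceil.1 h2.2
    have h6 : Real.log (b0 / X) ≤ Real.log (Y / X) := by
      apply Real.log_le_log (div_pos (by linarith) hX0)
      gcongr
    linarith

theorem OSm_three {X : ℕ} (hX : 1 ≤ X) {Y : ℝ} (hY : (X : ℝ) ≤ Y) (p : ℕ → Prop) [DecidablePred p]
    (c1 c2 c3 : ℕ) (hp : ∀ b, p b → b % 12 = c1 ∨ b % 12 = c2 ∨ b % 12 = c3) :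
    ∑ b ∈ (Finset.Ico X ⌈Y⌉₊).filter p, (1 / (b : ℝ)) ≤ Real.log (Y / X) / 4 + 6 / X := by
  have hX0 : (0 : ℝ) < X := by exact_mod_cast hX
  have h1 : ∑ b ∈ (Finset.Ico X ⌈Y⌉₊).filter p, (1 / (b : ℝ)) ≤
      ∑ b ∈ (Finset.Ico X ⌈Y⌉₊).filter (fun b => b % 12 = c1), (1 / (b : ℝ)) +
      ∑ b ∈ (Finset.Ico X ⌈Y⌉₊).filter (fun b => b % 12 = c2), (1 / (b : ℝ)) +
      ∑ b ∈ (Finset.Ico X ⌈Y⌉₊).filter (fun b => b % 12 = c3), (1 / (b : ℝ)) := by
    rw [Finset.sum_filter, Finset.sum_filter, Finset.sum_filter, Finset.sum_filter,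
      ← Finset.sum_add_distrib, ← Finset.sum_add_distrib]
    refine Finset.sum_le_sum fun b _ => ?_
    have hb : (0 : ℝ) ≤ 1 / (b : ℝ) := by positivity
    by_cases h : p b
    · rw [if_pos h]
      rcases hp b h with h' | h' | h'
      · rw [if_pos h']
        split_ifs <;> linarith
      · rw [if_pos h']
        split_ifs <;> linarith
      · rw [if_pos h']
        split_ifs <;> linarith
    · rw [if_neg h]
      split_ifs <;> linarith
  have h2 := OSm_cl hX hY c1
  have h3 := OSm_cl hX hY c2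
  have h4 := OSm_cl hX hY c3
  have h5 : (6 : ℝ) / X = 6 * (1 / X) := by ring
  have h6 : (0 : ℝ) < 1 / X := by positivity
  rw [h5]
  linarith

theorem osum {c : ℕ} (hc : c = 1 ∨ c = 2) {X : ℕ} (hX : 1 ≤ X) {Y : ℝ} (hY : (X : ℝ) ≤ Y) :
    ∑ b ∈ (Finset.Ico X ⌈Y⌉₊).filter (fun b => b % 3 = c ∧ ¬ 4 ∣ b), (1 / (b : ℝ)) ≤
      Real.log (Y / X) / 4 + 6 / X := by
  rcases hc with rfl | rfl
  · exact OSm_three hX hY _ 1 7 10 (fun b hb => by omega)
  · exact OSm_three hX hY _ 2 5 11 (fun b hb => by omega)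

end Pool.Agent.helper4.BAS
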