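import Pool.Agent.helper4.BAS.Uni
import Pool.Agent.helper4.BAS.OSm

/-!
# BAS-CntM: mass gives count

Copy of helper62's `T2/CntM.lean` (store `T2a_CntM.lean`) with `nv s`.  `p ↦ (nv s (nd p.1 p.2)).toNat` is injective on `P` (`fp_uniq`,
`s * s = 1`), its values `b` satisfy `3 ∣ s * b - 2`, i.e. `b % 3 = 2` for `s = 1` and `b % 3 = 1` for `s = -1`, `¬ 4 ∣ b` (`InjZ_end`).
-/

namespace Pool.Agent.helper4.BAS

open Finset Pool.Agent.helper14.EX1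

theorem CntM_cast {s : ℤ} {X : ℕ} {z : ℤ} (h : (X : ℝ) ≤ (nv s z : ℝ)) :
    (((nv s z).toNat : ℕ) : ℤ) = nv s z := by
  have h1 : (X : ℤ) ≤ nv s z := by exact_mod_cast h
  omega

theorem CntM_castR {s : ℤ} {X : ℕ} {z : ℤ} (h : (X : ℝ) ≤ (nv s z : ℝ)) :
    (((nv s z).toNat : ℕ) : ℝ) = (nv s z : ℝ) := by
  have h1 := CntM_cast h
  exact_mod_cast h1

theorem CntM_cls {s : ℤ} (hs : s = 1 ∨ s = -1) :
    ∃ c : ℕ, (c = 1 ∨ c = 2) ∧ ∀ b : ℕ, (3 : ℤ) ∣ s * b - 2 ↔ b % 3 = c := by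
  rcases hs with rfl | rfl
  · exact ⟨2, Or.inr rfl, fun b => by omega⟩
  · exact ⟨1, Or.inl rfl, fun b => by omega⟩

theorem CntM_nv {s : ℤ} (hs : s = 1 ∨ s = -1) {z : ℤ} {b : ℕ} (h : (b : ℤ) = nv s z)
    (h4 : ¬ (4 : ℤ) ∣ 3 * z + 2) : (3 : ℤ) ∣ s * b - 2 ∧ ¬ 4 ∣ b := by
  unfold nv at h
  rcases hs with rfl | rfl
  · constructor <;> omega
  · constructor <;> omega

theorem CntM_inj {s : ℤ} (hs : s = 1 ∨ s = -1) {z z' : ℤ} (h : nv s z = nv s z') : z = z' := by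
  unfold nv at h
  rcases hs with rfl | rfl <;> omega

open Classical in
theorem count_mass {s : ℤ} (hs : s = 1 ∨ s = -1) {e η : ℝ} (hη : 0 < η) {Z : ℤ} {X : ℕ} (hX : 1 ≤ X)
    {P : Finset (ℤ × List ℕ)}
    (hP : ∀ p ∈ P, FP s Z p.1 p.2 ∧ Typ e p.2 ∧ (X : ℝ) ≤ (nv s (nd p.1 p.2) : ℝ) ∧
      (nv s (nd p.1 p.2) : ℝ) < 2 * X * (1 + η))
    (hm : (Real.log 2 - η) / 4 ≤ ∑ p ∈ P, 1 / (nv s (nd p.1 p.2) : ℝ)) :
    (((Ico X (2 * X)).filter (fun b : ℕ => (3 : ℤ) ∣ s * b - 2 ∧ ¬ 4 ∣ b ∧ ¬ Rch s e Z b)).card : ℝ) ≤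
      X * η + 12 := by
  obtain ⟨c, hc, hsc⟩ := CntM_cls hs
  have hX0 : (0 : ℝ) < X := by exact_mod_cast hX
  have hXη : 0 < (X : ℝ) * η := mul_pos hX0 hη
  obtain ⟨Y, hYd⟩ : ∃ Y : ℝ, Y = 2 * X * (1 + η) := ⟨_, rfl⟩
  have hY : (X : ℝ) ≤ Y := by rw [hYd]; nlinarith
  obtain ⟨B, hB⟩ : ∃ B : Finset ℕ, B = (Ico X (2 * X)).filter
      (fun b : ℕ => (3 : ℤ) ∣ s * b - 2 ∧ ¬ 4 ∣ b ∧ ¬ Rch s e Z b) := ⟨_, rfl⟩
  obtain ⟨R, hR⟩ : ∃ R : Finset ℕ, R = P.image (fun p => (nv s (nd p.1 p.2)).toNat) := ⟨_, rfl⟩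
  have hRsub : ∀ b ∈ R, b ∈ (Finset.Ico X ⌈Y⌉₊).filter (fun b => b % 3 = c ∧ ¬ 4 ∣ b) ∧ Rch s e Z b := by
    intro b hb
    rw [hR] at hb
    obtain ⟨p, hp, rfl⟩ := Finset.mem_image.1 hb
    obtain ⟨h1, h2, h3, h4⟩ := hP p hp
    have h5 := CntM_cast h3
    have h6 := CntM_castR h3
    have h7 : ¬ (4 : ℤ) ∣ 3 * nd p.1 p.2 + 2 := InjZ_end h1.2.2.2.1 h1.2.2.2.2.1 h1.2.2.2.2.2.1
    obtain ⟨h8, h9⟩ := CntM_nv hs h5 h7
    refine ⟨Finset.mem_filter.2 ⟨Finset.mem_Ico.2 ⟨?_, ?_⟩, (hsc _).1 h8, h9⟩, ⟨p.1, p.2, h1, h2, h5.symm⟩⟩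
    · have : (X : ℝ) ≤ ((nv s (nd p.1 p.2)).toNat : ℕ) := by rw [h6]; exact h3
      exact_mod_cast this
    · rw [Nat.lt_ceil, h6, hYd]
      exact h4
  have hBsub : ∀ b ∈ B, b ∈ (Finset.Ico X ⌈Y⌉₊).filter (fun b => b % 3 = c ∧ ¬ 4 ∣ b) := by
    intro b hb
    rw [hB] at hb
    obtain ⟨h1, h2, h3, h4⟩ := Finset.mem_filter.1 hb
    obtain ⟨h5, h6⟩ := Finset.mem_Ico.1 h1
    refine Finset.mem_filter.2 ⟨Finset.mem_Ico.2 ⟨h5, ?_⟩, (hsc b).1 h2, h3⟩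
    rw [Nat.lt_ceil, hYd]
    have h7 : (b : ℝ) < 2 * X := by exact_mod_cast h6
    nlinarith
  have hdisj : Disjoint B R := by
    rw [Finset.disjoint_left]
    intro b hb hb'
    rw [hB] at hb
    exact (Finset.mem_filter.1 hb).2.2.2 (hRsub b hb').2
  have hsum : ∑ b ∈ B, (1 / (b : ℝ)) + ∑ b ∈ R, (1 / (b : ℝ)) ≤ Real.log (Y / X) / 4 + 6 / X := by
    rw [← Finset.sum_union hdisj]
    refine le_trans (Finset.sum_le_sum_of_subset_of_nonneg ?_ fun b _ _ => by positivity) (osum hc hX hY)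
    intro b hb
    rcases Finset.mem_union.1 hb with h | h
    · exact hBsub b h
    · exact (hRsub b h).1
  have hRs : ∑ b ∈ R, (1 / (b : ℝ)) = ∑ p ∈ P, 1 / (nv s (nd p.1 p.2) : ℝ) := by
    rw [hR, Finset.sum_image]
    · refine Finset.sum_congr rfl fun p hp => ?_
      rw [CntM_castR (hP p hp).2.2.1]
    · intro p hp q hq hpq
      obtain ⟨h1, -, h3, -⟩ := hP p hp
      obtain ⟨g1, -, g3, -⟩ := hP q hq
      have e1 := CntM_cast h3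
      have e2 := CntM_cast g3
      dsimp only at hpq
      rw [hpq, e2] at e1
      have e3 : nd p.1 p.2 = nd q.1 q.2 := CntM_inj hs e1.symm
      obtain ⟨f1, f2⟩ := fp_uniq h1 g1 e3
      exact Prod.ext f1 f2
  rw [hRs] at hsum
  have hlog : Real.log (Y / X) ≤ Real.log 2 + η := by
    have e1 : Y / X = 2 * (1 + η) := by
      rw [hYd]
      field_simp
    rw [e1, Real.log_mul (by norm_num) (by positivity)]
    have := Real.log_le_sub_one_of_pos (x := 1 + η) (by positivity)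
    linarith
  have hBs : (B.card : ℝ) * (1 / (2 * X)) ≤ ∑ b ∈ B, (1 / (b : ℝ)) := by
    rw [← nsmul_eq_mul]
    refine Finset.card_nsmul_le_sum _ _ _ fun b hb => ?_
    rw [hB] at hb
    obtain ⟨h5, h6⟩ := Finset.mem_Ico.1 (Finset.mem_filter.1 hb).1
    have h7 : (b : ℝ) ≤ 2 * X := by exact_mod_cast h6.le
    have h8 : (0 : ℝ) < b := by exact_mod_cast (lt_of_lt_of_le hX h5)
    exact one_div_le_one_div_of_le h8 h7
  rw [← hB]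
  have h9 : (B.card : ℝ) * (1 / (2 * X)) ≤ η / 2 + 6 / X := by linarith
  have h10 : (B.card : ℝ) = (B.card : ℝ) * (1 / (2 * X)) * (2 * X) := by
    field_simp
  rw [h10]
  calc (B.card : ℝ) * (1 / (2 * X)) * (2 * X) ≤ (η / 2 + 6 / X) * (2 * X) :=
        mul_le_mul_of_nonneg_right h9 (by positivity)
    _ = X * η + 12 := by
        field_simp
        ring

end Pool.Agent.helper4.BAS
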