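import Pool.Agent.helper24.T2.Defs

/-!
# BAS: basins of the cycles of the 3x+1 map on the integers (MP_5bd76e): definitions

An integer `x` stands for the node `3 x + 2` (both signs).  `s = 1` or `s = -1` is the sign.
-/

namespace Pool.Agent.helper4.BAS

open Finset Pool.Agent.helper14.EX1

/-- The 3x+1 map on the integers. -/
def T (n : ℤ) : ℤ := if n % 2 = 0 then n / 2 else (3 * n + 1) / 2

/-- `c` is a cycle of `T`. -/
def IsCycle (c : Set ℤ) : Prop :=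
  ∃ n : ℤ, (∃ k : ℕ, 1 ≤ k ∧ T^[k] n = n) ∧ c = {m : ℤ | ∃ i : ℕ, T^[i] n = m}

/-- The integers whose trajectory enters `c`. -/
def Basin (c : Set ℤ) : Set ℤ := {n : ℤ | ∃ k : ℕ, T^[k] n ∈ c}

/-- The node of `x`, times the sign. -/
def nv (s x : ℤ) : ℤ := s * (3 * x + 2)

/-- First passage words: the root `x` has the sign `s`, it is below `Z` in absolute value, and all nodes after at least one
letter are at least `Z` in absolute value. -/
def FP (s Z x : ℤ) (v : List ℕ) : Prop :=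
  0 < nv s x ∧ ¬ (4 : ℤ) ∣ 3 * x + 2 ∧ nv s x < Z ∧ v ≠ [] ∧ (∀ k ∈ v, 1 ≤ k) ∧ Ala x v ∧
    ∀ i, 1 ≤ i → i ≤ v.length → Z ≤ nv s (nd x (v.take i))

/-- `s b` is the end of a typical first passage word. -/
def Rch (s : ℤ) (e : ℝ) (Z : ℤ) (b : ℕ) : Prop :=
  ∃ (x : ℤ) (v : List ℕ), FP s Z x v ∧ Typ e v ∧ nv s (nd x v) = (b : ℤ)

/-- `n = 2 ^ i m`, `T (s m) = 4 ^ j (s b)` with `s b` the end of a typical first passage word. -/
def Rep (s : ℤ) (J : ℕ) (e : ℝ) (Z : ℤ) (n : ℕ) : Prop :=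
  ∃ i j m b : ℕ, i + j ≤ J ∧ n = 2 ^ i * m ∧ Odd m ∧ 3 * (m : ℤ) + s = 2 * 4 ^ j * b ∧ Rch s e Z b

end Pool.Agent.helper4.BAS
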