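import Pool.Agent.helper4.BAS.Uni
import Pool.Agent.helper4.BAS.Tit
import Pool.Agent.helper82.PD.PrimG
import Pool.Agent.helper82.PD.Rul
import Pool.Agent.helper49.PDR.Strip
import Pool.Agent.helper49.PDR.Sb

/-!
# BAS-FinB: every cycle different from `{0}` attracts a positive proportion of the integers of its sign

`bas_root` (a root `x` in the class `r` modulo `3 ^ n0` of `strip_mass`, not periodic, `4 ∤ 3 x + 2`): `strip_mass` with the rule of helper82's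
`exists_rule` (`e = 1/100`): for `X ≥ X0` a set `W` of words with mass `≥ 1/16` in the strip `[X, 2X)`; each weight is `≤ 1/X`, so
`card W ≥ X / 16`; their ends are distinct (`dst`); `|3 nd x w + 2| ≤ 2 X (3 |x| + 24 * 2 ^ i0) + 2 ≤ M X` by `nd_eq`, `gw_bound`; and `T^[w.sum]` of the end is
`3 x + 2` (`T_word`).
`attract`: let `c` be a cycle, `m ∈ c`, `m ≠ 0`.  `3 ∤ m` (`three_ndvd`: an element of a cycle is `T n` with `n` in the cycle; if `T n` is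
divisible by `3` then `n = 2 T n`, so all elements `n_j = 2 ^ j m` are in the cycle, which is finite).  So a node `3 z + 2 ∈ {m, 2 m}` leads to `m`.
`primG z n0 r N`: a letter `k ≥ N` from `z` to `x = Tk k z` in the class `r`; `|3 x + 2| ≥ (2 ^ k |3z+2| - 2) / 3` is larger than all elements of `c`, so
`3 x + 2 ∉ c`, and `T^[k] (3 x + 2) = 3 z + 2` leads to `c`: `3 x + 2` is not periodic (a periodic point whose orbit enters `c` is in `c`).
-/

namespace Pool.Agent.helper4.BAS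

open Finset Pool.Agent.helper14.EX1 Pool.Agent.helper49.PDR

/-- the strip, without the bounds for the lengths -/
theorem FinB_strip {C ρ : ℝ} (hC : 0 ≤ C) (hρ : 0 < ρ) (hρ1 : ρ < 1) (R : Rule C ρ) :
    ∃ i0 n0 : ℕ, ∃ r : ℤ, ∃ X0 : ℝ, 1 ≤ X0 ∧ ∀ x : ℤ, (3 : ℤ) ^ n0 ∣ x - r → ∀ X : ℝ, X0 ≤ X →
      ∃ W : Finset (List ℕ), (∀ w ∈ W, (∀ k ∈ w, 1 ≤ k) ∧ Ala x w ∧ Good R i0 w ∧
        strip X w.length w.sum) ∧ 1 / 16 ≤ ∑ w ∈ W, ww w := by
  first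
  | exact strip_mass hC hρ hρ1 R
  | (obtain ⟨i0, n0, -, r, X0, h1, h2⟩ := strip_mass hC hρ hρ1 R
     exact ⟨i0, n0, r, X0, h1, fun x hx X hX => by
       obtain ⟨W, hW, hm⟩ := h2 x hx X hX
       exact ⟨W, fun w hw => (hW w hw).2, hm⟩⟩)

/-- the size of the end of a word in the strip -/
theorem FinB_size {x : ℤ} {w : List ℕ} {i0 : ℕ} {Y : ℝ} (ha : Ala x w)
    (hg : |(Gw w : ℝ)| ≤ 8 * 2 ^ i0 * 2 ^ w.sum) (hY : 1 ≤ Y)
    (hs : (2 : ℝ) ^ w.sum < 2 * Y * 3 ^ w.length) :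
    |((3 * nd x w + 2 : ℤ) : ℝ)| ≤ Y * (6 * |(x : ℝ)| + 48 * 2 ^ i0 + 2) := by
  have h1 := nd_eq ha
  have h2 : (3 : ℝ) ^ w.length * (nd x w : ℝ) = 2 ^ w.sum * (x : ℝ) + (Gw w : ℝ) := by
    exact_mod_cast h1
  have h3 : (0 : ℝ) < 3 ^ w.length := by positivity
  have h4 : (0 : ℝ) < 2 ^ w.sum := by positivity
  have h5 : (3 : ℝ) ^ w.length * |(nd x w : ℝ)| ≤ 2 ^ w.sum * (|(x : ℝ)| + 8 * 2 ^ i0) := by
    have e1 : (3 : ℝ) ^ w.length * |(nd x w : ℝ)| = |(3 : ℝ) ^ w.length * (nd x w : ℝ)| := by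
      rw [abs_mul, abs_of_pos h3]
    rw [e1, h2]
    refine (abs_add_le _ _).trans ?_
    rw [abs_mul, abs_of_pos h4]
    linarith
  have h6 : 0 ≤ |(x : ℝ)| + 8 * 2 ^ i0 := by positivity
  have h7 : (3 : ℝ) ^ w.length * |(nd x w : ℝ)| ≤
      3 ^ w.length * (2 * Y * (|(x : ℝ)| + 8 * 2 ^ i0)) := by
    refine h5.trans ?_
    calc (2 : ℝ) ^ w.sum * (|(x : ℝ)| + 8 * 2 ^ i0) ≤
          (2 * Y * 3 ^ w.length) * (|(x : ℝ)| + 8 * 2 ^ i0) :=
        mul_le_mul_of_nonneg_right hs.le h6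
      _ = 3 ^ w.length * (2 * Y * (|(x : ℝ)| + 8 * 2 ^ i0)) := by ring
  have h8 : |(nd x w : ℝ)| ≤ 2 * Y * (|(x : ℝ)| + 8 * 2 ^ i0) := le_of_mul_le_mul_left h7 h3
  have h9 : |((3 * nd x w + 2 : ℤ) : ℝ)| ≤ 3 * |(nd x w : ℝ)| + 2 := by
    push_cast
    refine (abs_add_le _ _).trans ?_
    rw [abs_mul, abs_of_pos (by norm_num : (0 : ℝ) < 3), abs_of_pos (by norm_num : (0 : ℝ) < 2)]
  nlinarith

/-- the weight of a word in the strip -/
theorem FinB_ww {w : List ℕ} {Y : ℝ} (hY : 0 < Y) (hs : Y * 3 ^ w.length ≤ (2 : ℝ) ^ w.sum) :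
    ww w ≤ 1 / Y := by
  unfold ww
  rw [div_le_div_iff₀ (by positivity) hY]
  linarith

/-- The class and the constants do not depend on the root. -/
theorem bas_root : ∃ (n0 : ℕ) (r : ℤ), ∀ x : ℤ, (3 : ℤ) ^ n0 ∣ x - r → ¬ (4 : ℤ) ∣ 3 * x + 2 →
    (∀ u : List ℕ, u ≠ [] → (∀ k ∈ u, 1 ≤ k) → Ala x u → nd x u ≠ x) →
    ∃ (a : ℝ) (X0 : ℕ), 0 < a ∧ ∀ X : ℕ, X0 ≤ X → ∃ B : Finset ℤ, a * X ≤ B.card ∧
      ∀ n ∈ B, |n| ≤ X ∧ ∃ k : ℕ, T^[k] n = 3 * x + 2 := by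
  obtain ⟨C, ρ, hC, hρ, hρ1, R, -⟩ := Pool.Agent.helper82.PD.exists_rule (e := 1 / 100)
    (by norm_num) le_rfl
  obtain ⟨i0, n0, r, X1, hX1, H⟩ := FinB_strip hC hρ hρ1 R
  refine ⟨n0, r, fun x hx h4 hper => ?_⟩
  set M : ℝ := 6 * |(x : ℝ)| + 48 * 2 ^ i0 + 2 with hM
  have hM0 : 0 < M := by rw [hM]; positivity
  obtain ⟨X0, hX0⟩ := exists_nat_ge (X1 * M)
  refine ⟨1 / (16 * M), X0, by positivity, fun X hX => ?_⟩
  have hXX : X1 * M ≤ (X : ℝ) := hX0.trans (by exact_mod_cast hX)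
  set Y : ℝ := (X : ℝ) / M with hY
  have hYX : X1 ≤ Y := by
    rw [hY, le_div_iff₀ hM0]
    exact hXX
  have hY1 : 1 ≤ Y := hX1.trans hYX
  have hY0 : 0 < Y := by linarith
  have hYM : Y * M = X := by
    rw [hY]
    field_simp
  obtain ⟨W, hW, hsum⟩ := H x hx Y hYX
  have hinj : Set.InjOn (fun w => 3 * nd x w + 2) (W : Set (List ℕ)) := by
    intro v hv w hw h
    obtain ⟨v1, v2, -, -⟩ := hW v (Finset.mem_coe.1 hv)
    obtain ⟨w1, w2, -, -⟩ := hW w (Finset.mem_coe.1 hw)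
    have h' : 3 * nd x v + 2 = 3 * nd x w + 2 := h
    exact dst h4 hper v1 w1 v2 w2 (by linarith)
  refine ⟨W.image (fun w => 3 * nd x w + 2), ?_, ?_⟩
  · rw [Finset.card_image_of_injOn hinj]
    have h1 : ∑ w ∈ W, ww w ≤ ∑ _w ∈ W, 1 / Y :=
      sum_le_sum fun w hw => FinB_ww hY0 (hW w hw).2.2.2.1
    rw [sum_const, nsmul_eq_mul] at h1
    have h2 : 1 / 16 ≤ (W.card : ℝ) * (1 / Y) := hsum.trans h1
    have h3 : 1 / (16 * M) * (X : ℝ) = Y * (1 / 16) := by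
      rw [hY]
      field_simp
    rw [h3]
    calc Y * (1 / 16) ≤ Y * ((W.card : ℝ) * (1 / Y)) := mul_le_mul_of_nonneg_left h2 hY0.le
      _ = (W.card : ℝ) := by field_simp
  · intro n hn
    obtain ⟨w, hw, rfl⟩ := mem_image.1 hn
    obtain ⟨h1, h2, h3, h5⟩ := hW w hw
    refine ⟨?_, w.sum, T_word h1 h2⟩
    have h6 := FinB_size h2 (gw_bound R i0 h1 h3) hY1 h5.2
    rw [← hM, hYM] at h6
    exact_mod_cast h6

/-- a preimage of a multiple of `3` -/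
theorem FinB_pre {n m : ℤ} (h : T n = m) (h3 : (3 : ℤ) ∣ m) : n = 2 * m := by
  unfold T at h
  split_ifs at h with h1
  · omega
  · omega

theorem FinB_per {m : ℤ} {k : ℕ} (hk : 1 ≤ k) (h : T^[k] m = m) (h3 : (3 : ℤ) ∣ m) : m = 0 := by
  have key : ∀ i : ℕ, i ≤ k → T^[k - i] m = 2 ^ i * m := by
    intro i
    induction i with
    | zero =>
      intro _
      rw [Nat.sub_zero, h, pow_zero, one_mul]
    | succ i ih =>
      intro hi
      have h1 := ih (by omega)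
      have h2 : k - i = (k - (i + 1)) + 1 := by omega
      rw [h2, Function.iterate_succ_apply'] at h1
      rw [FinB_pre h1 (dvd_mul_of_dvd_right h3 _), pow_succ]
      ring
  have h1 := key k le_rfl
  rw [Nat.sub_self] at h1
  have h2 : m = 2 ^ k * m := h1
  have h4 : (2 : ℤ) ^ 1 ≤ 2 ^ k := pow_le_pow_right₀ (by norm_num) hk
  by_contra h5
  have h6 : ((2 : ℤ) ^ k - 1) * m = 0 := by linarith
  rcases mul_eq_zero.1 h6 with h7 | h7
  · linarith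
  · exact h5 h7

/-- the elements of a cycle are periodic -/
theorem FinB_mem {c : Set ℤ} (hc : IsCycle c) {m : ℤ} (hm : m ∈ c) :
    (∃ k : ℕ, 1 ≤ k ∧ T^[k] m = m) ∧ ∀ i : ℕ, T^[i] m ∈ c := by
  obtain ⟨n, ⟨k, hk, hn⟩, rfl⟩ := hc
  obtain ⟨j, hj⟩ := hm
  refine ⟨⟨k, hk, ?_⟩, fun i => ⟨i + j, ?_⟩⟩
  · rw [← hj, ← Function.iterate_add_apply, add_comm, Function.iterate_add_apply, hn]
  · rw [Function.iterate_add_apply, hj]

theorem three_ndvd {c : Set ℤ} (hc : IsCycle c) {m : ℤ} (hm : m ∈ c) (h0 : m ≠ 0) : ¬ (3 : ℤ) ∣ m := by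
  intro h3
  obtain ⟨k, hk, h⟩ := (FinB_mem hc hm).1
  exact h0 (FinB_per hk h h3)

/-- a cycle is bounded -/
theorem FinB_bdd {c : Set ℤ} (hc : IsCycle c) : ∃ N : ℕ, ∀ y ∈ c, |y| ≤ N := by
  obtain ⟨n, ⟨k, hk, hn⟩, rfl⟩ := hc
  refine ⟨(range k).sup (fun i => (T^[i] n).natAbs), ?_⟩
  rintro y ⟨i, rfl⟩
  have h1 : T^[i] n = T^[i % k] n := by
    conv_lhs => rw [← Nat.mod_add_div i k]
    rw [Function.iterate_add_apply, Function.iterate_mul, Function.iterate_fixed hn]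
  rw [h1, Int.abs_eq_natAbs]
  exact_mod_cast Finset.le_sup (f := fun i => (T^[i] n).natAbs) (mem_range.2 (Nat.mod_lt _ hk))

/-- a cycle other than `{0}` is reached from a node -/
theorem FinB_node {c : Set ℤ} (hc : IsCycle c) (h0 : c ≠ {0}) : ∃ (z : ℤ) (j : ℕ),
    T^[j] (3 * z + 2) ∈ c := by
  obtain ⟨m, hm, hm0⟩ : ∃ m ∈ c, m ≠ 0 := by
    by_contra hcon
    push Not at hcon
    apply h0
    obtain ⟨n, _, hcn⟩ := id hc
    have hn : n ∈ c := by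
      rw [hcn]
      exact ⟨0, rfl⟩
    apply Set.eq_singleton_iff_unique_mem.2
    refine ⟨?_, hcon⟩
    rw [← hcon n hn]
    exact hn
  have h3 := three_ndvd hc hm hm0
  have h4 : m % 3 = 1 ∨ m % 3 = 2 := by omega
  rcases h4 with h4 | h4
  · refine ⟨(2 * m - 2) / 3, 1, ?_⟩
    have h5 : 3 * ((2 * m - 2) / 3) + 2 = 2 ^ 1 * m := by omega
    rw [h5, T_two_pow]
    exact hm
  · refine ⟨(m - 2) / 3, 0, ?_⟩
    have h5 : 3 * ((m - 2) / 3) + 2 = m := by omega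
    rw [h5]
    exact hm

open Classical in
theorem attract {c : Set ℤ} (hc : IsCycle c) (h0 : c ≠ {0}) : ∃ (a : ℝ) (X0 : ℕ), 0 < a ∧
    ∀ X : ℕ, X0 ≤ X → a * X ≤ (((Icc (-(X : ℤ)) X).filter (fun n => n ∈ Basin c)).card : ℝ) := by
  obtain ⟨n0, r, H⟩ := bas_root
  obtain ⟨z, j, hz⟩ := FinB_node hc h0
  obtain ⟨N, hN⟩ := FinB_bdd hc
  obtain ⟨k, hk1, hkN, hal, hcl⟩ := Pool.Agent.helper82.PD.primG z n0 r (3 * N + 3)
  set x : ℤ := Tk k z with hx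
  have hnode : 3 * (3 * x + 2) = 2 ^ k * (3 * z + 2) - (if k % 2 = 1 then 1 else 2) := Tk_node hk1 hal
  have hTk : T^[k] (3 * x + 2) = 3 * z + 2 := T_letter hk1 hal
  have hlead : T^[j + k] (3 * x + 2) ∈ c := by
    rw [Function.iterate_add_apply, hTk]
    exact hz
  have hpow : (k : ℤ) < 2 ^ k := by exact_mod_cast Nat.lt_two_pow_self
  have hkN' : (3 : ℤ) * N + 3 ≤ k := by exact_mod_cast hkN
  have hbig : (N : ℤ) < |3 * x + 2| := by
    have h1 : (2 : ℤ) ^ k ≤ |2 ^ k * (3 * z + 2)| := by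
      rw [abs_mul, abs_of_pos (by positivity : (0 : ℤ) < 2 ^ k)]
      have h2 : 1 ≤ |3 * z + 2| := Int.one_le_abs (by omega)
      have h3 : (0 : ℤ) < 2 ^ k := by positivity
      nlinarith
    have h2 : |2 ^ k * (3 * z + 2)| ≤ |3 * (3 * x + 2)| + 2 := by
      have h3 : 2 ^ k * (3 * z + 2) = 3 * (3 * x + 2) + (if k % 2 = 1 then 1 else 2) := by
        rw [hnode]
        ring
      rw [h3]
      refine (abs_add_le _ _).trans ?_
      have h4 : |(if k % 2 = 1 then (1 : ℤ) else 2)| ≤ 2 := by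
        split_ifs <;> norm_num
      linarith
    rw [abs_mul (3 : ℤ) (3 * x + 2), abs_of_pos (by norm_num : (0 : ℤ) < 3)] at h2
    omega
  have h4 : ¬ (4 : ℤ) ∣ 3 * x + 2 := by
    have hk2 : 2 ≤ k := by omega
    obtain ⟨d, hd⟩ := Nat.exists_eq_add_of_le hk2
    have h5 : (2 : ℤ) ^ k * (3 * z + 2) = 4 * (2 ^ d * (3 * z + 2)) := by
      rw [hd, pow_add]
      ring
    rw [h5] at hnode
    intro h6
    obtain ⟨y, hy⟩ := h6
    rw [hy] at hnode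
    split_ifs at hnode <;> omega
  have hper : ∀ u : List ℕ, u ≠ [] → (∀ k ∈ u, 1 ≤ k) → Ala x u → nd x u ≠ x := by
    intro u hu hu1 hau he
    have h5 := T_word hu1 hau
    rw [he] at h5
    have hs : 1 ≤ u.sum := by
      have h6 := Sb_len_le_sum hu1
      have h7 : 0 < u.length := List.length_pos_iff.2 hu
      omega
    have h6 : T^[u.sum * (j + k)] (3 * x + 2) = 3 * x + 2 := by
      rw [Function.iterate_mul]
      exact Function.iterate_fixed h5 _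
    have h7 : j + k ≤ u.sum * (j + k) := Nat.le_mul_of_pos_left _ hs
    obtain ⟨d, hd⟩ := Nat.exists_eq_add_of_le h7
    rw [hd, add_comm, Function.iterate_add_apply] at h6
    have h8 := (FinB_mem hc hlead).2 d
    rw [h6] at h8
    have h9 := hN _ h8
    linarith
  obtain ⟨a, X0, ha, HX⟩ := H x hcl h4 hper
  refine ⟨a, X0, ha, fun X hX => ?_⟩
  obtain ⟨B, hB1, hB2⟩ := HX X hX
  refine hB1.trans ?_
  have hsub : B ⊆ (Icc (-(X : ℤ)) X).filter (fun n => n ∈ Basin c) := by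
    intro n hn
    obtain ⟨h5, i, h6⟩ := hB2 n hn
    rw [mem_filter, mem_Icc]
    refine ⟨abs_le.1 h5, (j + k) + i, ?_⟩
    rw [Function.iterate_add_apply, h6]
    exact hlead
  exact_mod_cast Finset.card_le_card hsub

end Pool.Agent.helper4.BAS
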