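import Pool.Agent.helper4.BAS.FinB

/-!
# BAS-FinC: the uniform version: a cycle with an element `m` attracts at least the proportion `a / |m|`

`bas_root2`: as `bas_root`, with the dependence on the root: `|3 nd x w + 2| ≤ 2 X (3 |x| + 24 * 2 ^ i0) + 2`, which is at
most `M |3 x + 2| X` with `M` independent of `x`, `card W ≥ X / 16`, so with `Y = M |3x+2| X`: at least
`Y / (16 M |3x+2|)` integers `|n| ≤ Y`.
`attract2`: let `p = 2 * 3 ^ (n0 + 1)`.  From the node `a = 3 z + 2 ∈ {m, 2 m}` there is a letter `k ≤ p` with end in the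
class `r` modulo `3 ^ n0` (`primG`, and `2 ^ p ≡ 1` modulo `3 ^ (n0 + 2)`: `k` may be changed by multiples of `p`), and
`k + p` is another one (`FinC_letter`).  At most one of the two ends `b`, `b'` is in `c` (`FinC_two`): `T^[k] b = a`,
`T^[p] b' = 2 ^ k a` (`FinC_step`), `T^[k] (2 ^ k a) = a`, and `T` is injective on a cycle, so `b = 2 ^ k a`, but
`3 b + c = 2 ^ k a`, `c = 1, 2`.  The other one leads to `c` and is not periodic (`FinC_hper`).  So the root `3 x + 2`,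
`x = Tk k z` or `Tk (k + p) z`, has `|3 x + 2| ≤ 2 ^ (2 p) |a|` and is not periodic.
-/

namespace Pool.Agent.helper4.BAS

open Finset Pool.Agent.helper14.EX1 Pool.Agent.helper49.PDR

/-- helper49's `strip_mass` (both versions of the statement). -/
theorem FinC_strip {C ρ : ℝ} (hC : 0 ≤ C) (hρ : 0 < ρ) (hρ1 : ρ < 1) (R : Rule C ρ) :
    ∃ i0 n0 : ℕ, ∃ r : ℤ, ∃ X0 : ℝ, 1 ≤ X0 ∧ ∀ x : ℤ, (3 : ℤ) ^ n0 ∣ x - r → ∀ X : ℝ, X0 ≤ X →
      ∃ W : Finset (List ℕ), (∀ w ∈ W, (∀ k ∈ w, 1 ≤ k) ∧ Ala x w ∧ Good R i0 w ∧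
        strip X w.length w.sum) ∧ 1 / 16 ≤ ∑ w ∈ W, ww w := by
  first
  | exact strip_mass hC hρ hρ1 R
  | (obtain ⟨i0, n0, -, r, X0, h1, h2⟩ := strip_mass hC hρ hρ1 R
     exact ⟨i0, n0, r, X0, h1, fun x hx X hX => by
      obtain ⟨W, hW, hm⟩ := h2 x hx X hX
      exact ⟨W, fun w hw => (hW w hw).2, hm⟩⟩)

theorem bas_root2 : ∃ (n0 : ℕ) (r : ℤ) (a : ℝ), 0 < a ∧ ∀ x : ℤ, (3 : ℤ) ^ n0 ∣ x - r →
    ¬ (4 : ℤ) ∣ 3 * x + 2 →
    (∀ u : List ℕ, u ≠ [] → (∀ k ∈ u, 1 ≤ k) → Ala x u → nd x u ≠ x) →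
    ∃ X0 : ℕ, ∀ X : ℕ, X0 ≤ X → ∃ B : Finset ℤ, a / |3 * (x : ℝ) + 2| * X ≤ B.card ∧
      ∀ n ∈ B, |n| ≤ X ∧ ∃ k : ℕ, T^[k] n = 3 * x + 2 := by
  classical
  obtain ⟨C, ρ, hC, hρ, hρ1, R, -⟩ :=
    Pool.Agent.helper82.PD.exists_rule (e := 1 / 100) (by norm_num) le_rfl
  obtain ⟨i0, n0, r, X1, hX1, hW⟩ := FinC_strip hC hρ hρ1 R
  set M : ℝ := 8 + 48 * 2 ^ i0 with hM
  have hM0 : 0 < M := by positivity
  refine ⟨n0, r, 1 / (16 * M), by positivity, ?_⟩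
  intro x hx h4 hper
  have ha1 : (1 : ℝ) ≤ |3 * (x : ℝ) + 2| := by
    have h1 : (1 : ℤ) ≤ |3 * x + 2| := Int.one_le_abs (by omega)
    have h2 : ((1 : ℤ) : ℝ) ≤ ((|3 * x + 2| : ℤ) : ℝ) := by exact_mod_cast h1
    push_cast at h2
    exact h2
  have ha0 : (0 : ℝ) < |3 * (x : ℝ) + 2| := by linarith
  obtain ⟨X0, hX0⟩ := exists_nat_ge (X1 * (M * |3 * (x : ℝ) + 2|))
  refine ⟨X0, fun Y hY => ?_⟩
  have hY' : X1 * (M * |3 * (x : ℝ) + 2|) ≤ (Y : ℝ) := by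
    have : (X0 : ℝ) ≤ Y := by exact_mod_cast hY
    linarith
  set X : ℝ := Y / (M * |3 * (x : ℝ) + 2|) with hXdef
  have hXX : X1 ≤ X := by
    rw [hXdef, le_div_iff₀ (by positivity)]
    exact hY'
  have hX1' : 1 ≤ X := hX1.trans hXX
  have hXp : 0 < X := by linarith
  have hYX : X * (M * |3 * (x : ℝ) + 2|) = Y := by
    rw [hXdef]
    field_simp
  obtain ⟨W, hWw, hWm⟩ := hW x hx X hXX
  have hcard : X / 16 ≤ (W.card : ℝ) := by
    have h1 : ∀ w ∈ W, ww w ≤ 1 / X := by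
      intro w hw
      obtain ⟨-, -, -, hs, -⟩ := hWw w hw
      have h2 : ww w = 3 ^ w.length / 2 ^ w.sum := rfl
      rw [h2, div_le_div_iff₀ (by positivity) hXp]
      linarith
    have h2 := hWm.trans (sum_le_sum h1)
    rw [sum_const, nsmul_eq_mul, mul_one_div, div_le_div_iff₀ (by norm_num) hXp] at h2
    linarith
  refine ⟨W.image (fun w => 3 * nd x w + 2), ?_, ?_⟩
  · rw [card_image_of_injOn]
    · have h1 : 1 / (16 * M) / |3 * (x : ℝ) + 2| * Y = X / 16 := by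
        rw [← hYX]
        field_simp
      rw [h1]
      exact hcard
    · intro v hv w hw hvw
      have hvw' : nd x v = nd x w := by
        have : 3 * nd x v + 2 = 3 * nd x w + 2 := hvw
        omega
      obtain ⟨hv1, hv2, -, -⟩ := hWw v hv
      obtain ⟨hw1, hw2, -, -⟩ := hWw w hw
      exact dst h4 hper hv1 hw1 hv2 hw2 hvw'
  · intro n hn
    obtain ⟨w, hw, rfl⟩ := mem_image.1 hn
    obtain ⟨hw1, hw2, hw3, hs1, hs2⟩ := hWw w hw
    refine ⟨?_, w.sum, T_word hw1 hw2⟩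
    have h1 := nd_eq hw2
    have h1' : (3 : ℝ) ^ w.length * nd x w = 2 ^ w.sum * x + Gw w := by exact_mod_cast h1
    have h2 := gw_bound R i0 hw1 hw3
    have h3 : (3 : ℝ) ^ w.length * |(nd x w : ℝ)| ≤ 2 ^ w.sum * (|(x : ℝ)| + 8 * 2 ^ i0) := by
      have e1 : (3 : ℝ) ^ w.length * |(nd x w : ℝ)| = |(3 : ℝ) ^ w.length * nd x w| := by
        rw [abs_mul, abs_of_pos (show (0 : ℝ) < 3 ^ w.length by positivity)]
      rw [e1, h1']
      refine (abs_add_le _ _).trans ?_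
      rw [abs_mul, abs_of_pos (show (0 : ℝ) < 2 ^ w.sum by positivity)]
      linarith
    have h4' : (2 : ℝ) ^ w.sum * (|(x : ℝ)| + 8 * 2 ^ i0) ≤
        2 * X * 3 ^ w.length * (|(x : ℝ)| + 8 * 2 ^ i0) :=
      mul_le_mul_of_nonneg_right hs2.le (by positivity)
    have h5 : |(nd x w : ℝ)| ≤ 2 * X * (|(x : ℝ)| + 8 * 2 ^ i0) := by
      have h6 : (3 : ℝ) ^ w.length * |(nd x w : ℝ)| ≤
          3 ^ w.length * (2 * X * (|(x : ℝ)| + 8 * 2 ^ i0)) := by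
        calc _ ≤ _ := h3
          _ ≤ _ := h4'
          _ = _ := by ring
      exact le_of_mul_le_mul_left h6 (by positivity)
    have h6 : 3 * |(x : ℝ)| ≤ 3 * |3 * (x : ℝ) + 2| := by
      have h7 : |3 * (x : ℝ)| ≤ |3 * (x : ℝ) + 2| + 2 := by
        have h8 := abs_sub (3 * (x : ℝ) + 2) 2
        have h9 : 3 * (x : ℝ) + 2 - 2 = 3 * x := by ring
        rw [h9, abs_of_pos (show (0 : ℝ) < 2 by norm_num)] at h8
        exact h8
      rw [abs_mul, abs_of_pos (show (0 : ℝ) < 3 by norm_num)] at h7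
      linarith
    have h7 : |3 * (nd x w : ℝ) + 2| ≤ 3 * |(nd x w : ℝ)| + 2 := by
      refine (abs_add_le _ _).trans ?_
      rw [abs_mul, abs_of_pos (show (0 : ℝ) < 3 by norm_num), abs_of_pos (show (0 : ℝ) < 2 by norm_num)]
    have h8 : |3 * (nd x w : ℝ) + 2| ≤ Y := by
      rw [← hYX]
      refine h7.trans ?_
      have h9 : 3 * |(nd x w : ℝ)| ≤ 3 * (2 * X * (|(x : ℝ)| + 8 * 2 ^ i0)) := by linarith
      have h10 : 3 * (2 * X * (|(x : ℝ)| + 8 * 2 ^ i0)) =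
          X * (2 * (3 * |(x : ℝ)|) + 48 * 2 ^ i0) := by ring
      have h11 : X * (2 * (3 * |(x : ℝ)|) + 48 * 2 ^ i0) ≤
          X * (6 * |3 * (x : ℝ) + 2| + 48 * 2 ^ i0 * |3 * (x : ℝ) + 2|) := by
        apply mul_le_mul_of_nonneg_left _ hXp.le
        have h12 : (48 : ℝ) * 2 ^ i0 * 1 ≤ 48 * 2 ^ i0 * |3 * (x : ℝ) + 2| :=
          mul_le_mul_of_nonneg_left ha1 (by positivity)
        linarith
      have h13 : (2 : ℝ) ≤ X * (2 * |3 * (x : ℝ) + 2|) := by nlinarith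
      rw [hM]
      linarith
    have h9 : ((|3 * nd x w + 2| : ℤ) : ℝ) ≤ ((Y : ℤ) : ℝ) := by
      push_cast
      exact h8
    exact_mod_cast h9

/-- A cycle is forward invariant. -/
theorem FinC_inv {c : Set ℤ} (hc : IsCycle c) {m : ℤ} (hm : m ∈ c) (j : ℕ) : T^[j] m ∈ c := by
  obtain ⟨n, -, rfl⟩ := hc
  obtain ⟨i, rfl⟩ := hm
  exact ⟨j + i, by rw [Function.iterate_add_apply]⟩

/-- The elements of a cycle are periodic with one period. -/
theorem FinC_per {c : Set ℤ} (hc : IsCycle c) : ∃ k : ℕ, 1 ≤ k ∧ ∀ m ∈ c, T^[k] m = m := by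
  obtain ⟨n, ⟨k, hk, hn⟩, rfl⟩ := hc
  refine ⟨k, hk, ?_⟩
  rintro m ⟨i, rfl⟩
  rw [← Function.iterate_add_apply, Nat.add_comm, Function.iterate_add_apply, hn]

/-- `T` is injective on a cycle. -/
theorem inj_cyc {c : Set ℤ} (hc : IsCycle c) {m n : ℤ} (hm : m ∈ c) (hn : n ∈ c) (h : T m = T n) :
    m = n := by
  obtain ⟨k, hk, hp⟩ := FinC_per hc
  obtain ⟨j, rfl⟩ := Nat.exists_eq_add_of_le' hk
  have h1 := hp m hm
  have h2 := hp n hn
  rw [Function.iterate_succ_apply] at h1 h2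
  rw [← h1, ← h2, h]

theorem FinC_inj {c : Set ℤ} (hc : IsCycle c) (j : ℕ) {m n : ℤ} (hm : m ∈ c) (hn : n ∈ c)
    (h : T^[j] m = T^[j] n) : m = n := by
  induction j generalizing m n with
  | zero => exact h
  | succ j ih =>
    rw [Function.iterate_succ_apply, Function.iterate_succ_apply] at h
    exact inj_cyc hc hm hn (ih (FinC_inv hc hm 1) (FinC_inv hc hn 1) h)

/-- A periodic point whose orbit enters a cycle is in the cycle. -/
theorem FinC_mem {c : Set ℤ} (hc : IsCycle c) {b : ℤ} {s j : ℕ} (hs : 1 ≤ s) (hb : T^[s] b = b)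
    (hj : T^[j] b ∈ c) : b ∈ c := by
  have h1 : T^[s * j] b = b := by
    rw [Function.iterate_mul]
    exact Function.iterate_fixed hb j
  have h2 : s * j = (s * j - j) + j := by
    have : j ≤ s * j := Nat.le_mul_of_pos_left j hs
    omega
  rw [h2, Function.iterate_add_apply] at h1
  rw [← h1]
  exact FinC_inv hc hj _

/-- The letter `k + p`, `p ≥ 2`: after `p` steps. -/
theorem FinC_step {k p : ℕ} (hp : 2 ≤ p) {z : ℤ} (h : Al (k + p) z) :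
    T^[p] (3 * Tk (k + p) z + 2) = 2 ^ k * (3 * z + 2) := by
  obtain ⟨q, rfl⟩ := Nat.exists_eq_add_of_le' hp
  have h1 := Tk_node (k := k + (q + 2)) (by omega) h
  set b : ℤ := 3 * Tk (k + (q + 2)) z + 2 with hb
  set a : ℤ := 3 * z + 2 with ha
  have e1 : (2 : ℤ) ^ (k + (q + 2)) * a = 2 * (2 * (2 ^ q * (2 ^ k * a))) := by ring
  rw [e1] at h1
  set A : ℤ := 2 ^ q * (2 ^ k * a) with hA
  by_cases hk : (k + (q + 2)) % 2 = 1
  · rw [if_pos hk] at h1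
    have h2 : T b = 2 * A := by
      unfold T
      rw [if_neg (by omega)]
      omega
    rw [Function.iterate_succ_apply, h2, show 2 * A = 2 ^ (q + 1) * (2 ^ k * a) by rw [hA]; ring]
    exact T_two_pow (q + 1) _
  · rw [if_neg hk] at h1
    have h2 : T b = b / 2 := by
      unfold T
      rw [if_pos (by omega)]
    have h3 : T (b / 2) = A := by
      unfold T
      rw [if_neg (by omega)]
      omega
    rw [Function.iterate_succ_apply, h2, Function.iterate_succ_apply, h3, hA]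
    exact T_two_pow q _

/-- A letter may be changed by `p`. -/
theorem FinC_pow (n : ℕ) : (3 : ℤ) ^ (n + 2) ∣ 2 ^ (2 * 3 ^ (n + 1)) - 1 := by
  have h1 : (2 : ℕ).Coprime (3 ^ (n + 2)) := Nat.Coprime.pow_right _ (by norm_num)
  have h2 := Nat.ModEq.pow_totient h1
  have h3 : Nat.totient (3 ^ (n + 2)) = 2 * 3 ^ (n + 1) := by
    rw [Nat.totient_prime_pow Nat.prime_three (by omega)]
    simp [mul_comm]
  rw [h3] at h2
  have h4 := (Nat.modEq_iff_dvd.1 h2.symm)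
  push_cast at h4
  exact h4

theorem FinC_lin {k : ℕ} (hk : 1 ≤ k) (z : ℤ) :
    3 * (2 ^ k * z + tk k) = 2 ^ k * (3 * z + 2) - (if k % 2 = 1 then 1 else 2) - 6 := by
  have h1 := three_tk hk
  rw [pow_succ] at h1
  have h2 : 3 * (2 ^ k * z + tk k) = 3 * (2 ^ k * z) + 3 * tk k := by ring
  rw [h2, h1]
  ring

theorem FinC_shift {n k k' : ℕ} (hk : 1 ≤ k) (hk' : 1 ≤ k') {z r : ℤ} (h : Al k z)
    (hr : (3 : ℤ) ^ n ∣ Tk k z - r) (hpar : k' % 2 = k % 2)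
    (hpow : (3 : ℤ) ^ (n + 2) ∣ 2 ^ k' - 2 ^ k) :
    Al k' z ∧ (3 : ℤ) ^ n ∣ Tk k' z - r := by
  have h1 := FinC_lin hk z
  have h2 := FinC_lin hk' z
  rw [hpar] at h2
  have h3 : (3 : ℤ) ^ (n + 1) ∣ (2 ^ k' * z + tk k') - (2 ^ k * z + tk k) := by
    have h4 : (3 : ℤ) ^ (n + 2) ∣ 3 * ((2 ^ k' * z + tk k') - (2 ^ k * z + tk k)) := by
      have h5 : 3 * ((2 ^ k' * z + tk k') - (2 ^ k * z + tk k)) = (2 ^ k' - 2 ^ k) * (3 * z + 2) := by
        rw [mul_sub, h1, h2]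
        ring
      rw [h5]
      exact hpow.mul_right _
    rw [show n + 2 = (n + 1) + 1 by ring, pow_succ' (3 : ℤ) (n + 1)] at h4
    exact Int.dvd_of_mul_dvd_mul_left (by norm_num) h4
  have h4 : Al k' z := by
    unfold Al
    have h5 : (3 : ℤ) ∣ (2 ^ k' * z + tk k') - (2 ^ k * z + tk k) :=
      (dvd_pow_self 3 (by omega)).trans h3
    have h6 : (3 : ℤ) ∣ 2 ^ k * z + tk k := h
    have h7 := dvd_add h5 h6
    rwa [sub_add_cancel] at h7
  refine ⟨h4, ?_⟩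
  have h5 := Tk_eq h
  have h6 := Tk_eq h4
  rw [← h5, ← h6, ← mul_sub, pow_succ' (3 : ℤ) n] at h3
  have h7 := Int.dvd_of_mul_dvd_mul_left (by norm_num) h3
  have h8 := dvd_add h7 hr
  have h9 : Tk k' z - Tk k z + (Tk k z - r) = Tk k' z - r := by ring
  rwa [h9] at h8

/-- There is a letter between `1` and `p` with end in the class `r`, and it may be increased by `p`. -/
theorem FinC_letter (n : ℕ) (z r : ℤ) : ∃ k : ℕ, 1 ≤ k ∧ k ≤ 2 * 3 ^ (n + 1) ∧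
    (Al k z ∧ (3 : ℤ) ^ n ∣ Tk k z - r) ∧
    (Al (k + 2 * 3 ^ (n + 1)) z ∧ (3 : ℤ) ^ n ∣ Tk (k + 2 * 3 ^ (n + 1)) z - r) := by
  obtain ⟨k0, hk0, -, hal, hr⟩ := Pool.Agent.helper82.PD.primG z n r 1
  have hmul : ∀ j : ℕ, (3 : ℤ) ^ (n + 2) ∣ 2 ^ (2 * 3 ^ (n + 1) * j) - 1 := by
    intro j
    rw [pow_mul]
    exact (FinC_pow n).trans (sub_one_dvd_pow_sub_one (2 ^ (2 * 3 ^ (n + 1))) j)
  have hp : 0 < 3 ^ (n + 1) := by positivity
  set q : ℕ := 3 ^ (n + 1) with hq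
  -- k0 - 1 = k1 + (2 q) j
  set k1 : ℕ := (k0 - 1) % (2 * q) with hk1
  set j : ℕ := (k0 - 1) / (2 * q) with hj
  have e1 : k1 + 2 * q * j = k0 - 1 := Nat.mod_add_div _ _
  have e2 : k1 < 2 * q := Nat.mod_lt _ (by omega)
  have e3 : k0 = (k1 + 1) + 2 * q * j := by omega
  have key : ∀ i : ℕ, Al (k1 + 1 + 2 * q * i) z ∧ (3 : ℤ) ^ n ∣ Tk (k1 + 1 + 2 * q * i) z - r := by
    intro i
    refine FinC_shift hk0 (by omega) hal hr ?_ ?_
    · rw [e3, mul_assoc, mul_assoc]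
      omega
    · have h1 := dvd_sub (hmul i) (hmul j)
      rw [sub_sub_sub_cancel_right] at h1
      have h2 : (2 : ℤ) ^ (k1 + 1 + 2 * q * i) - 2 ^ (k1 + 1 + 2 * q * j) =
          2 ^ (k1 + 1) * (2 ^ (2 * q * i) - 2 ^ (2 * q * j)) := by
        rw [pow_add _ (k1 + 1) (2 * q * i), pow_add _ (k1 + 1) (2 * q * j), ← mul_sub]
      rw [e3, h2]
      exact h1.mul_left _
  refine ⟨k1 + 1, by omega, by omega, ?_, ?_⟩
  · have h1 := key 0
    rwa [mul_zero, add_zero] at h1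
  · have h1 := key 1
    rwa [mul_one] at h1

/-- Not both letters have periodic ends. -/
theorem FinC_two {c : Set ℤ} (hc : IsCycle c) {z : ℤ} {k p : ℕ} (hk : 1 ≤ k) (hp : 2 ≤ p) (h : Al k z) (h' : Al (k + p) z)
    (hb : 3 * Tk k z + 2 ∈ c) (hb' : 3 * Tk (k + p) z + 2 ∈ c) : False := by
  have h1 := T_letter hk h
  have h2 := FinC_step hp h'
  have h3 : 3 * Tk k z + 2 = T^[p] (3 * Tk (k + p) z + 2) := by
    apply FinC_inj hc k hb (FinC_inv hc hb' p)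
    rw [h1, h2]
    exact (T_two_pow k _).symm
  rw [h2] at h3
  have h4 := Tk_node hk h
  rw [← h3] at h4
  set b : ℤ := 3 * Tk k z + 2 with hbd
  have h5 : (2 : ℤ) ∣ b := by
    rw [h3]
    exact (dvd_pow_self 2 (by omega)).mul_right _
  by_cases hk2 : k % 2 = 1
  · rw [if_pos hk2] at h4
    omega
  · rw [if_neg hk2] at h4
    omega

/-- A root which is not in the cycle but leads to it is not reached from itself. -/
theorem FinC_hper {c : Set ℤ} (hc : IsCycle c) {x : ℤ} {j : ℕ} (hj : T^[j] (3 * x + 2) ∈ c)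
    (hb : 3 * x + 2 ∉ c) (u : List ℕ) (hu : u ≠ []) (hu1 : ∀ k ∈ u, 1 ≤ k) (ha : Ala x u) :
    nd x u ≠ x := by
  intro he
  have h1 := T_word hu1 ha
  rw [he] at h1
  refine hb (FinC_mem hc ?_ h1 hj)
  obtain ⟨a, u, rfl⟩ := List.exists_cons_of_ne_nil hu
  have := hu1 a (by simp)
  rw [List.sum_cons]
  omega

theorem FinC_root {c : Set ℤ} (hc : IsCycle c) (n : ℕ) (r : ℤ) {m : ℤ} (hm : m ∈ c) (h0 : m ≠ 0) :
    ∃ x : ℤ, (3 : ℤ) ^ n ∣ x - r ∧ ¬ (4 : ℤ) ∣ 3 * x + 2 ∧ 3 * x + 2 ∉ c ∧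
      (∃ j : ℕ, T^[j] (3 * x + 2) ∈ c) ∧
      |3 * x + 2| ≤ 2 ^ (2 * (2 * 3 ^ (n + 1)) + 1) * |m| := by
  -- the node
  obtain ⟨z, i, hz, hzm, hzl⟩ : ∃ (z : ℤ) (i : ℕ), T^[i] (3 * z + 2) = m ∧ 3 * z + 2 ≠ 0 ∧
      |3 * z + 2| ≤ 2 * |m| := by
    have h3 := three_ndvd hc hm h0
    have h4 : m % 3 = 1 ∨ m % 3 = 2 := by omega
    rcases h4 with h4 | h4
    · refine ⟨(2 * m - 2) / 3, 1, ?_, by omega, ?_⟩
      · have h5 : 3 * ((2 * m - 2) / 3) + 2 = 2 ^ 1 * m := by omega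
        rw [h5]
        exact T_two_pow 1 m
      · have h5 : 3 * ((2 * m - 2) / 3) + 2 = 2 * m := by omega
        rw [h5, abs_mul]
        rfl
    · refine ⟨(m - 2) / 3, 0, ?_, by omega, ?_⟩
      · have h5 : 3 * ((m - 2) / 3) + 2 = m := by omega
        rw [h5]
        rfl
      · have h5 : 3 * ((m - 2) / 3) + 2 = m := by omega
        rw [h5]
        have := abs_nonneg m
        linarith
  have hzc : T^[i] (3 * z + 2) ∈ c := by rw [hz]; exact hm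
  obtain ⟨k, hk, hk2, ⟨hal, hr⟩, ⟨hal', hr'⟩⟩ := FinC_letter n z r
  set p : ℕ := 2 * 3 ^ (n + 1) with hp
  have hp2 : 2 ≤ p := by
    have : 0 < 3 ^ (n + 1) := by positivity
    omega
  -- the size of an end
  have hsize : ∀ l : ℕ, 1 ≤ l → l ≤ 2 * p → Al l z →
      |3 * Tk l z + 2| ≤ 2 ^ (2 * p + 1) * |m| := by
    intro l hl hl2 ha
    have h1 := Tk_node hl ha
    have h2 : |3 * (3 * Tk l z + 2)| ≤ 2 ^ l * |3 * z + 2| + 2 := by
      rw [h1]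
      refine (abs_sub _ _).trans ?_
      rw [abs_mul, abs_of_pos (show (0 : ℤ) < 2 ^ l by positivity)]
      have : |(if l % 2 = 1 then 1 else 2 : ℤ)| ≤ 2 := by
        split_ifs <;> norm_num
      linarith
    rw [abs_mul, abs_of_pos (show (0 : ℤ) < 3 by norm_num)] at h2
    have h3 : (1 : ℤ) ≤ |3 * z + 2| := Int.one_le_abs hzm
    have h4 : (2 : ℤ) ^ l ≤ 2 ^ (2 * p) := pow_le_pow_right₀ (by norm_num) hl2
    have h5 : (1 : ℤ) ≤ 2 ^ l := one_le_pow₀ (by norm_num)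
    have h6 : (1 : ℤ) ≤ 2 ^ l * |3 * z + 2| := by nlinarith
    have h7 : |3 * Tk l z + 2| ≤ 2 ^ l * |3 * z + 2| := by linarith
    have h8 : (2 : ℤ) ^ l * |3 * z + 2| ≤ 2 ^ (2 * p) * (2 * |m|) :=
      mul_le_mul h4 hzl (abs_nonneg _) (by positivity)
    rw [pow_succ]
    linarith
  -- an end leads to the cycle
  have hlead : ∀ l : ℕ, 1 ≤ l → Al l z → T^[i + l] (3 * Tk l z + 2) ∈ c := by
    intro l hl ha
    rw [Function.iterate_add_apply, T_letter hl ha]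
    exact hzc
  by_cases hb : 3 * Tk k z + 2 ∈ c
  · have hb' : 3 * Tk (k + p) z + 2 ∉ c := fun h => FinC_two hc hk hp2 hal hal' hb h
    exact ⟨Tk (k + p) z, hr', child_four (by omega) hal', hb', ⟨_, hlead _ (by omega) hal'⟩,
      hsize _ (by omega) (by omega) hal'⟩
  · exact ⟨Tk k z, hr, child_four hk hal, hb, ⟨_, hlead _ hk hal⟩, hsize _ hk (by omega) hal⟩

open Classical in
theorem attract2 : ∃ a : ℝ, 0 < a ∧ ∀ c : Set ℤ, IsCycle c → ∀ m ∈ c, m ≠ 0 → ∃ X0 : ℕ,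
    ∀ X : ℕ, X0 ≤ X →
      a / |(m : ℝ)| * X ≤ (((Icc (-(X : ℤ)) X).filter (fun n => n ∈ Basin c)).card : ℝ) := by
  obtain ⟨n0, r, a, ha, hroot⟩ := bas_root2
  refine ⟨a / 2 ^ (2 * (2 * 3 ^ (n0 + 1)) + 1), by positivity, ?_⟩
  intro c hc m hm h0
  obtain ⟨x, hx, h4, hxc, ⟨j, hj⟩, hsz⟩ := FinC_root hc n0 r hm h0
  obtain ⟨X0, hX⟩ := hroot x hx h4 (fun u hu hu1 hau => FinC_hper hc hj hxc u hu hu1 hau)
  refine ⟨X0, fun X hXX => ?_⟩
  obtain ⟨B, hB, hBn⟩ := hX X hXX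
  have h1 : B.card ≤ ((Icc (-(X : ℤ)) X).filter (fun n => n ∈ Basin c)).card := by
    apply card_le_card
    intro n hn
    obtain ⟨h2, k, h3⟩ := hBn n hn
    rw [mem_filter, mem_Icc]
    refine ⟨abs_le.1 h2, j + k, ?_⟩
    rw [Function.iterate_add_apply, h3]
    exact hj
  have h1' : (B.card : ℝ) ≤ (((Icc (-(X : ℤ)) X).filter (fun n => n ∈ Basin c)).card : ℝ) := by
    exact_mod_cast h1
  refine le_trans ?_ (hB.trans h1')
  apply mul_le_mul_of_nonneg_right _ (Nat.cast_nonneg X)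
  have hsz' : |3 * (x : ℝ) + 2| ≤ 2 ^ (2 * (2 * 3 ^ (n0 + 1)) + 1) * |(m : ℝ)| := by
    have h5 : ((|3 * x + 2| : ℤ) : ℝ) ≤ ((2 ^ (2 * (2 * 3 ^ (n0 + 1)) + 1) * |m| : ℤ) : ℝ) := by
      exact_mod_cast hsz
    push_cast at h5
    exact h5
  have hx0 : (0 : ℝ) < |3 * (x : ℝ) + 2| := by
    have h6 : (1 : ℤ) ≤ |3 * x + 2| := Int.one_le_abs (by omega)
    have h7 : ((1 : ℤ) : ℝ) ≤ ((|3 * x + 2| : ℤ) : ℝ) := by exact_mod_cast h6
    push_cast at h7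
    linarith
  have hm0 : (0 : ℝ) < |(m : ℝ)| := by
    rw [abs_pos]
    exact_mod_cast h0
  rw [div_div, div_le_div_iff₀ (by positivity) hx0]
  exact mul_le_mul_of_nonneg_left hsz' ha.le

end Pool.Agent.helper4.BAS
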