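import Pool.Agent.helper4.BAS.Defs
import Pool.Agent.helper24.T2.Geo

/-!
# BAS-Geo: the nodes of the good words, both signs

`offs`: from helper24's `off` (all integers `x`): `(3x+2-S) ρ ≤ 3 nd + 2 ≤ (3x+2) ρ`, times `s`.  `fp_nodes`, `window`: copies of
helper24's `T2/Geo.lean` (store `T2b_Geo.lean`) with `N = nv s x`: `(N - S) ρ ≤ N' ≤ (N + S) ρ`.
`fp_nodes`: `i ≤ h`: `N 2 ^ A_i / 3 ^ i ≥ Z exp d ≥ (1 + d) Z` (`le_Im`) and `N - S ≥ N / (1 + d)` as `N ≥ Z exp (-L) ≥ S (1 + 1/d)`; `i ≥ h`: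
`2^A_i / 3^i ≥ 1.3 ^ i ≥ (1 + d) exp L` (`grow`).  `window`: with `ρ ∈ [X (1+d) / N, 2 X (1+d) / N)`: `N' ≥ (N / (1+d)) ρ ≥ X`,
`N' ≤ N (1 + d) ρ < 2 X (1+d)^2`, `ww v = 1 / ρ`.
-/

namespace Pool.Agent.helper4.BAS

open Finset Pool.Agent.helper14.EX1 Pool.Agent.helper82.PD Pool.Agent.helper24.T2

theorem Geo_gd {e : ℝ} {i0 : ℕ} {v : List ℕ} (hG : Gd e i0 v) (i : ℕ) : Gd e i0 (v.take i) := by
  intro j hj1 hj2
  have h1 : j ≤ i := hj2.trans (by rw [List.length_take]; exact min_le_left _ _)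
  have h2 : j ≤ v.length := hj2.trans (by rw [List.length_take]; exact min_le_right _ _)
  rw [List.take_take, min_eq_left h1]
  exact hG j hj1 h2

theorem Geo_ala {x : ℤ} {v : List ℕ} (h : Ala x v) (i : ℕ) : Ala x (v.take i) := by
  have h1 := (ala_append x (v.take i) (v.drop i)).mp (by rwa [List.take_append_drop])
  exact h1.1

theorem Geo_Sv (v : List ℕ) : Real.exp (Sv v) = 2 ^ v.sum / 3 ^ v.length := by
  unfold Sv
  rw [Real.exp_sub, mul_comm (v.sum : ℝ), mul_comm (v.length : ℝ), Real.exp_mul, Real.exp_mul,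
    Real.exp_log (by norm_num), Real.exp_log (by norm_num), Real.rpow_natCast, Real.rpow_natCast]

theorem Geo_half {S L d : ℝ} (hS0 : 0 ≤ S) (hd : 0 < d) {Z : ℤ}
    (hZ : S * (1 + 1 / d) * Real.exp L ≤ Z) {N : ℝ} (hx : (Z : ℝ) * Real.exp (-L) ≤ N)
    (hZ0 : 0 < Z) : 0 < N ∧ N / (1 + d) ≤ N - S ∧ N + S ≤ N * (1 + d) := by
  have hZ0' : (0 : ℝ) < Z := by exact_mod_cast hZ0
  have hpos : 0 < N := lt_of_lt_of_le (mul_pos hZ0' (Real.exp_pos _)) hx
  have h1 : S * (1 + 1 / d) ≤ Z * Real.exp (-L) := by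
    rw [Real.exp_neg, ← div_eq_mul_inv, le_div_iff₀ (Real.exp_pos _)]
    exact hZ
  have h2 : S * (1 + 1 / d) ≤ N := h1.trans hx
  have h3 : S * (1 + d) ≤ N * d := by
    have := mul_le_mul_of_nonneg_right h2 hd.le
    have e : S * (1 + 1 / d) * d = S * (1 + d) := by
      field_simp
      ring
    rwa [e] at this
  refine ⟨hpos, ?_, ?_⟩
  · rw [div_le_iff₀ (by linarith)]
    linarith
  · have h4 : 0 ≤ S * d := mul_nonneg hS0 hd.le
    linarith

theorem offs {e : ℝ} (he : 0 < e) (he1 : e ≤ 1 / 100) (i0 : ℕ) : ∃ S : ℝ, 0 ≤ S ∧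
    ∀ (s x : ℤ) (v : List ℕ), (s = 1 ∨ s = -1) → (∀ k ∈ v, 1 ≤ k) → Ala x v → Gd e i0 v →
      |(nv s (nd x v) : ℝ) - nv s x * (2 ^ v.sum / 3 ^ v.length)| ≤ S * (2 ^ v.sum / 3 ^ v.length) := by
  obtain ⟨S, hS0, hS⟩ := off he he1 i0
  refine ⟨S, hS0, ?_⟩
  intro s x v hs hv hA hG
  obtain ⟨h1, h2⟩ := hS x v hv hA hG
  rcases hs with rfl | rfl
  · have e1 : (nv 1 (nd x v) : ℝ) = 3 * (nd x v : ℝ) + 2 := by
      unfold nv
      push_cast
      ring
    have e2 : (nv 1 x : ℝ) = 3 * (x : ℝ) + 2 := by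
      unfold nv
      push_cast
      ring
    rw [e1, e2, abs_le]
    constructor <;> nlinarith
  · have e1 : (nv (-1) (nd x v) : ℝ) = -(3 * (nd x v : ℝ) + 2) := by
      unfold nv
      push_cast
      ring
    have e2 : (nv (-1) x : ℝ) = -(3 * (x : ℝ) + 2) := by
      unfold nv
      push_cast
      ring
    rw [e1, e2, abs_le]
    constructor <;> nlinarith

/-- `S` is any constant as in `offs`. -/
theorem fp_nodes {s : ℤ} (hs : s = 1 ∨ s = -1) {e : ℝ} (he : 0 < e) (he1 : e ≤ 1 / 100) {i0 h : ℕ}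
    {S L d : ℝ} (hS0 : 0 ≤ S)
    (hS : ∀ (s x : ℤ) (v : List ℕ), (s = 1 ∨ s = -1) → (∀ k ∈ v, 1 ≤ k) → Ala x v → Gd e i0 v →
      |(nv s (nd x v) : ℝ) - nv s x * (2 ^ v.sum / 3 ^ v.length)| ≤ S * (2 ^ v.sum / 3 ^ v.length))
    (hd : 0 < d) (h1 : 1 ≤ h) (h0 : i0 ≤ h) (hh : Real.exp L * (1 + d) ≤ (13 / 10) ^ h)
    {Z : ℤ} (hZ0 : 0 < Z) (hZ : S * (1 + 1 / d) * Real.exp L ≤ Z) {x : ℤ}
    (hx : (Z : ℝ) * Real.exp (-L) ≤ nv s x)
    {v : List ℕ} (hv : ∀ k ∈ v, 1 ≤ k) (hA : Ala x v) (hG : Gd e i0 v) (hl : h ≤ v.length)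
    (hH : (Z : ℝ) * Real.exp (-(Im (v.take h) - d)) ≤ nv s x) :
    ∀ i, 1 ≤ i → i ≤ v.length → Z ≤ nv s (nd x (v.take i)) := by
  intro i hi1 hi2
  obtain ⟨hpos, hhalf, -⟩ := Geo_half hS0 hd hZ hx hZ0
  have hlen : (v.take i).length = i := by rw [List.length_take, min_eq_left hi2]
  have hv' : ∀ k ∈ v.take i, 1 ≤ k := fun k hk => hv k (List.mem_of_mem_take hk)
  have hG' := Geo_gd hG i
  have h2 := (abs_le.mp (hS s x (v.take i) hs hv' (Geo_ala hA i) hG')).1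
  have hR : (0 : ℝ) < 2 ^ (v.take i).sum / 3 ^ (v.take i).length := by positivity
  have h3 : (nv s x : ℝ) / (1 + d) * (2 ^ (v.take i).sum / 3 ^ (v.take i).length) ≤
      (nv s (nd x (v.take i)) : ℝ) := by
    have h4 := mul_le_mul_of_nonneg_right hhalf hR.le
    rw [sub_mul] at h4
    linarith
  have hZ0' : (0 : ℝ) < Z := by exact_mod_cast hZ0
  have key : (Z : ℝ) * (1 + d) ≤ (nv s x : ℝ) * (2 ^ (v.take i).sum / 3 ^ (v.take i).length) := by
    rcases le_total i h with hih | hih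
    · have hne : v.take h ≠ [] := by
        intro h0
        have := congrArg List.length h0
        rw [List.length_take, min_eq_left hl, List.length_nil] at this
        omega
      have h4 := (le_Im hne).mp le_rfl i hi1 (by rw [List.length_take, min_eq_left hl]; exact hih)
      rw [List.take_take, min_eq_left hih] at h4
      rw [← Geo_Sv]
      have h5 : (Z : ℝ) * Real.exp d ≤ (nv s x : ℝ) * Real.exp (Im (v.take h)) := by
        have h6 := mul_le_mul_of_nonneg_right hH (Real.exp_pos (Im (v.take h))).le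
        rw [mul_assoc, ← Real.exp_add] at h6
        have e : -(Im (v.take h) - d) + Im (v.take h) = d := by ring
        rwa [e] at h6
      have h7 : (nv s x : ℝ) * Real.exp (Im (v.take h)) ≤
          (nv s x : ℝ) * Real.exp (Sv (v.take i)) :=
        mul_le_mul_of_nonneg_left (Real.exp_le_exp.mpr h4) hpos.le
      have h8 : (Z : ℝ) * (1 + d) ≤ Z * Real.exp d :=
        mul_le_mul_of_nonneg_left (by linarith [Real.add_one_le_exp d]) hZ0'.le
      linarith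
    · have h4 := grow he he1 (by rw [hlen]; omega) hG'
      have h5 : (13 / 10 : ℝ) ^ h ≤ (13 / 10) ^ (v.take i).length := by
        rw [hlen]
        exact pow_le_pow_right₀ (by norm_num) hih
      have h6 : Real.exp L * (1 + d) ≤ 2 ^ (v.take i).sum / 3 ^ (v.take i).length :=
        hh.trans (h5.trans h4)
      have h7 : (Z : ℝ) * Real.exp (-L) * (Real.exp L * (1 + d)) ≤
          (nv s x : ℝ) * (2 ^ (v.take i).sum / 3 ^ (v.take i).length) :=
        mul_le_mul hx h6 (by positivity) hpos.le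
      have h8 : (Z : ℝ) * Real.exp (-L) * (Real.exp L * (1 + d)) = Z * (1 + d) := by
        have : Real.exp (-L) * Real.exp L = 1 := by
          rw [← Real.exp_add]
          simp
        linear_combination (Z : ℝ) * (1 + d) * this
      rwa [h8] at h7
  have h9 : (Z : ℝ) ≤ (nv s x : ℝ) / (1 + d) *
      (2 ^ (v.take i).sum / 3 ^ (v.take i).length) := by
    rw [div_mul_eq_mul_div, le_div_iff₀ (by linarith)]
    exact key
  have h10 : (Z : ℝ) ≤ (nv s (nd x (v.take i)) : ℝ) := h9.trans h3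
  exact_mod_cast h10

theorem window {s : ℤ} (hs : s = 1 ∨ s = -1) {e : ℝ} {i0 : ℕ} {S L d : ℝ} (hS0 : 0 ≤ S)
    (hS : ∀ (s x : ℤ) (v : List ℕ), (s = 1 ∨ s = -1) → (∀ k ∈ v, 1 ≤ k) → Ala x v → Gd e i0 v →
      |(nv s (nd x v) : ℝ) - nv s x * (2 ^ v.sum / 3 ^ v.length)| ≤ S * (2 ^ v.sum / 3 ^ v.length))
    (hd : 0 < d) {Z : ℤ} (hZ0 : 0 < Z) (hZ : S * (1 + 1 / d) * Real.exp L ≤ Z) {x : ℤ}
    (hx : (Z : ℝ) * Real.exp (-L) ≤ nv s x) {X : ℝ} (hX : 0 < X)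
    {v : List ℕ} (hv : ∀ k ∈ v, 1 ≤ k) (hA : Ala x v) (hG : Gd e i0 v)
    (hSt : St (X * (1 + d) / nv s x) v.length v.sum) :
    X ≤ (nv s (nd x v) : ℝ) ∧ (nv s (nd x v) : ℝ) < 2 * X * (1 + d) ^ 2 ∧
      ww v / (nv s x * (1 + d)) ≤ 1 / (nv s (nd x v) : ℝ) := by
  obtain ⟨hpos, hhalf, hdbl⟩ := Geo_half hS0 hd hZ hx hZ0
  obtain ⟨h2, h2'⟩ := abs_le.mp (hS s x v hs hv hA hG)
  have h3l : (0 : ℝ) < 3 ^ v.length := by positivity
  have hR : (0 : ℝ) < 2 ^ v.sum / 3 ^ v.length := by positivity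
  have h3 : (nv s x : ℝ) / (1 + d) * (2 ^ v.sum / 3 ^ v.length) ≤ (nv s (nd x v) : ℝ) := by
    have h4 := mul_le_mul_of_nonneg_right hhalf hR.le
    rw [sub_mul] at h4
    linarith
  have h3' : (nv s (nd x v) : ℝ) ≤ (nv s x : ℝ) * (1 + d) * (2 ^ v.sum / 3 ^ v.length) := by
    have h4 := mul_le_mul_of_nonneg_right hdbl hR.le
    rw [add_mul] at h4
    linarith
  obtain ⟨s1, s2⟩ := hSt
  have a1 : X * (1 + d) / (nv s x : ℝ) ≤ 2 ^ v.sum / 3 ^ v.length := by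
    rw [le_div_iff₀ h3l]
    exact s1
  have a2 : (2 : ℝ) ^ v.sum / 3 ^ v.length < 2 * (X * (1 + d) / (nv s x : ℝ)) := by
    rw [div_lt_iff₀ h3l]
    exact s2
  have b1 : X * (1 + d) ≤ (nv s x : ℝ) * (2 ^ v.sum / 3 ^ v.length) := by
    rw [div_le_iff₀ hpos] at a1
    linarith
  have b2 : (nv s x : ℝ) * (2 ^ v.sum / 3 ^ v.length) < 2 * X * (1 + d) := by
    have := mul_lt_mul_of_pos_left a2 hpos
    have e : (nv s x : ℝ) * (2 * (X * (1 + d) / (nv s x : ℝ))) = 2 * X * (1 + d) := by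
      field_simp
    rwa [e] at this
  have c1 : X ≤ (nv s (nd x v) : ℝ) := by
    refine le_trans ?_ h3
    rw [div_mul_eq_mul_div, le_div_iff₀ (by linarith)]
    exact b1
  have c2 : 0 < (nv s (nd x v) : ℝ) := hX.trans_le c1
  refine ⟨c1, h3'.trans_lt ?_, ?_⟩
  · have h5 : (nv s x : ℝ) * (1 + d) * (2 ^ v.sum / 3 ^ v.length) =
        ((nv s x : ℝ) * (2 ^ v.sum / 3 ^ v.length)) * (1 + d) := by ring
    have h6 : 2 * X * (1 + d) ^ 2 = (2 * X * (1 + d)) * (1 + d) := by ring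
    rw [h5, h6]
    exact mul_lt_mul_of_pos_right b2 (by linarith)
  · have e : ww v / ((nv s x : ℝ) * (1 + d)) =
        1 / ((nv s x : ℝ) * (1 + d) * (2 ^ v.sum / 3 ^ v.length)) := by
      unfold ww
      field_simp
    rw [e]
    exact div_le_div_of_nonneg_left zero_le_one c2 h3'

end Pool.Agent.helper4.BAS
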