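import Pool.Agent.helper4.BAS.Defs
import Pool.Agent.helper14.EX1.Wrd

/-!
# BAS-Prog: the roots of a word, sum of the reciprocals, both signs

Copy of helper24's `T2/Prog.lean` (store `T2b_Prog.lean`) with the roots `x ∈ (-Z, Z)` of sign `s`: `x ≥ 0` for `s = 1`, `x < 0` for
`s = -1`.  The word `u` of length `l` is allowed exactly for one class modulo `N = 3 ^ l`; `nv s x` runs through an arithmetic progression with
difference `3 N`; exactly one of four consecutive terms is divisible by `4`; for a block `z, z + 3N, z + 6N, z + 9N` the three good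
terms are each `≥ 1 / (z + 12 N)`, `3 / (z + 12 N) ≥ (1 / (4 N)) log ((z + 12 N) / z) (z / (z + 12 N))`; telescoping.
-/

namespace Pool.Agent.helper4.BAS

open Finset Pool.Agent.helper14.EX1

theorem Prog_block {c : ℝ} {w N : ℕ} (hN : Odd N) {g : ℕ → ℝ} (hg0 : ∀ j, 0 ≤ g j)
    (hg : ∀ j : ℕ, j < 4 → ¬ 4 ∣ w + 3 * N * j → c ≤ g j) :
    3 * c ≤ g 0 + g 1 + g 2 + g 3 := by
  obtain ⟨k, rfl⟩ := hN
  have e : ∀ j, j < 4 → (if 4 ∣ w + 3 * (2 * k + 1) * j then 0 else c) ≤ g j := by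
    intro j hj
    split_ifs with h
    · exact hg0 j
    · exact hg j hj h
  have e0 := e 0 (by norm_num)
  have e1 := e 1 (by norm_num)
  have e2 := e 2 (by norm_num)
  have e3 := e 3 (by norm_num)
  have hw : w % 4 = 0 ∨ w % 4 = 1 ∨ w % 4 = 2 ∨ w % 4 = 3 := by omega
  have hk : k % 2 = 0 ∨ k % 2 = 1 := by omega
  rcases hw with hw | hw | hw | hw <;> rcases hk with hk | hk <;> split_ifs at e0 e1 e2 e3 <;>
    first | (exfalso; omega) | linarith

theorem Prog_root {u : List ℕ} (hk : ∀ k ∈ u, 1 ≤ k) :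
    ∃ x0 : ℕ, x0 < 3 ^ u.length ∧ Ala (x0 : ℤ) u := by
  by_contra h
  push Not at h
  have h1 := ala_count u hk
  rw [sum_eq_zero fun x hx => if_neg (h x (mem_range.1 hx))] at h1
  norm_num at h1

/-- The telescoping over the blocks. -/
theorem Prog_tel {g : ℕ → ℝ} (hg0 : ∀ t, 0 ≤ g t) {N : ℕ} (hN : Odd N) {w b0 : ℕ} (hw0 : 0 < w)
    (hg : ∀ t : ℕ, 4 * b0 ≤ t → ¬ 4 ∣ w + 3 * N * t → 1 / (w + 3 * N * t : ℝ) ≤ g t) (b : ℕ)
    (hb : b0 ≤ b) :
    1 / (4 * (N : ℝ)) * (Real.log (w + 12 * N * (b + 1)) -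
      Real.log (w + 12 * N * (b0 + 1))) ≤ ∑ t ∈ range (4 * b), g t := by
  have hN1 : 1 ≤ N := hN.pos
  have hNr : (1 : ℝ) ≤ N := by exact_mod_cast hN1
  have hwr : (0 : ℝ) < w := by exact_mod_cast hw0
  induction b, hb using Nat.le_induction with
  | base =>
    rw [sub_self, mul_zero]
    exact sum_nonneg fun t _ => hg0 _
  | succ b hb ih =>
    rw [show 4 * (b + 1) = 4 * b + 4 by ring, sum_range_add]
    have hw : (0 : ℝ) < w + 12 * N * (b + 1) := by positivity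
    have hb1 : 3 * (1 / (w + 12 * N * (b + 1) : ℝ)) ≤ ∑ j ∈ range 4, g (4 * b + j) := by
      rw [sum_range_succ, sum_range_succ, sum_range_succ, sum_range_succ, sum_range_zero, zero_add]
      refine Prog_block (w := w + 3 * N * (4 * b)) hN (g := fun j => g (4 * b + j))
        (fun j => hg0 _) ?_
      intro j hj h4
      refine le_trans ?_ (hg (4 * b + j) (by omega) ?_)
      · refine one_div_le_one_div_of_le (by positivity) ?_
        have hj' : (j : ℝ) ≤ 4 := by exact_mod_cast hj.le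
        push_cast
        nlinarith
      · intro h
        apply h4
        convert h using 1
        ring
    have hlog : Real.log (w + 12 * N * ((b : ℝ) + 1 + 1)) - Real.log (w + 12 * N * ((b : ℝ) + 1)) ≤
        12 * N * (1 / (w + 12 * N * (b + 1) : ℝ)) := by
      rw [← Real.log_div (by positivity) hw.ne']
      refine (Real.log_le_sub_one_of_pos (by positivity)).trans (le_of_eq ?_)
      field_simp
      ring
    have h4N : (0 : ℝ) < 1 / (4 * (N : ℝ)) := by positivity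
    have h2 := mul_le_mul_of_nonneg_left hlog h4N.le
    have h3 : 1 / (4 * (N : ℝ)) * (12 * N * (1 / (w + 12 * N * (b + 1) : ℝ))) =
        3 * (1 / (w + 12 * N * (b + 1) : ℝ)) := by
      field_simp
      norm_num
    push_cast
    rw [h3] at h2
    linarith

/-- The roots of sign `s` of a word: an arithmetic progression of nodes. -/
theorem Prog_fam {s : ℤ} (hs : s = 1 ∨ s = -1) {u : List ℕ} (hk : ∀ k ∈ u, 1 ≤ k) :
    ∃ (w : ℕ) (X : ℕ → ℤ), 0 < w ∧ w ≤ 3 * 3 ^ u.length ∧ (∀ t, Ala (X t) u) ∧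
      ∀ t : ℕ, nv s (X t) = ((w + 3 * 3 ^ u.length * t : ℕ) : ℤ) := by
  obtain ⟨x0, hx0, hA0⟩ := Prog_root hk
  rcases hs with rfl | rfl
  · refine ⟨3 * x0 + 2, fun t => (x0 : ℤ) + 3 ^ u.length * t, by omega, by omega, fun t => ?_, fun t => ?_⟩
    · exact (ala_shift u (x0 : ℤ) (t : ℤ)).2 hA0
    · simp only [nv]
      push_cast
      ring
  · refine ⟨3 * (3 ^ u.length - x0) - 2, fun t => (x0 : ℤ) + 3 ^ u.length * (-(t : ℤ) - 1), by omega, by omega,
      fun t => ?_, fun t => ?_⟩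
    · exact (ala_shift u (x0 : ℤ) _).2 hA0
    · simp only [nv]
      rw [Nat.cast_add, Nat.cast_sub (by omega), Nat.cast_mul, Nat.cast_sub hx0.le]
      push_cast
      ring

open Classical in
theorem prog {s : ℤ} (hs : s = 1 ∨ s = -1) (l : ℕ) {L d : ℝ} (hL : 1 ≤ L) (hd : 0 < d) :
    ∃ Z0 : ℕ, ∀ Z : ℕ, Z0 ≤ Z →
    ∀ u : List ℕ, u.length = l → (∀ k ∈ u, 1 ≤ k) → ∀ y : ℝ, y ≤ L →
      (y - d) / (4 * 3 ^ l) ≤ ∑ x ∈ Ico (-(Z : ℤ)) Z,
        (if Ala x u ∧ ¬ (4 : ℤ) ∣ 3 * x + 2 ∧ (Z : ℝ) * Real.exp (-y) ≤ nv s x ∧ (nv s x : ℝ) < Z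
          then 1 / (nv s x : ℝ) else 0) := by
  have hN1 : 1 ≤ 3 ^ l := Nat.one_le_pow _ _ (by norm_num)
  have hodd : Odd (3 ^ l) := Odd.pow (by decide)
  have hcast : ((3 ^ l : ℕ) : ℝ) = (3 : ℝ) ^ l := by push_cast; rfl
  rw [← hcast]
  generalize hNN : (3 ^ l : ℕ) = N at hN1 hodd
  have hNr : (1 : ℝ) ≤ N := by exact_mod_cast hN1
  refine ⟨⌈24 * (N : ℝ) * Real.exp L * (1 + 1 / d)⌉₊, fun Z hZ u hu hk y hy => ?_⟩
  have hZ' : 24 * (N : ℝ) * Real.exp L * (1 + 1 / d) ≤ Z := Nat.ceil_le.1 hZ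
  have hF0 : ∀ (x : ℤ), 0 ≤ (if Ala x u ∧ ¬ (4 : ℤ) ∣ 3 * x + 2 ∧ (Z : ℝ) * Real.exp (-y) ≤ nv s x ∧
      (nv s x : ℝ) < Z then 1 / (nv s x : ℝ) else 0) := by
    intro x
    split_ifs with h
    · have h1 : (0 : ℝ) ≤ (Z : ℝ) * Real.exp (-y) := by positivity
      exact one_div_nonneg.2 (h1.trans h.2.2.1)
    · exact le_rfl
  rcases le_or_gt y d with hyd | hyd
  · refine le_trans ?_ (sum_nonneg fun x _ => hF0 x)
    exact div_nonpos_of_nonpos_of_nonneg (by linarith) (by positivity)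
  obtain ⟨a, ha⟩ : ∃ a : ℝ, a = (Z : ℝ) * Real.exp (-y) := ⟨_, rfl⟩
  simp only [← ha] at hF0 ⊢
  have haN : 24 * (N : ℝ) * (1 + 1 / d) ≤ a := by
    have h1 : Real.exp (-L) ≤ Real.exp (-y) := Real.exp_le_exp.2 (by linarith)
    have h2 : 24 * (N : ℝ) * (1 + 1 / d) = 24 * (N : ℝ) * Real.exp L * (1 + 1 / d) * Real.exp (-L) := by
      have h := Real.exp_add L (-L)
      rw [add_neg_cancel, Real.exp_zero] at h
      linear_combination (24 * (N : ℝ) * (1 + 1 / d)) * h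
    rw [h2, ha]
    exact mul_le_mul hZ' h1 (Real.exp_pos _).le (Nat.cast_nonneg _)
  have hd1 : 0 < 1 / d := by positivity
  have ha1 : 24 * (N : ℝ) ≤ a := by nlinarith
  have ha2 : 24 * (N : ℝ) ≤ a * d := by
    have h := mul_le_mul_of_nonneg_right haN hd.le
    have h2 : 24 * (N : ℝ) * (1 + 1 / d) * d = 24 * N * d + 24 * N := by
      field_simp
    have h3 : 0 ≤ 24 * (N : ℝ) * d := by positivity
    linarith
  have ha0 : 0 < a := by linarith
  have hZa : (Z : ℝ) = a * Real.exp y := by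
    rw [ha, mul_assoc, ← Real.exp_add, neg_add_cancel, Real.exp_zero, mul_one]
  have hZ1 : a + 24 * N ≤ Z := by
    have h1 := Real.add_one_le_exp y
    have h2 := mul_le_mul_of_nonneg_left h1 ha0.le
    have h3 := mul_le_mul_of_nonneg_left hyd.le ha0.le
    rw [hZa]
    linarith
  have hZ0 : (0 : ℝ) < Z := by linarith
  obtain ⟨w, X, hw0, hw1, hXA, hXn⟩ := Prog_fam hs hk
  rw [hu, hNN] at hw1 hXn
  have hwr0 : (0 : ℝ) < w := by exact_mod_cast hw0
  have hwr : (w : ℝ) ≤ 3 * N := by exact_mod_cast hw1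
  obtain ⟨b0, hb0, hb0'⟩ : ∃ b : ℕ, a ≤ w + 12 * N * b ∧ (w + 12 * N * b : ℝ) ≤ a + 12 * N := by
    refine ⟨⌈(a - w) / (12 * N)⌉₊, ?_, ?_⟩
    · have h := Nat.le_ceil ((a - w) / (12 * N))
      rw [div_le_iff₀ (by positivity)] at h
      linarith
    · have h0 : 0 ≤ (a - w) / (12 * N) := div_nonneg (by linarith) (by positivity)
      have h := (Nat.ceil_lt_add_one h0).le
      rw [← sub_le_iff_le_add, le_div_iff₀ (by positivity)] at h
      linarith
  obtain ⟨b1, hb1, hb1'⟩ : ∃ b : ℕ, (w + 12 * N * b : ℝ) ≤ Z ∧ (Z : ℝ) ≤ w + 12 * N * (b + 1) := by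
    have h0 : 0 ≤ ((Z : ℝ) - w) / (12 * N) := div_nonneg (by linarith) (by positivity)
    refine ⟨⌊((Z : ℝ) - w) / (12 * N)⌋₊, ?_, ?_⟩
    · have h := Nat.floor_le h0
      rw [le_div_iff₀ (by positivity)] at h
      linarith
    · have h := (Nat.lt_floor_add_one (((Z : ℝ) - w) / (12 * N))).le
      rw [div_le_iff₀ (by positivity)] at h
      linarith
  have hbb : b0 ≤ b1 := by
    by_contra hc
    have hc' : (b1 : ℝ) + 1 ≤ b0 := by
      have : b1 + 1 ≤ b0 := by omega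
      exact_mod_cast this
    have h1 : 12 * (N : ℝ) * (b1 + 1) ≤ 12 * N * b0 := mul_le_mul_of_nonneg_left hc' (by positivity)
    linarith
  have hcastn : ∀ t : ℕ, (nv s (X t) : ℝ) = w + 3 * N * t := by
    intro t
    rw [hXn t]
    push_cast
    ring
  have hlt : ∀ t, t < 4 * b1 → (nv s (X t) : ℝ) < Z := by
    intro t ht
    rw [hcastn]
    have h1 : (t : ℝ) < 4 * b1 := by exact_mod_cast ht
    nlinarith
  have hdvd : ∀ x : ℤ, (4 : ℤ) ∣ 3 * x + 2 → (4 : ℤ) ∣ nv s x := by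
    intro x hx
    simp only [nv]
    exact Dvd.dvd.mul_left hx s
  have htel := Prog_tel
    (g := fun t : ℕ => if t < 4 * b1 then (if Ala (X t) u ∧ ¬ (4 : ℤ) ∣ 3 * X t + 2 ∧ a ≤ nv s (X t) ∧
      (nv s (X t) : ℝ) < Z then 1 / (nv s (X t) : ℝ) else 0) else 1)
    (fun t => by
      split_ifs with h1 h2
      · exact one_div_nonneg.2 (ha0.le.trans h2.2.2.1)
      · exact le_rfl
      · exact zero_le_one) hodd (w := w) (b0 := b0) hw0 (by
      intro t ht h4
      have hc1 : ¬ (4 : ℤ) ∣ 3 * X t + 2 := by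
        intro h
        apply h4
        have h5 := hdvd _ h
        rw [hXn t] at h5
        exact_mod_cast h5
      have hc2 : a ≤ nv s (X t) := by
        rw [hcastn]
        have ht' : 4 * (b0 : ℝ) ≤ t := by exact_mod_cast ht
        have h1 : 3 * (N : ℝ) * (4 * b0) ≤ 3 * N * t := mul_le_mul_of_nonneg_left ht' (by positivity)
        linarith
      split_ifs with h1 h2
      · rw [hcastn]
      · exact absurd ⟨hXA t, hc1, hc2, hlt t h1⟩ h2
      · rw [div_le_one (by positivity)]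
        have h5 : (1 : ℝ) ≤ w := by exact_mod_cast hw0
        have h6 : (0 : ℝ) ≤ 3 * N * t := by positivity
        linarith) b1 hbb
  have hinj : Function.Injective X := by
    intro t t' h
    have h1 : (nv s (X t) : ℝ) = nv s (X t') := by rw [h]
    rw [hcastn, hcastn] at h1
    have h2 : (3 * N : ℝ) * t = 3 * N * t' := by linarith
    have h3 : (t : ℝ) = t' := mul_left_cancel₀ (by positivity) h2
    exact_mod_cast h3
  have hsum : ∑ t ∈ range (4 * b1), (if t < 4 * b1 then (if Ala (X t) u ∧ ¬ (4 : ℤ) ∣ 3 * X t + 2 ∧ a ≤ nv s (X t) ∧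
      (nv s (X t) : ℝ) < Z then 1 / (nv s (X t) : ℝ) else 0) else 1) ≤
      ∑ x ∈ Ico (-(Z : ℤ)) Z, (if Ala x u ∧ ¬ (4 : ℤ) ∣ 3 * x + 2 ∧ a ≤ nv s x ∧ (nv s x : ℝ) < Z
          then 1 / (nv s x : ℝ) else 0) := by
    have h1 : ∑ t ∈ range (4 * b1), (if t < 4 * b1 then (if Ala (X t) u ∧ ¬ (4 : ℤ) ∣ 3 * X t + 2 ∧ a ≤ nv s (X t) ∧
      (nv s (X t) : ℝ) < Z then 1 / (nv s (X t) : ℝ) else 0) else 1) =
        ∑ x ∈ (range (4 * b1)).image X, (if Ala x u ∧ ¬ (4 : ℤ) ∣ 3 * x + 2 ∧ a ≤ nv s x ∧ (nv s x : ℝ) < Z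
          then 1 / (nv s x : ℝ) else 0) := by
      rw [sum_image fun t _ t' _ h => hinj h]
      exact sum_congr rfl fun t ht => if_pos (mem_range.1 ht)
    rw [h1]
    refine sum_le_sum_of_subset_of_nonneg ?_ fun x _ _ => hF0 x
    intro x hx
    obtain ⟨t, ht, rfl⟩ := mem_image.1 hx
    have h2 := hlt t (mem_range.1 ht)
    have h3 : nv s (X t) < (Z : ℤ) := by exact_mod_cast h2
    have h4 : 0 < nv s (X t) := by
      rw [hXn t]
      have : 0 < w + 3 * N * t := by positivity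
      exact_mod_cast this
    rw [mem_Ico]
    rcases hs with rfl | rfl <;> simp only [nv] at h3 h4 <;> omega
  refine le_trans ?_ (htel.trans hsum)
  have hlog1 : Real.log Z ≤ Real.log (w + 12 * N * (b1 + 1)) := Real.log_le_log hZ0 hb1'
  have hlog2 : Real.log (w + 12 * N * (b0 + 1)) ≤ Real.log a + d := by
    have h1 : (w + 12 * N * (b0 + 1) : ℝ) ≤ a * (1 + d) := by linarith
    refine (Real.log_le_log (by positivity) h1).trans ?_
    rw [Real.log_mul ha0.ne' (by positivity)]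
    have h2 := Real.log_le_sub_one_of_pos (show (0 : ℝ) < 1 + d by linarith)
    linarith
  have hlog3 : Real.log Z = Real.log a + y := by
    rw [hZa, Real.log_mul ha0.ne' (Real.exp_pos _).ne', Real.log_exp]
  rw [div_eq_mul_inv, mul_comm, ← one_div]
  exact mul_le_mul_of_nonneg_left (by linarith) (by positivity)

end Pool.Agent.helper4.BAS
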