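import Pool.Agent.helper4.BAS.Geo
import Pool.Agent.helper4.BAS.Prog
import Pool.Agent.helper4.BAS.Root
import Pool.Agent.helper24.T2.Drift2

/-!
# BAS-Mass: the mass of the first passage words, both signs

Copy of helper24's `T2/Mass.lean` (store `T2b_Mass.lean`, theorem `mass_of`) with the roots `x ∈ Ico (-Z) Z`, `nv s x` instead of `3 x + 2`;
`window` loses a factor `1 + q` in the mass and gives the bound `2 X (1 + q) ^ 2`: choose `q` small (`(1+q)^2 ≤ 1 + d`, `30 q ≤ d`).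
-/

namespace Pool.Agent.helper4.BAS

open Finset Pool.Agent.helper14.EX1 Pool.Agent.helper82.PD Pool.Agent.helper24.T2

theorem Mass_half_sum (K l : ℕ) : ∑ u ∈ lw K l, (1 / 2 : ℝ) ^ u.sum = th K ^ l := by
  induction l with
  | zero => simp [lw]
  | succ n ih =>
    rw [sum_lw_succ]
    simp only [List.sum_cons, pow_add, ← Finset.mul_sum]
    rw [ih, ← Finset.sum_mul, th_eq]
    ring

theorem Mass_half_le (K l : ℕ) : ∑ u ∈ lw K l, (1 / 2 : ℝ) ^ u.sum ≤ 1 := by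
  rw [Mass_half_sum]
  refine pow_le_one₀ ?_ (th_lt_one K).le
  unfold th
  have := pow_le_one₀ (n := K) (by norm_num : (0 : ℝ) ≤ 1 / 2) (by norm_num)
  linarith

theorem Mass_ww (u : List ℕ) : ww u / 3 ^ u.length = (1 / 2 : ℝ) ^ u.sum := by
  unfold ww
  rw [one_div_pow]
  field_simp

/-- The root `x` is used. -/
def Mass_Rt (s : ℤ) (Z : ℕ) (L : ℝ) (x : ℤ) : Prop :=
  ¬ (4 : ℤ) ∣ 3 * x + 2 ∧ (Z : ℝ) * Real.exp (-L) ≤ nv s x ∧ (nv s x : ℝ) < Z

/-- The condition on the first `h` letters. -/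
def Mass_Hc (s : ℤ) (Z : ℕ) (d : ℝ) (x : ℤ) (w : List ℕ) : Prop :=
  (Z : ℝ) * Real.exp (-(Im w - d)) ≤ nv s x

theorem Mass_nn {s : ℤ} {Z : ℕ} {L : ℝ} {x : ℤ} (h : Mass_Rt s Z L x) : (0 : ℝ) ≤ nv s x :=
  le_trans (mul_nonneg (Nat.cast_nonneg Z) (Real.exp_pos _).le) h.2.1

theorem Mass_pp {s : ℤ} {Z : ℕ} (hZ : 0 < Z) {L : ℝ} {x : ℤ} (h : Mass_Rt s Z L x) : (0 : ℝ) < nv s x :=
  lt_of_lt_of_le (mul_pos (Nat.cast_pos.2 hZ) (Real.exp_pos _)) h.2.1

open Classical in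
/-- One word: the roots for which the condition on the first `h` letters holds. -/
theorem Mass_word {s : ℤ} {l h Z : ℕ} {L d : ℝ} (hL : 1 ≤ L) (hd : 0 < d) {u : List ℕ} (hu : u.length = l)
    (hP : ∀ y : ℝ, y ≤ L → (y - d) / (4 * 3 ^ l) ≤ ∑ x ∈ Ico (-(Z : ℤ)) Z,
        (if Ala x u ∧ ¬ (4 : ℤ) ∣ 3 * x + 2 ∧ (Z : ℝ) * Real.exp (-y) ≤ nv s x ∧ (nv s x : ℝ) < Z
          then 1 / (nv s x : ℝ) else 0)) :
    (1 / 2 : ℝ) ^ u.sum * (min L (max 0 (Im (u.take h))) - 2 * d) / 4 ≤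
      ∑ x ∈ Ico (-(Z : ℤ)) Z,
        (if Mass_Rt s Z L x ∧ Ala x u ∧ Mass_Hc s Z d x (u.take h) then ww u / (nv s x : ℝ) else 0) := by
  have hww := ww_pos u
  have hnn : 0 ≤ ∑ x ∈ Ico (-(Z : ℤ)) Z,
      (if Mass_Rt s Z L x ∧ Ala x u ∧ Mass_Hc s Z d x (u.take h) then ww u / (nv s x : ℝ) else 0) := by
    refine Finset.sum_nonneg fun x _ => ?_
    split_ifs with hc
    · exact div_nonneg hww.le (Mass_nn hc.1)
    · exact le_rfl
  have hp : (0 : ℝ) < (1 / 2 : ℝ) ^ u.sum := by positivity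
  by_cases hI : Im (u.take h) < 0
  · have h1 : min L (max 0 (Im (u.take h))) = 0 := by
      rw [max_eq_left hI.le, min_eq_right (by linarith)]
    rw [h1]
    refine le_trans ?_ hnn
    have : 0 ≤ (1 / 2 : ℝ) ^ u.sum * (2 * d) := by positivity
    linarith
  · push Not at hI
    set I := Im (u.take h) with hIdef
    have hy := hP (min L (I - d)) (min_le_left _ _)
    have h1 : min L (max 0 I) - 2 * d ≤ min L (I - d) - d := by
      rw [max_eq_right hI]
      have h2 : min L I - d ≤ min L (I - d) := by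
        refine le_min ?_ ?_
        · have := min_le_left L I
          linarith
        · have := min_le_right L I
          linarith
      linarith
    have h3 : (1 / 2 : ℝ) ^ u.sum * (min L (max 0 I) - 2 * d) / 4 ≤ ww u * ((min L (I - d) - d) / (4 * 3 ^ l)) := by
      have h4 : ww u * ((min L (I - d) - d) / (4 * 3 ^ l)) = (1 / 2 : ℝ) ^ u.sum * (min L (I - d) - d) / 4 := by
        rw [← Mass_ww u, hu]
        field_simp
      rw [h4]
      have := mul_le_mul_of_nonneg_left h1 hp.le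
      linarith
    refine h3.trans ((mul_le_mul_of_nonneg_left hy hww.le).trans ?_)
    rw [Finset.mul_sum]
    refine Finset.sum_le_sum fun x _ => ?_
    split_ifs with hc hc' hc'
    · exact le_of_eq (by ring)
    · exfalso
      apply hc'
      obtain ⟨a1, a2, a3, a4⟩ := hc
      have hZ : (0 : ℝ) ≤ Z := Nat.cast_nonneg Z
      refine ⟨⟨a2, ?_, a4⟩, a1, ?_⟩
      · refine le_trans (mul_le_mul_of_nonneg_left (Real.exp_le_exp.2 ?_) hZ) a3
        have := min_le_left L (I - d)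
        linarith
      · unfold Mass_Hc
        refine le_trans (mul_le_mul_of_nonneg_left (Real.exp_le_exp.2 ?_) hZ) a3
        have := min_le_right L (I - d)
        linarith
    · rw [mul_zero]
      exact div_nonneg hww.le (Mass_nn hc'.1)
    · rw [mul_zero]

open Classical in
/-- All words. -/
theorem Mass_words {s : ℤ} {e : ℝ} {i0 K l h Z : ℕ} {L d : ℝ} (hL : 1 ≤ L) (hd : 0 < d)
    (hP : ∀ u : List ℕ, u.length = l → (∀ k ∈ u, 1 ≤ k) → ∀ y : ℝ, y ≤ L →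
      (y - d) / (4 * 3 ^ l) ≤ ∑ x ∈ Ico (-(Z : ℤ)) Z,
        (if Ala x u ∧ ¬ (4 : ℤ) ∣ 3 * x + 2 ∧ (Z : ℝ) * Real.exp (-y) ≤ nv s x ∧ (nv s x : ℝ) < Z
          then 1 / (nv s x : ℝ) else 0))
    (hD : Real.log (4 / 3) - d ≤
        ∑ u ∈ lw K l, (if Gd e i0 u then (1 / 2 : ℝ) ^ u.sum * min L (max 0 (Im (u.take h))) else 0)) :
    (Real.log (4 / 3) - 3 * d) / 4 ≤ ∑ x ∈ (Ico (-(Z : ℤ)) Z).filter (Mass_Rt s Z L), 1 / (nv s x : ℝ) *
      ∑ u ∈ lw K l, (if Gd e i0 u ∧ Ala x u ∧ Mass_Hc s Z d x (u.take h) then ww u else 0) := by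
  have e1 : ∑ x ∈ (Ico (-(Z : ℤ)) Z).filter (Mass_Rt s Z L), 1 / (nv s x : ℝ) *
      ∑ u ∈ lw K l, (if Gd e i0 u ∧ Ala x u ∧ Mass_Hc s Z d x (u.take h) then ww u else 0) =
      ∑ u ∈ lw K l, (if Gd e i0 u then
        ∑ x ∈ Ico (-(Z : ℤ)) Z, (if Mass_Rt s Z L x ∧ Ala x u ∧ Mass_Hc s Z d x (u.take h)
          then ww u / (nv s x : ℝ) else 0) else 0) := by
    rw [Finset.sum_filter]
    simp only [Finset.mul_sum]
    have e2 : ∀ x ∈ Ico (-(Z : ℤ)) Z, (if Mass_Rt s Z L x then ∑ u ∈ lw K l, 1 / (nv s x : ℝ) *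
        (if Gd e i0 u ∧ Ala x u ∧ Mass_Hc s Z d x (u.take h) then ww u else 0) else 0) =
        ∑ u ∈ lw K l, (if Gd e i0 u ∧ (Mass_Rt s Z L x ∧ Ala x u ∧ Mass_Hc s Z d x (u.take h))
          then ww u / (nv s x : ℝ) else 0) := by
      intro x _
      by_cases hr : Mass_Rt s Z L x
      · rw [if_pos hr]
        refine Finset.sum_congr rfl fun u _ => ?_
        by_cases hc : Gd e i0 u ∧ Ala x u ∧ Mass_Hc s Z d x (u.take h)
        · rw [if_pos hc, if_pos ⟨hc.1, hr, hc.2⟩]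
          ring
        · rw [if_neg hc, if_neg (fun h' => hc ⟨h'.1, h'.2.2⟩), mul_zero]
      · rw [if_neg hr]
        symm
        refine Finset.sum_eq_zero fun u _ => if_neg (fun h' => hr h'.2.1)
    rw [Finset.sum_congr rfl e2, Finset.sum_comm]
    refine Finset.sum_congr rfl fun u _ => ?_
    by_cases hg : Gd e i0 u
    · rw [if_pos hg]
      refine Finset.sum_congr rfl fun x _ => ?_
      simp only [hg, true_and]
    · rw [if_neg hg]
      exact Finset.sum_eq_zero fun x _ => if_neg (fun h' => hg h'.1)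
  rw [e1]
  have h1 : ∀ u ∈ lw K l, (if Gd e i0 u then (1 / 2 : ℝ) ^ u.sum * min L (max 0 (Im (u.take h))) else 0) / 4 -
      (1 / 2 : ℝ) ^ u.sum * (2 * d) / 4 ≤
      (if Gd e i0 u then
        ∑ x ∈ Ico (-(Z : ℤ)) Z, (if Mass_Rt s Z L x ∧ Ala x u ∧ Mass_Hc s Z d x (u.take h)
          then ww u / (nv s x : ℝ) else 0) else 0) := by
    intro u hu
    obtain ⟨hlen, hlet⟩ := mem_lw.1 hu
    by_cases hg : Gd e i0 u
    · rw [if_pos hg, if_pos hg]
      have := Mass_word (h := h) hL hd hlen (hP u hlen (fun k hk => (hlet k hk).1))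
      refine le_trans (le_of_eq ?_) this
      ring
    · rw [if_neg hg, if_neg hg]
      have : 0 ≤ (1 / 2 : ℝ) ^ u.sum * (2 * d) := by positivity
      linarith
  refine le_trans ?_ (Finset.sum_le_sum h1)
  rw [Finset.sum_sub_distrib, ← Finset.sum_div]
  have h2 : ∑ u ∈ lw K l, (1 / 2 : ℝ) ^ u.sum * (2 * d) / 4 = (∑ u ∈ lw K l, (1 / 2 : ℝ) ^ u.sum) * (2 * d) / 4 := by
    rw [Finset.sum_mul, Finset.sum_div]
  rw [h2]
  have h3 := Mass_half_le K l
  have h4 : (∑ u ∈ lw K l, (1 / 2 : ℝ) ^ u.sum) * (2 * d) ≤ 1 * (2 * d) :=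
    mul_le_mul_of_nonneg_right h3 (by positivity)
  linarith

theorem Mass_log43 : (1 / 4 : ℝ) ≤ Real.log (4 / 3) := by
  have h := Real.one_sub_inv_le_log_of_pos (by norm_num : (0 : ℝ) < 4 / 3)
  norm_num at h ⊢
  linarith

theorem Mass_disj (K l r : ℕ) : ∀ i ∈ range (r + 1), ∀ j ∈ range (r + 1), i ≠ j →
    Disjoint (lw K (l + i)) (lw K (l + j)) := by
  intro i _ j _ hij
  rw [Finset.disjoint_left]
  intro v hv hv'
  have h1 := (mem_lw.1 hv).1
  have h2 := (mem_lw.1 hv').1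
  omega

/-- The condition on a pair. -/
def Mass_Pc (s : ℤ) (e : ℝ) (i0 h Z : ℕ) (L d X : ℝ) (p : ℤ × List ℕ) : Prop :=
  Mass_Rt s Z L p.1 ∧ Gd e i0 p.2 ∧ Ala p.1 p.2 ∧ Mass_Hc s Z d p.1 (p.2.take h) ∧
    St (X * (1 + d) / nv s p.1) p.2.length p.2.sum

open Classical in
/-- The pairs. -/
noncomputable def Mass_PP (s : ℤ) (e : ℝ) (i0 h l K r Z : ℕ) (L d X : ℝ) : Finset (ℤ × List ℕ) :=
  ((Ico (-(Z : ℤ)) Z) ×ˢ ((range (r + 1)).biUnion (fun j => lw K (l + j)))).filter (Mass_Pc s e i0 h Z L d X)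

open Classical in
theorem Mass_sum {s : ℤ} {e : ℝ} {i0 h l K r Z : ℕ} {L d X : ℝ}
    (hw : ∀ (x : ℤ) (v : List ℕ), (∀ k ∈ v, 1 ≤ k) → Mass_Pc s e i0 h Z L d X (x, v) →
      ww v / (nv s x * (1 + d)) ≤ 1 / (nv s (nd x v) : ℝ)) :
    (∑ x ∈ (Ico (-(Z : ℤ)) Z).filter (Mass_Rt s Z L), 1 / (nv s x : ℝ) *
      ∑ j ∈ range (r + 1), ∑ v ∈ lw K (l + j),
        (if Gd e i0 v ∧ Ala x v ∧ Mass_Hc s Z d x (v.take h) ∧ St (X * (1 + d) / nv s x) (l + j) v.sum
          then ww v else 0)) / (1 + d) ≤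
    ∑ p ∈ Mass_PP s e i0 h l K r Z L d X, 1 / (nv s (nd p.1 p.2) : ℝ) := by
  unfold Mass_PP
  rw [Finset.sum_div, Finset.sum_filter, Finset.sum_filter, Finset.sum_product]
  refine Finset.sum_le_sum fun x _ => ?_
  rw [Finset.sum_biUnion (Mass_disj K l r)]
  by_cases hr : Mass_Rt s Z L x
  · rw [if_pos hr, Finset.mul_sum, Finset.sum_div]
    refine Finset.sum_le_sum fun j _ => ?_
    rw [Finset.mul_sum, Finset.sum_div]
    refine Finset.sum_le_sum fun v hv => ?_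
    obtain ⟨hlen, hlet⟩ := mem_lw.1 hv
    by_cases hc : Gd e i0 v ∧ Ala x v ∧ Mass_Hc s Z d x (v.take h) ∧ St (X * (1 + d) / nv s x) (l + j) v.sum
    · rw [if_pos hc]
      have hpc : Mass_Pc s e i0 h Z L d X (x, v) := by
        refine ⟨hr, hc.1, hc.2.1, hc.2.2.1, ?_⟩
        have := hc.2.2.2
        rw [← hlen] at this
        exact this
      rw [if_pos hpc]
      refine le_trans (le_of_eq ?_) (hw x v (fun k hk => (hlet k hk).1) hpc)
      rw [one_div_mul_eq_div, div_div]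
    · rw [if_neg hc, mul_zero, zero_div]
      have hpc : ¬ Mass_Pc s e i0 h Z L d X (x, v) := by
        intro hpc
        apply hc
        refine ⟨hpc.2.1, hpc.2.2.1, hpc.2.2.2.1, ?_⟩
        have := hpc.2.2.2.2
        simp only [hlen] at this
        exact this
      rw [if_neg hpc]
  · rw [if_neg hr]
    refine Finset.sum_nonneg fun j _ => Finset.sum_nonneg fun v _ => ?_
    have hpc : ¬ Mass_Pc s e i0 h Z L d X (x, v) := fun hpc => hr hpc.1
    rw [if_neg hpc]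

open Classical in
theorem Mass_rts {s : ℤ} {Z : ℕ} (hZ : 0 < Z) (L : ℝ) :
    ∑ x ∈ (Ico (-(Z : ℤ)) Z).filter (Mass_Rt s Z L), 1 / (nv s x : ℝ) ≤ 2 * Real.exp L := by
  have hZ' : (0 : ℝ) < Z := Nat.cast_pos.2 hZ
  have h1 : ∀ x ∈ (Ico (-(Z : ℤ)) Z).filter (Mass_Rt s Z L), 1 / (nv s x : ℝ) ≤ Real.exp L / Z := by
    intro x hx
    have hx0 := Mass_pp hZ (Finset.mem_filter.1 hx).2
    have h2 := (Finset.mem_filter.1 hx).2.2.1
    rw [Real.exp_neg] at h2
    have he := Real.exp_pos L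
    rw [div_le_div_iff₀ hx0 hZ']
    have h3 : (Z : ℝ) * (Real.exp L)⁻¹ * Real.exp L = Z := by field_simp
    have h4 := mul_le_mul_of_nonneg_right h2 he.le
    rw [h3] at h4
    linarith
  refine (Finset.sum_le_card_nsmul _ _ _ h1).trans ?_
  have hc : (((Ico (-(Z : ℤ)) Z).filter (Mass_Rt s Z L)).card : ℝ) ≤ 2 * Z := by
    have h2 := Finset.card_filter_le (Ico (-(Z : ℤ)) Z) (Mass_Rt s Z L)
    rw [Int.card_Ico] at h2
    have h3 : ((Z : ℤ) - -(Z : ℤ)).toNat = 2 * Z := by omega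
    rw [h3] at h2
    exact_mod_cast h2
  rw [nsmul_eq_mul]
  have he := Real.exp_pos L
  calc (((Ico (-(Z : ℤ)) Z).filter (Mass_Rt s Z L)).card : ℝ) * (Real.exp L / Z) ≤
        (2 * Z) * (Real.exp L / Z) := mul_le_mul_of_nonneg_right hc (by positivity)
    _ = 2 * Real.exp L := by field_simp

theorem mass_of {s : ℤ} (hs : s = 1 ∨ s = -1)
    (hV : ∀ (e : ℝ) (i0 : ℕ), 0 < e → e ≤ 1 / 100 → VisH e i0) (hB : EvB)
    {e d : ℝ} (he : 0 < e) (he1 : e ≤ 1 / 100) (hd : 0 < d) (Z1 : ℤ) :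
    ∃ (Z : ℤ) (X0 : ℕ), Z1 ≤ Z ∧ ∀ X : ℕ, X0 ≤ X → ∃ P : Finset (ℤ × List ℕ),
      (∀ p ∈ P, FP s Z p.1 p.2 ∧ Typ e p.2 ∧ (X : ℝ) ≤ (nv s (nd p.1 p.2) : ℝ) ∧
        (nv s (nd p.1 p.2) : ℝ) < 2 * X * (1 + d)) ∧
      (Real.log 2 - d) / 4 ≤ ∑ p ∈ P, 1 / (nv s (nd p.1 p.2) : ℝ) := by
  classical
  -- the small constant
  set q : ℝ := min d 1 / 100 with hq
  have hq0 : 0 < q := by positivity
  have hq1 : q ≤ 1 / 100 := by
    rw [hq]
    have := min_le_right d 1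
    linarith
  have hqd : 22 * q ≤ d := by
    rw [hq]
    have := min_le_left d 1
    have : 0 < min d 1 := by positivity
    linarith
  have hqd' : (1 + q) ^ 2 ≤ 1 + d := by nlinarith
  obtain ⟨L, i0, hL, hi0, hdr⟩ := drift2 (e := e) he hq0
  obtain ⟨S, hS0, hS⟩ := offs he he1 i0
  obtain ⟨h', hh'⟩ := pow_unbounded_of_one_lt (Real.exp L * (1 + q)) (by norm_num : (1 : ℝ) < 13 / 10)
  set h : ℕ := max h' i0 with hh
  have hh0 : i0 ≤ h := le_max_right _ _
  have hh1 : 1 ≤ h := hi0.trans hh0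
  have hhe : Real.exp L * (1 + q) ≤ (13 / 10 : ℝ) ^ h :=
    hh'.le.trans (pow_le_pow_right₀ (by norm_num) (le_max_left _ _))
  obtain ⟨n0, hn0⟩ := hV e i0 he he1 (q * Real.exp (-L)) (by positivity)
  set l : ℕ := max n0 (2 * h) with hl
  have hl0 : n0 ≤ l := le_max_left _ _
  have hl2 : 2 * h ≤ l := le_max_right _ _
  have hhl : h ≤ l := by omega
  have hVl := hn0 h l hl0 (by omega)
  obtain ⟨Z0, hZ0⟩ := prog hs l hL hq0
  obtain ⟨Z2, hZ2⟩ := exists_nat_ge (S * (1 + 1 / q) * Real.exp L)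
  set Z : ℕ := max (max Z0 Z2) (max Z1.toNat 1) with hZ
  have hZpos : 0 < Z := lt_of_lt_of_le one_pos ((le_max_right _ _).trans (le_max_right _ _))
  have hZa : Z0 ≤ Z := (le_max_left _ _).trans (le_max_left _ _)
  have hZb : Z2 ≤ Z := (le_max_right _ _).trans (le_max_left _ _)
  have hZc : Z1.toNat ≤ Z := (le_max_left _ _).trans (le_max_right _ _)
  have hZS : S * (1 + 1 / q) * Real.exp L ≤ (Z : ℝ) := hZ2.trans (Nat.cast_le.2 hZb)
  obtain ⟨X0, hX0⟩ := root s (B := (Z : ℝ)) he he1 hq0 (hh0.trans hhl) hVl hB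
  obtain ⟨X1, hX1⟩ := exists_nat_ge X0
  refine ⟨(Z : ℤ), max X1 1, ?_, ?_⟩
  · have := Int.self_le_toNat Z1
    have : (Z1.toNat : ℤ) ≤ (Z : ℤ) := by exact_mod_cast hZc
    linarith
  intro X hX
  have hXpos : 0 < X := lt_of_lt_of_le one_pos ((le_max_right _ _).trans hX)
  have hXr : (0 : ℝ) < X := Nat.cast_pos.2 hXpos
  have hXX : X0 ≤ (X : ℝ) := hX1.trans (Nat.cast_le.2 ((le_max_left _ _).trans hX))
  obtain ⟨K0, hK0⟩ := hdr h l hh1 hhl
  obtain ⟨K, r, hK, hroot⟩ := hX0 X hXX K0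
  have hZi : (0 : ℤ) < (Z : ℤ) := by exact_mod_cast hZpos
  have hZSi : S * (1 + 1 / q) * Real.exp L ≤ ((Z : ℤ) : ℝ) := by
    rw [Int.cast_natCast]; exact hZS
  -- the window
  have hwin : ∀ (x : ℤ) (v : List ℕ), (∀ k ∈ v, 1 ≤ k) → Mass_Pc s e i0 h Z L q X (x, v) →
      (X : ℝ) ≤ (nv s (nd x v) : ℝ) ∧ (nv s (nd x v) : ℝ) < 2 * X * (1 + q) ^ 2 ∧
        ww v / (nv s x * (1 + q)) ≤ 1 / (nv s (nd x v) : ℝ) := by
    intro x v hv hp
    obtain ⟨⟨_, p2, _⟩, p4, p5, _, p7⟩ := hp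
    exact window hs (x := x) (Z := (Z : ℤ)) (X := X) (d := q) (L := L) hS0 hS hq0 hZi hZSi
      (by rw [Int.cast_natCast]; exact p2) hXr hv p5 p4 p7
  refine ⟨Mass_PP s e i0 h l K r Z L q X, ?_, ?_⟩
  · intro p hp
    unfold Mass_PP at hp
    obtain ⟨x, v⟩ := p
    rw [Finset.mem_filter, Finset.mem_product, Finset.mem_biUnion] at hp
    obtain ⟨⟨_, j, _, hj⟩, hpc⟩ := hp
    obtain ⟨hlen, hlet⟩ := mem_lw.1 hj
    simp only at hlen hlet hpc ⊢
    have hv : ∀ k ∈ v, 1 ≤ k := fun k hk => (hlet k hk).1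
    have hw := hwin x v hv hpc
    have hx0 := Mass_pp hZpos hpc.1
    obtain ⟨⟨p1, p2, p3⟩, p4, p5, p6, p7⟩ := hpc
    simp only at p1 p2 p3 p4 p5 p6 p7
    have hlv : l ≤ v.length := by omega
    refine ⟨⟨?_, p1, ?_, ?_, hv, p5, ?_⟩, ?_, hw.1, ?_⟩
    · exact_mod_cast hx0
    · exact_mod_cast p3
    · intro hv0
      rw [hv0] at hlv
      simp at hlv
      omega
    · exact fp_nodes hs (x := x) (Z := (Z : ℤ)) (L := L) he he1 hS0 hS hq0 hh1 hh0 hhe hZi hZSi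
        (by rw [Int.cast_natCast]; exact p2) hv p5 p4 (hhl.trans hlv) (by rw [Int.cast_natCast]; exact p6)
    · have := p4 v.length (hh0.trans (hhl.trans hlv)) le_rfl
      rwa [List.take_length] at this
    · refine lt_of_lt_of_le hw.2.1 ?_
      have : (0 : ℝ) ≤ 2 * X := by positivity
      exact mul_le_mul_of_nonneg_left hqd' this
  · refine le_trans ?_ (Mass_sum (fun x v hv hp => (hwin x v hv hp).2.2))
    have hW := Mass_words (s := s) (e := e) (i0 := i0) (K := K) (h := h) hL hq0 (hZ0 Z hZa) (hK0 K hK)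
    set c : ℝ := (1 - q) * (Real.log 2 / Real.log (4 / 3)) with hc
    have h43 := Mass_log43
    have h43' : 0 < Real.log (4 / 3) := by linarith
    have hl2' : 0 < Real.log 2 := Real.log_pos (by norm_num)
    have hl21 : Real.log 2 ≤ 1 := by
      have := Real.log_le_sub_one_of_pos (by norm_num : (0 : ℝ) < 2)
      linarith
    have hc0 : 0 ≤ c := by
      rw [hc]
      exact mul_nonneg (by linarith) (by positivity)
    have hterm : ∀ x ∈ (Ico (-(Z : ℤ)) Z).filter (Mass_Rt s Z L),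
        c * (1 / (nv s x : ℝ) * ∑ u ∈ lw K l,
            (if Gd e i0 u ∧ Ala x u ∧ Mass_Hc s Z q x (u.take h) then ww u else 0)) -
          q * Real.exp (-L) * (1 / (nv s x : ℝ)) ≤
        1 / (nv s x : ℝ) * ∑ j ∈ range (r + 1), ∑ v ∈ lw K (l + j),
          (if Gd e i0 v ∧ Ala x v ∧ Mass_Hc s Z q x (v.take h) ∧ St (X * (1 + q) / nv s x) (l + j) v.sum
            then ww v else 0) := by
      intro x hx
      have hrt := (Finset.mem_filter.1 hx).2
      have hxp := Mass_pp hZpos hrt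
      have h1 := hroot x (Mass_Hc s Z q x) (by exact_mod_cast hxp) hrt.2.2.le
      have hx0 : (0 : ℝ) < 1 / (nv s x : ℝ) := by positivity
      have h2 := mul_le_mul_of_nonneg_left h1 hx0.le
      refine le_trans (le_of_eq ?_) h2
      rw [hc]
      ring
    have hsum := Finset.sum_le_sum hterm
    rw [Finset.sum_sub_distrib, ← Finset.mul_sum, ← Finset.mul_sum] at hsum
    have h5 := mul_le_mul_of_nonneg_left hW hc0
    have h6 : q * Real.exp (-L) * ∑ x ∈ (Ico (-(Z : ℤ)) Z).filter (Mass_Rt s Z L), 1 / (nv s x : ℝ) ≤ 2 * q := by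
      have h7 := mul_le_mul_of_nonneg_left (Mass_rts (s := s) hZpos L) (by positivity : 0 ≤ q * Real.exp (-L))
      have h8 : q * Real.exp (-L) * (2 * Real.exp L) = 2 * q := by
        rw [show q * Real.exp (-L) * (2 * Real.exp L) = 2 * q * (Real.exp (-L) * Real.exp L) by ring,
          ← Real.exp_add]
        simp
      linarith
    have h9 : (Real.log 2 - 21 * q) / 4 ≤ c * ((Real.log (4 / 3) - 3 * q) / 4) - 2 * q := by
      have h10 : c * ((Real.log (4 / 3) - 3 * q) / 4) =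
          (1 - q) * (Real.log 2 - 3 * q * (Real.log 2 / Real.log (4 / 3))) / 4 := by
        rw [hc]
        field_simp
      have h11 : Real.log 2 / Real.log (4 / 3) ≤ 4 := by
        rw [div_le_iff₀ h43']
        linarith
      have h12 : 0 ≤ Real.log 2 / Real.log (4 / 3) := by positivity
      rw [h10]
      set t := Real.log 2 / Real.log (4 / 3) with ht
      have h13 : (1 - q) * (Real.log 2 - 3 * q * t) = Real.log 2 - q * Real.log 2 - 3 * q * t + 3 * (q * q) * t := by ring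
      have h14 : q * Real.log 2 ≤ q * 1 := mul_le_mul_of_nonneg_left hl21 hq0.le
      have h15 : q * t ≤ q * 4 := mul_le_mul_of_nonneg_left h11 hq0.le
      have h16 : 0 ≤ 3 * (q * q) * t := by positivity
      rw [h13]
      linarith
    have h17 : (Real.log 2 - 21 * q) / 4 ≤
        ∑ x ∈ (Ico (-(Z : ℤ)) Z).filter (Mass_Rt s Z L), 1 / (nv s x : ℝ) *
          ∑ j ∈ range (r + 1), ∑ v ∈ lw K (l + j),
            (if Gd e i0 v ∧ Ala x v ∧ Mass_Hc s Z q x (v.take h) ∧ St (X * (1 + q) / nv s x) (l + j) v.sum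
              then ww v else 0) := by
      linarith
    rw [le_div_iff₀ (by linarith : (0 : ℝ) < 1 + q)]
    refine le_trans ?_ h17
    have h18 : q * Real.log 2 ≤ q * 1 := mul_le_mul_of_nonneg_left hl21 hq0.le
    have h19 : (Real.log 2 - d) * (1 + q) ≤ Real.log 2 - 21 * q := by nlinarith
    linarith

end Pool.Agent.helper4.BAS
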