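import Pool.Agent.helper4.BAS.Defs
import Pool.Agent.helper14.EX1.InjZ

/-!
# BAS-Uni: the end determines the word

`fp_uniq`: copy of helper62's `T2/Uniq.lean` (store `T2a_Uniq.lean`) with `nv s` instead of `3 x + 2`.
`dst`: no two words from a root which is not reached from itself have the same end (lengths arbitrary): induction from the right on
`v`, generalizing `w`: last letters `k`, `k'` and parents `y = nd x u`, `y' = nd x u'`, `4` divides neither `3 y + 2` nor `3 y' + 2`
(`InjZ_end`, or `h4` if `u = []`), so `step_inj`; if `v = []` and `w ≠ []` then `nd x w = x`, excluded by `hper`.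
-/

namespace Pool.Agent.helper4.BAS

open Finset Pool.Agent.helper14.EX1

/-- The prefix of a first passage word. -/
theorem Uni_pre {s Z x : ℤ} {u : List ℕ} {k : ℕ} (h : FP s Z x (u ++ [k])) (hu : u ≠ []) : FP s Z x u := by
  obtain ⟨h0, h4, hZ, -, h1, ha, hn⟩ := h
  rw [ala_append] at ha
  refine ⟨h0, h4, hZ, hu, fun j hj => h1 j (by simp [hj]), ha.1, fun i hi hi' => ?_⟩
  have h2 := hn i hi (by simp; omega)
  rwa [List.take_append_of_le_length hi'] at h2

/-- The last parent is at least `Z` if it is not the root. -/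
theorem Uni_ge {s Z x : ℤ} {u : List ℕ} {k : ℕ} (h : FP s Z x (u ++ [k])) (hu : u ≠ []) :
    Z ≤ nv s (nd x u) := by
  have h1 := (Uni_pre h hu).2.2.2.2.2.2 u.length
    (Nat.one_le_iff_ne_zero.mpr (fun h0 => hu (List.length_eq_zero_iff.1 h0))) le_rfl
  rwa [List.take_length] at h1

/-- The last parent is not divisible by `4`. -/
theorem Uni_four {s Z x : ℤ} {u : List ℕ} {k : ℕ} (h : FP s Z x (u ++ [k])) :
    ¬ (4 : ℤ) ∣ 3 * nd x u + 2 := by
  by_cases hu : u = []
  · subst hu
    exact h.2.1
  · exact InjZ_end hu (Uni_pre h hu).2.2.2.2.1 (Uni_pre h hu).2.2.2.2.2.1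

theorem fp_uniq {s Z x x' : ℤ} {v v' : List ℕ} (h : FP s Z x v) (h' : FP s Z x' v')
    (e : nd x v = nd x' v') : x = x' ∧ v = v' := by
  induction v using List.reverseRecOn generalizing v' with
  | nil => exact absurd rfl h.2.2.2.1
  | append_singleton u k ih =>
    obtain rfl | ⟨u', k', rfl⟩ := List.eq_nil_or_concat v'
    · exact absurd rfl h'.2.2.2.1
    · rw [List.concat_eq_append] at *
      have ha := h.2.2.2.2.2.1
      have ha' := h'.2.2.2.2.2.1
      rw [ala_append] at ha ha'
      rw [nd_append, nd_append] at e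
      have hk : 1 ≤ k := h.2.2.2.2.1 k (by simp)
      have hk' : 1 ≤ k' := h'.2.2.2.2.1 k' (by simp)
      have e' : Tk k (nd x u) = Tk k' (nd x' u') := e
      obtain ⟨h1, h2⟩ := step_inj hk hk' ha.2.1 ha'.2.1 (Uni_four h) (Uni_four h') e'
      subst h1
      by_cases hu : u = []
      · by_cases hu' : u' = []
        · subst hu hu'
          exact ⟨h2, rfl⟩
        · exfalso
          subst hu
          have h3 := Uni_ge h' hu'
          have h4 : x = nd x' u' := h2
          have h5 := h.2.2.1
          rw [← h4] at h3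
          omega
      · by_cases hu' : u' = []
        · exfalso
          subst hu'
          have h3 := Uni_ge h hu
          have h4 : nd x u = x' := h2
          have h5 := h'.2.2.1
          rw [h4] at h3
          omega
        · obtain ⟨h3, h4⟩ := ih (Uni_pre h hu) (Uni_pre h' hu') h2
          exact ⟨h3, by rw [h4]⟩

/-- The parent is not divisible by `4`. -/
theorem Uni_four' {x : ℤ} (h4 : ¬ (4 : ℤ) ∣ 3 * x + 2) {u : List ℕ} {k : ℕ}
    (hv : ∀ j ∈ u ++ [k], 1 ≤ j) (av : Ala x (u ++ [k])) : ¬ (4 : ℤ) ∣ 3 * nd x u + 2 := by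
  by_cases hu : u = []
  · subst hu
    exact h4
  · rw [ala_append] at av
    exact InjZ_end hu (fun j hj => hv j (by simp [hj])) av.1

theorem dst {x : ℤ} (h4 : ¬ (4 : ℤ) ∣ 3 * x + 2)
    (hper : ∀ u : List ℕ, u ≠ [] → (∀ k ∈ u, 1 ≤ k) → Ala x u → nd x u ≠ x) {v w : List ℕ}
    (hv : ∀ k ∈ v, 1 ≤ k) (hw : ∀ k ∈ w, 1 ≤ k) (av : Ala x v) (aw : Ala x w) (e : nd x v = nd x w) :
    v = w := by
  induction v using List.reverseRecOn generalizing w with
  | nil =>
    by_contra hne
    exact hper w (fun h => hne h.symm) hw aw e.symm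
  | append_singleton u k ih =>
    obtain rfl | ⟨u', k', rfl⟩ := List.eq_nil_or_concat w
    · exact absurd e (hper (u ++ [k]) (by simp) hv av)
    · rw [List.concat_eq_append] at *
      have f1 := Uni_four' h4 hv av
      have f2 := Uni_four' h4 hw aw
      rw [ala_append] at av aw
      rw [nd_append, nd_append] at e
      have hk : 1 ≤ k := hv k (by simp)
      have hk' : 1 ≤ k' := hw k' (by simp)
      have e' : Tk k (nd x u) = Tk k' (nd x u') := e
      obtain ⟨h1, h2⟩ := step_inj hk hk' av.2.1 aw.2.1 f1 f2 e'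
      subst h1
      rw [ih (fun j hj => hv j (by simp [hj])) (fun j hj => hw j (by simp [hj])) av.1 aw.1 h2]

end Pool.Agent.helper4.BAS
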